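import Mathlib
import Pool.Agent.Lib_MP_fa2e48_al.Defs

/-!
# Transfinite Ulm subgroups and direct sums of countable groups
-/

namespace Pool.Agent.Lib_MP_fa2e48_dsc

universe u

/-- The Ulm subgroups `p ^ (ω κ) A` of `A`: an element `x` lies in `ulm p A κ` iff for all `μ < κ`
and all `m` it is of the form `p ^ m • y` with `y` in `ulm p A μ`. -/
noncomputable def ulm (p : ℕ) (A : Type u) [AddCommGroup A] (κ : Ordinal.{0}) : AddSubgroup A :=
  ⨅ μ : Set.Iio κ, ⨅ m : ℕ, (ulm p A μ.1).map (nsmulAddMonoidHom (p ^ m))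
termination_by κ
decreasing_by exact μ.2

/-- `C` is isomorphic to a direct sum of countable groups. -/
def IsSumOfCountable (C : Type u) [AddCommGroup C] : Prop :=
  ∃ (ι : Type u) (B : ι → Type u) (_ : ∀ i, AddCommGroup (B i)),
    (∀ i, Countable (B i)) ∧ Nonempty (C ≃+ DirectSum ι B)

end Pool.Agent.Lib_MP_fa2e48_dsc
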