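import Mathlib
import Pool.Agent.Lib_MP_fa2e48_al.Defs
import Pool.Agent.Lib_MP_fa2e48_dsc.Ulm

/-!
# Definitions used in the proofs
-/

namespace Pool.Agent.Lib_MP_fa2e48_dsc

open Pool.Agent.Lib_MP_fa2e48_al

universe u v w u₁ u₂ u₃

section Defs

variable (p : ℕ) (κs : Ordinal.{0})

/-- Target filtrations. -/
structure TQ {A' : Type v} [AddCommGroup A'] (Q : Ordinal.{0} → ℕ → AddSubgroup A') : Prop where
  anti : ∀ {κ m n}, m ≤ n → Q κ n ≤ Q κ m
  lt : ∀ {μ κ}, μ < κ → κ < κs → ∀ m n, Q κ n ≤ Q μ m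
  mul : ∀ {κ m n x}, x ∈ Q κ m → p ^ n • x ∈ Q κ (m + n)
  div : ∀ {κ m n x}, x ∈ Q κ (m + n) → ∃ y ∈ Q κ m, p ^ n • y = x

/-- The function `f` is additive on `K` and maps elements of height at least `(κ, m)`, `κ < κs`, to
`Q κ m`. -/
structure PH {G : Type u} [AddCommGroup G] {A' : Type v} [AddCommGroup A']
    (Q : Ordinal.{0} → ℕ → AddSubgroup A') (K : AddSubgroup G) (f : G → A') : Prop where
  add : ∀ x ∈ K, ∀ y ∈ K, f (x + y) = f x + f y
  hc : ∀ κ < κs, ∀ m, ∀ x ∈ K, x ∈ pu p G κ m → f x ∈ Q κ m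

end Defs

/-- `K` is finite over `N`. -/
def Fo {G : Type u} [AddCommGroup G] (N K : AddSubgroup G) : Prop :=
  N ≤ K ∧ ∃ S : Finset G, (∀ s ∈ S, s ∈ K) ∧ ∀ k ∈ K, ∃ s ∈ S, k - s ∈ N

/-- The preimage in `A` of the `i`-th summand of `A / p ^ (ω κs) A`. -/
def Ki {A : Type u} [AddCommGroup A] {I : Type v} {B : I → Type w} [∀ i, AddCommGroup (B i)]
    (q : A →+ Π₀ i, B i) (i : I) : AddSubgroup A where
  carrier := {x | ∀ j, j ≠ i → q x j = 0}
  add_mem' := fun ha hb j hj => by rw [map_add, DFinsupp.add_apply, ha j hj, hb j hj, add_zero]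
  zero_mem' := fun j _ => by rw [map_zero, DFinsupp.zero_apply]
  neg_mem' := fun ha j hj => by rw [map_neg, DFinsupp.neg_apply, ha j hj, neg_zero]

/-- The indices `i` such that `B i` contains an element of order `p` of exact height `(κ, j)`. -/
def Js (p : ℕ) {I : Type v} (B : I → Type w) [∀ i, AddCommGroup (B i)] (κ : Ordinal.{0}) (j : ℕ) :
    Set I :=
  {i | ∃ u : B i, p • u = 0 ∧ u ∈ pu p (B i) κ j ∧ u ∉ pu p (B i) κ (j + 1)}

/-- `A / p ^ (ω κ) A` is a direct sum of countable groups. -/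
def DSC (p : ℕ) (A : Type u) [AddCommGroup A] (κ : Ordinal.{0}) : Prop :=
  ∃ (I : Type u) (B : I → Type u) (_ : ∀ i, AddCommGroup (B i)) (_ : ∀ i, Countable (B i))
    (q : A →+ Π₀ i, B i), Function.Surjective q ∧ ∀ x, q x = 0 ↔ x ∈ ulm p A κ

end Pool.Agent.Lib_MP_fa2e48_dsc
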