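import Mathlib
import Pool.Agent.Lib_MP_fa2e48_dsc.Ext

/-!
# Heights in direct sums
-/

namespace Pool.Agent.Lib_MP_fa2e48_dsc

open Pool.Agent.Lib_MP_fa2e48_al

universe u v w u₁ u₂ u₃

theorem mem_ulm_dfinsupp {p : ℕ} {I : Type v} {B : I → Type w} [∀ i, AddCommGroup (B i)]
    {κ : Ordinal.{0}} {x : Π₀ i, B i} :
    x ∈ ulm p (Π₀ i, B i) κ ↔ ∀ i, x i ∈ ulm p (B i) κ := by
  classical
  constructor
  · intro hx i
    exact map_ulm (DFinsupp.evalAddMonoidHom i) κ x hx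
  · intro hx
    rw [← DFinsupp.sum_single (f := x)]
    unfold DFinsupp.sum
    exact sum_mem fun i _ => map_ulm (DFinsupp.singleAddHom B i) κ _ (hx i)

theorem mem_pu_dfinsupp {p : ℕ} {I : Type v} {B : I → Type w} [∀ i, AddCommGroup (B i)]
    {κ : Ordinal.{0}} {m : ℕ} {x : Π₀ i, B i} :
    x ∈ pu p (Π₀ i, B i) κ m ↔ ∀ i, x i ∈ pu p (B i) κ m := by
  classical
  constructor
  · intro hx i
    exact map_pu (DFinsupp.evalAddMonoidHom i) hx
  · intro hx
    rw [← DFinsupp.sum_single (f := x)]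
    unfold DFinsupp.sum
    exact sum_mem fun i _ => map_pu (DFinsupp.singleAddHom B i) (hx i)

end Pool.Agent.Lib_MP_fa2e48_dsc
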