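import Mathlib
import Pool.Agent.Lib_MP_fa2e48_dsc.Ext

/-!
# Extension by a cyclic group
-/

namespace Pool.Agent.Lib_MP_fa2e48_dsc

open Pool.Agent.Lib_MP_fa2e48_al

universe u v w u₁ u₂ u₃

private theorem E1_mem_sup {G : Type u} [AddCommGroup G] {K : AddSubgroup G} {x g : G} :
    g ∈ K ⊔ AddSubgroup.zmultiples x ↔ ∃ k ∈ K, ∃ a : ℤ, g = k + a • x := by
  rw [AddSubgroup.mem_sup]
  constructor
  · rintro ⟨k, hk, z, hz, rfl⟩
    obtain ⟨a, rfl⟩ := AddSubgroup.mem_zmultiples_iff.1 hz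
    exact ⟨k, hk, a, rfl⟩
  · rintro ⟨k, hk, a, rfl⟩
    exact ⟨k, hk, a • x, AddSubgroup.mem_zmultiples_iff.2 ⟨a, rfl⟩, rfl⟩

/-- if `p ^ M` does not divide `a`, some multiple of `k + a • x` is `k' + p ^ s • x`, `s < M` -/
private theorem E1_bezout {p : ℕ} [Fact p.Prime] {G : Type u} [AddCommGroup G]
    {K : AddSubgroup G} {x : G} {M : ℕ} (hxK : p ^ M • x ∈ K) {a : ℤ}
    (ha : ¬ ((p : ℤ) ^ M ∣ a)) :
    ∃ (s : ℕ) (a' u : ℤ), s < M ∧ a = (p : ℤ) ^ s * a' ∧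
      ∀ k ∈ K, ∃ k' ∈ K, u • (k + a • x) = k' + p ^ s • x := by
  have hp : p.Prime := Fact.out
  have h1 : Int.gcd a ((p : ℤ) ^ M) ∣ p ^ M := by
    have := Int.gcd_dvd_right a ((p : ℤ) ^ M)
    exact_mod_cast this
  obtain ⟨s, hs, h2⟩ := (Nat.dvd_prime_pow hp).1 h1
  have h3 : ((p : ℤ) ^ s) ∣ a := by
    have h4 := Int.gcd_dvd_left a ((p : ℤ) ^ M)
    rw [h2] at h4
    exact_mod_cast h4
  have hsM : s < M := by
    rcases hs.lt_or_eq with h | h
    · exact h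
    · exact absurd (h ▸ h3) ha
  obtain ⟨a', ha'⟩ := h3
  refine ⟨s, a', Int.gcdA a ((p : ℤ) ^ M), hsM, ha', fun k hk => ?_⟩
  have h5 := Int.gcd_eq_gcd_ab a ((p : ℤ) ^ M)
  rw [h2] at h5
  refine ⟨Int.gcdA a ((p : ℤ) ^ M) • k - Int.gcdB a ((p : ℤ) ^ M) • (p ^ M • x),
    K.sub_mem (K.zsmul_mem hk _) (K.zsmul_mem hxK _), ?_⟩
  have h6 : p ^ s • x = ((p : ℤ) ^ s) • x := by
    rw [← Nat.cast_pow, natCast_zsmul]
  have h7 : p ^ M • x = ((p : ℤ) ^ M) • x := by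
    rw [← Nat.cast_pow, natCast_zsmul]
  have h8 : ((p : ℤ) ^ s) = a * Int.gcdA a ((p : ℤ) ^ M) + (p : ℤ) ^ M * Int.gcdB a ((p : ℤ) ^ M) := by
    exact_mod_cast h5
  rw [h6, h7, h8, smul_add, add_smul, smul_smul, smul_smul,
    mul_comm a (Int.gcdA a ((p : ℤ) ^ M)), mul_comm ((p : ℤ) ^ M) (Int.gcdB a ((p : ℤ) ^ M))]
  abel

/-- Define `f' (k + a • x) = f k + a • y`. -/
theorem ext_cyclic {p : ℕ} [Fact p.Prime] {G : Type u} [AddCommGroup G] {A' : Type v}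
    [AddCommGroup A'] (hG : ∀ g : G, ∃ k : ℕ, p ^ k • g = 0) {κs : Ordinal.{0}}
    {Q : Ordinal.{0} → ℕ → AddSubgroup A'} (hQ : TQ p κs Q) {K : AddSubgroup G} {f : G → A'}
    (hf : PH p κs Q K f) {x : G} {M : ℕ} (hM : 1 ≤ M) {κ : Ordinal.{0}} (hκ : κ < κs) {m₀ : ℕ}
    (hx : x ∈ pu p G κ m₀) (hxK : p ^ M • x ∈ K)
    (hprop : ∀ k ∈ K, p ^ (M - 1) • x + k ∉ pu p G κ (m₀ + M)) {y : A'} (hy : y ∈ Q κ m₀)
    (hxy : p ^ M • y = f (p ^ M • x)) :
    ∃ f' : G → A', PH p κs Q (K ⊔ AddSubgroup.zmultiples x) f' ∧ (∀ k ∈ K, f' k = f k) ∧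
      f' x = y := by
  classical
  -- `f` is a homomorphism on `K`
  obtain ⟨fK, hfK⟩ : ∃ fK : K →+ A', ∀ k : K, fK k = f k :=
    ⟨AddMonoidHom.mk' (fun k => f k) (fun a b => hf.add a a.2 b b.2), fun _ => rfl⟩
  have hfz : ∀ (c : ℤ) (k : G), k ∈ K → f (c • k) = c • f k := by
    intro c k hk
    have h1 := map_zsmul fK c ⟨k, hk⟩
    rw [hfK, hfK] at h1
    exact h1
  have hfs : ∀ k ∈ K, ∀ k' ∈ K, f (k - k') = f k - f k' := by
    intro k hk k' hk'
    have h1 := map_sub fK ⟨k, hk⟩ ⟨k', hk'⟩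
    rw [hfK, hfK, hfK] at h1
    exact h1
  have hMx : p ^ M • x = ((p : ℤ) ^ M) • x := by
    rw [← Nat.cast_pow, natCast_zsmul]
  have hMy : p ^ M • y = ((p : ℤ) ^ M) • y := by
    rw [← Nat.cast_pow, natCast_zsmul]
  -- Step 1
  have hdvd : ∀ a : ℤ, a • x ∈ K → (p : ℤ) ^ M ∣ a := by
    intro a ha
    by_contra hc
    obtain ⟨s, a', u, hs, -, h1⟩ := E1_bezout hxK hc
    obtain ⟨k', hk', h2⟩ := h1 (-(a • x)) (K.neg_mem ha)
    rw [neg_add_cancel, smul_zero] at h2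
    have h3 : p ^ s • x ∈ K := by
      have h4 : p ^ s • x = -k' := eq_neg_of_add_eq_zero_right h2.symm
      rw [h4]
      exact K.neg_mem hk'
    have h5 : p ^ (M - 1) • x ∈ K := by
      have h6 : p ^ (M - 1) = p ^ (M - 1 - s) * p ^ s := by
        rw [← pow_add]
        congr 1
        omega
      rw [h6, mul_smul]
      exact K.nsmul_mem h3 _
    refine hprop _ (K.neg_mem h5) ?_
    rw [add_neg_cancel]
    exact AddSubgroup.zero_mem _
  have hval : ∀ c : ℤ, f (((p : ℤ) ^ M * c) • x) = ((p : ℤ) ^ M * c) • y := by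
    intro c
    rw [mul_comm, mul_smul, ← hMx, hfz c _ hxK, ← hxy, hMy, ← mul_smul]
  have hwd : ∀ k ∈ K, ∀ k' ∈ K, ∀ a a' : ℤ, k + a • x = k' + a' • x →
      f k + a • y = f k' + a' • y := by
    intro k hk k' hk' a a' h
    have h1 : (a - a') • x = k' - k := by
      rw [sub_smul, sub_eq_sub_iff_add_eq_add, add_comm, h, add_comm]
    obtain ⟨c, hc⟩ := hdvd (a - a') (by rw [h1]; exact K.sub_mem hk' hk)
    have h2 : f (k' - k) = (a - a') • y := by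
      rw [← h1, hc, hval]
    rw [hfs k' hk' k hk, sub_smul] at h2
    rw [sub_eq_sub_iff_add_eq_add] at h2
    rw [h2, add_comm]
  -- the function
  obtain ⟨f', hf'⟩ : ∃ f' : G → A', ∀ k ∈ K, ∀ a : ℤ, f' (k + a • x) = f k + a • y := by
    have h1 : ∀ g : G, ∃ z : A', ∀ k ∈ K, ∀ a : ℤ, g = k + a • x → z = f k + a • y := by
      intro g
      by_cases hg : ∃ k ∈ K, ∃ a : ℤ, g = k + a • x
      · obtain ⟨k, hk, a, rfl⟩ := hg
        exact ⟨f k + a • y, fun k' hk' a' h => hwd k hk k' hk' a a' h⟩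
      · exact ⟨0, fun k hk a h => absurd ⟨k, hk, a, h⟩ hg⟩
    choose f' hf' using h1
    exact ⟨f', fun k hk a => hf' _ k hk a rfl⟩
  refine ⟨f', ⟨?_, ?_⟩, ?_, ?_⟩
  · intro g hg g' hg'
    obtain ⟨k, hk, a, rfl⟩ := E1_mem_sup.1 hg
    obtain ⟨k', hk', a', rfl⟩ := E1_mem_sup.1 hg'
    have h1 : k + a • x + (k' + a' • x) = (k + k') + (a + a') • x := by
      rw [add_smul]
      abel
    rw [h1, hf' _ (K.add_mem hk hk'), hf' k hk, hf' k' hk', hf.add k hk k' hk', add_smul]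
    abel
  · intro κ' hκ' m g hg hgm
    obtain ⟨k, hk, a, rfl⟩ := E1_mem_sup.1 hg
    rw [hf' k hk]
    by_cases ha : (p : ℤ) ^ M ∣ a
    · obtain ⟨c, rfl⟩ := ha
      have h1 : ((p : ℤ) ^ M * c) • x ∈ K := by
        rw [mul_comm, mul_smul, ← hMx]
        exact K.zsmul_mem hxK c
      rw [← hval, ← hf.add k hk _ h1]
      exact hf.hc κ' hκ' m _ (K.add_mem hk h1) hgm
    · obtain ⟨s, a', u, hs, haa, h1⟩ := E1_bezout hxK ha
      obtain ⟨k', hk', h2⟩ := h1 k hk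
      have h3 : p ^ (M - 1) • x + p ^ (M - 1 - s) • k' ∈ pu p G κ' (m + (M - 1 - s)) := by
        have h4 := pu_smul (AddSubgroup.zsmul_mem _ hgm u) (M - 1 - s)
        rw [h2, smul_add, smul_smul, ← pow_add, Nat.sub_add_cancel (by omega)] at h4
        rwa [add_comm (p ^ (M - 1 - s) • k')] at h4
      have h5 := hprop _ (K.nsmul_mem hk' (p ^ (M - 1 - s)))
      have hax : ∀ (κ₁ : Ordinal.{0}) (m₁ : ℕ), x ∈ pu p G κ₁ m₁ →
          a • x ∈ pu p G κ₁ (m₁ + s) := by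
        intro κ₁ m₁ h
        have h6 : a • x = a' • (p ^ s • x) := by
          rw [haa, mul_comm, mul_smul, ← Nat.cast_pow, natCast_zsmul]
        rw [h6]
        exact AddSubgroup.zsmul_mem _ (pu_smul h s) a'
      have hay : a • y ∈ Q κ (m₀ + s) := by
        have h6 : a • y = a' • (p ^ s • y) := by
          rw [haa, mul_comm, mul_smul, ← Nat.cast_pow, natCast_zsmul]
        rw [h6]
        exact AddSubgroup.zsmul_mem _ (hQ.mul hy) a'
      have hkm : a • x ∈ pu p G κ' m → k ∈ pu p G κ' m := by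
        intro h
        have h6 := AddSubgroup.sub_mem _ hgm h
        rwa [add_sub_cancel_right] at h6
      rcases lt_trichotomy κ' κ with h | h | h
      · have h6 : x ∈ pu p G κ' m := pu_le_pu h m m₀ hx
        have h7 : a • x ∈ pu p G κ' m := AddSubgroup.zsmul_mem _ h6 a
        exact AddSubgroup.add_mem _ (hf.hc κ' hκ' m k hk (hkm h7))
          (AddSubgroup.zsmul_mem _ (hQ.lt h hκ m m₀ hy) a)
      · subst h
        have h6 : m ≤ m₀ + s := by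
          by_contra hc
          exact h5 (pu_anti (by omega) h3)
        have h7 : a • x ∈ pu p G κ' m := pu_anti h6 (hax κ' m₀ hx)
        exact AddSubgroup.add_mem _ (hf.hc κ' hκ' m k hk (hkm h7)) (hQ.anti h6 hay)
      · exact absurd (pu_le_pu h _ _ h3) h5
  · intro k hk
    have h1 := hf' k hk 0
    rw [zero_smul, zero_smul, add_zero, add_zero] at h1
    exact h1
  · have h1 := hf' 0 K.zero_mem 1
    rw [one_smul, one_smul, zero_add] at h1
    have h2 := hfs 0 K.zero_mem 0 K.zero_mem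
    rw [sub_self, sub_self] at h2
    rw [h1, h2, zero_add]

theorem fo_sup {p : ℕ} [Fact p.Prime] {G : Type u} [AddCommGroup G] {N K : AddSubgroup G}
    (hK : Fo N K) {x : G} {M : ℕ} (hx : p ^ M • x ∈ K) :
    Fo N (K ⊔ AddSubgroup.zmultiples x) := by
  classical
  have hp : p.Prime := Fact.out
  obtain ⟨hNK, S, hSK, hS⟩ := hK
  refine ⟨hNK.trans le_sup_left,
    (S ×ˢ Finset.range (p ^ M)).image fun t => t.1 + t.2 • x, ?_, ?_⟩
  · intro g hg
    obtain ⟨t, ht, rfl⟩ := Finset.mem_image.1 hg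
    rw [Finset.mem_product] at ht
    exact E1_mem_sup.2 ⟨t.1, hSK _ ht.1, t.2, by rw [natCast_zsmul]⟩
  · intro g hg
    obtain ⟨k, hk, a, rfl⟩ := E1_mem_sup.1 hg
    have hpos : (0 : ℤ) < (p : ℤ) ^ M := by
      have := hp.pos
      positivity
    have hMx : p ^ M • x = ((p : ℤ) ^ M) • x := by
      rw [← Nat.cast_pow, natCast_zsmul]
    obtain ⟨r, hr⟩ : ∃ r : ℕ, (r : ℤ) = a % (p : ℤ) ^ M :=
      ⟨(a % (p : ℤ) ^ M).toNat, Int.toNat_of_nonneg (Int.emod_nonneg _ hpos.ne')⟩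
    have hrlt : r < p ^ M := by
      have h1 := Int.emod_lt_of_pos a hpos
      rw [← hr] at h1
      exact_mod_cast h1
    have hk' : k + (a / (p : ℤ) ^ M) • (p ^ M • x) ∈ K :=
      K.add_mem hk (K.zsmul_mem hx _)
    obtain ⟨s, hs, h1⟩ := hS _ hk'
    refine ⟨s + r • x, Finset.mem_image.2 ⟨(s, r), Finset.mem_product.2
      ⟨hs, Finset.mem_range.2 hrlt⟩, rfl⟩, ?_⟩
    have h2 : k + a • x - (s + r • x) = k + (a / (p : ℤ) ^ M) • (p ^ M • x) - s := by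
      have h3 : a • x = (a / (p : ℤ) ^ M) • (p ^ M • x) + r • x := by
        rw [hMx, ← natCast_zsmul x r, hr, ← mul_smul, ← add_smul]
        congr 1
        rw [mul_comm]
        exact (Int.mul_ediv_add_emod a ((p : ℤ) ^ M)).symm
      rw [h3]
      abel
    rw [h2]
    exact h1

end Pool.Agent.Lib_MP_fa2e48_dsc
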