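import Mathlib
import Pool.Agent.Lib_MP_fa2e48_dsc.Ext

/-!
# Proper elements
-/

namespace Pool.Agent.Lib_MP_fa2e48_dsc

open Pool.Agent.Lib_MP_fa2e48_al

universe u v w u₁ u₂ u₃

theorem exists_proper {p : ℕ} {G : Type u} [AddCommGroup G] {κs : Ordinal.{0}}
    {K : AddSubgroup G} (hK : Fo (ulm p G κs) K) {z₀ : G} (hz : z₀ ∉ K) :
    ∃ κ < κs, ∃ j : ℕ, ∃ s ∈ K, z₀ + s ∈ pu p G κ j ∧
      ∀ k ∈ K, z₀ + k ∉ pu p G κ (j + 1) := by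
  classical
  obtain ⟨hNK, S, hSK, hS⟩ := hK
  have hSne : S.Nonempty := by
    obtain ⟨s, hs, -⟩ := hS 0 K.zero_mem
    exact ⟨s, hs⟩
  have h0 : ∀ s ∈ S, ∃ μ : Ordinal.{0}, μ < κs ∧ ∃ m : ℕ, z₀ + s ∈ pu p G μ m ∧
      z₀ + s ∉ pu p G μ (m + 1) := by
    intro s hs
    have h1 : z₀ + s ∉ ulm p G κs := fun h => hz (by
      have h2 := K.sub_mem (hNK h) (hSK s hs)
      rwa [add_sub_cancel_right] at h2)
    obtain ⟨μ, hμ, m, h2, h3⟩ := exists_height h1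
    exact ⟨μ, hμ, m, h2, h3⟩
  choose! κf hκf jf hjf1 hjf2 using h0
  obtain ⟨s, hs, hmax⟩ := Finset.exists_max_image S (fun s => toLex (κf s, jf s)) hSne
  refine ⟨κf s, hκf s hs, jf s, s, hSK s hs, hjf1 s hs, fun k hk hc => ?_⟩
  obtain ⟨s', hs', hs'N⟩ := hS k hk
  have h1 : z₀ + s' ∈ pu p G (κf s) (jf s + 1) := by
    have h2 := AddSubgroup.sub_mem _ hc (ulm_le_pu (hκf s hs) (jf s + 1) hs'N)
    have h3 : z₀ + k - (k - s') = z₀ + s' := by abel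
    rwa [h3] at h2
  have h4 := hmax s' hs'
  rw [Prod.Lex.toLex_le_toLex] at h4
  rcases h4 with h4 | ⟨h4, h5⟩
  · exact hjf2 s' hs' (pu_le_pu h4 _ _ h1)
  · simp only at h4 h5
    rw [← h4] at h1
    exact hjf2 s' hs' (pu_anti (Nat.succ_le_succ h5) h1)

end Pool.Agent.Lib_MP_fa2e48_dsc
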