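import Mathlib
import Pool.Agent.Lib_MP_fa2e48_dsc.E1
import Pool.Agent.Lib_MP_fa2e48_dsc.E2

/-!
# Extension to subgroups which are countable modulo `ulm p G κs`
-/

namespace Pool.Agent.Lib_MP_fa2e48_dsc

open Pool.Agent.Lib_MP_fa2e48_al

universe u v w u₁ u₂ u₃

/-- Union of a chain of partial homomorphisms. -/
theorem chain {p : ℕ} {G : Type u} [AddCommGroup G] {A' : Type v} [AddCommGroup A']
    {κs : Ordinal.{0}} {Q : Ordinal.{0} → ℕ → AddSubgroup A'} (K : ℕ → AddSubgroup G)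
    (f : ℕ → G → A') (hK : ∀ n, K n ≤ K (n + 1)) (hf : ∀ n, PH p κs Q (K n) (f n))
    (hff : ∀ n, ∀ x ∈ K n, f (n + 1) x = f n x) :
    ∃ F : G → A', (∀ n, ∀ x ∈ K n, F x = f n x) ∧ ∀ L : AddSubgroup G, (∀ x ∈ L, ∃ n, x ∈ K n) →
      PH p κs Q L F := by
  classical
  have hmono : Monotone K := monotone_nat_of_le_succ hK
  have hst : ∀ n m, n ≤ m → ∀ x ∈ K n, f m x = f n x := by
    intro n m hnm
    induction m, hnm using Nat.le_induction with
    | base => intro x _; rfl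
    | succ m hnm ih =>
      intro x hx
      rw [hff m x (hmono hnm hx), ih x hx]
  let F : G → A' := fun x => if h : ∃ n, x ∈ K n then f (Nat.find h) x else 0
  have hF : ∀ n, ∀ x ∈ K n, F x = f n x := by
    intro n x hx
    have h : ∃ n, x ∈ K n := ⟨n, hx⟩
    have h1 : F x = f (Nat.find h) x := dif_pos h
    rw [h1]
    exact (hst _ _ (Nat.find_min' h hx) x (Nat.find_spec h)).symm
  refine ⟨F, hF, fun L hL => ⟨?_, ?_⟩⟩
  · intro x hx y hy
    obtain ⟨a, ha⟩ := hL x hx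
    obtain ⟨b, hb⟩ := hL y hy
    have hx' : x ∈ K (max a b) := hmono (le_max_left a b) ha
    have hy' : y ∈ K (max a b) := hmono (le_max_right a b) hb
    rw [hF _ _ (add_mem hx' hy'), hF _ _ hx', hF _ _ hy', (hf _).add x hx' y hy']
  · intro κ hκ m x hx hxp
    obtain ⟨n, hn⟩ := hL x hx
    rw [hF n x hn]
    exact (hf n).hc κ hκ m x hn hxp

/-- One more element. -/
theorem ext_one {p : ℕ} [Fact p.Prime] {G : Type u} [AddCommGroup G] {A' : Type v}
    [AddCommGroup A'] (hG : ∀ g : G, ∃ k : ℕ, p ^ k • g = 0) {κs : Ordinal.{0}}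
    {Q : Ordinal.{0} → ℕ → AddSubgroup A'} (hQ : TQ p κs Q) {K : AddSubgroup G} {f : G → A'}
    (hf : PH p κs Q K f) (hK : Fo (ulm p G κs) K) (g : G) :
    ∃ (K' : AddSubgroup G) (f' : G → A'), K ≤ K' ∧ g ∈ K' ∧ K' ≤ K ⊔ AddSubgroup.zmultiples g ∧
      Fo (ulm p G κs) K' ∧ PH p κs Q K' f' ∧ ∀ k ∈ K, f' k = f k := by
  obtain ⟨n, hn⟩ := hG g
  have hn' : p ^ n • g ∈ K := by rw [hn]; exact zero_mem _
  clear hn
  induction n generalizing K f with
  | zero =>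
    rw [pow_zero, one_smul] at hn'
    exact ⟨K, f, le_rfl, hn', le_sup_left, hK, hf, fun _ _ => rfl⟩
  | succ n ih =>
    by_cases hz : p ^ n • g ∈ K
    · exact ih hf hK hz
    · obtain ⟨κ, hκ, j, s, hs, hzs, hprop⟩ := exists_proper hK hz
      have hpz : p ^ 1 • (p ^ n • g + s) ∈ K := by
        rw [smul_add, smul_smul, ← pow_add, add_comm 1 n]
        exact add_mem hn' (K.nsmul_mem hs _)
      have hpz' : p ^ 1 • (p ^ n • g + s) ∈ pu p G κ (j + 1) := pu_smul hzs 1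
      obtain ⟨y, hy, hyz⟩ := hQ.div (hf.hc κ hκ (j + 1) _ hpz hpz')
      obtain ⟨f', hf', hf'K, hf'z⟩ := ext_cyclic hG hQ hf (x := p ^ n • g + s) (M := 1) le_rfl
        hκ (m₀ := j) hzs hpz (fun k hk => by
          rw [Nat.sub_self, pow_zero, one_smul, add_assoc]
          exact hprop _ (add_mem hs hk)) hy hyz
      have hK1 : Fo (ulm p G κs) (K ⊔ AddSubgroup.zmultiples (p ^ n • g + s)) := fo_sup hK hpz
      have hz1 : p ^ n • g ∈ K ⊔ AddSubgroup.zmultiples (p ^ n • g + s) := by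
        have h1 : p ^ n • g + s ∈ K ⊔ AddSubgroup.zmultiples (p ^ n • g + s) :=
          (le_sup_right : AddSubgroup.zmultiples (p ^ n • g + s) ≤ _)
            (AddSubgroup.mem_zmultiples _)
        have h2 : s ∈ K ⊔ AddSubgroup.zmultiples (p ^ n • g + s) :=
          (le_sup_left : K ≤ K ⊔ AddSubgroup.zmultiples (p ^ n • g + s)) hs
        have h3 := sub_mem h1 h2
        rwa [add_sub_cancel_right] at h3
      obtain ⟨K', f'', hKK', hgK', hK'le, hFo, hPH, hag⟩ := ih hf' hK1 hz1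
      refine ⟨K', f'', le_sup_left.trans hKK', hgK', hK'le.trans ?_, hFo, hPH, ?_⟩
      · refine sup_le (sup_le le_sup_left ?_) le_sup_right
        rw [AddSubgroup.zmultiples_le]
        refine add_mem ?_ ?_
        · exact (le_sup_right : AddSubgroup.zmultiples g ≤ K ⊔ AddSubgroup.zmultiples g)
            (AddSubgroup.nsmul_mem _ (AddSubgroup.mem_zmultiples g) _)
        · exact (le_sup_left : K ≤ K ⊔ AddSubgroup.zmultiples g) hs
      · intro k hk
        rw [hag k ((le_sup_left : K ≤ K ⊔ AddSubgroup.zmultiples (p ^ n • g + s)) hk), hf'K k hk]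

theorem extE {p : ℕ} [Fact p.Prime] {G : Type u} [AddCommGroup G] {A' : Type v}
    [AddCommGroup A'] (hG : ∀ g : G, ∃ k : ℕ, p ^ k • g = 0) {κs : Ordinal.{0}}
    {Q : Ordinal.{0} → ℕ → AddSubgroup A'} (hQ : TQ p κs Q) {K L : AddSubgroup G} {f : G → A'}
    (hf : PH p κs Q K f) (hK : Fo (ulm p G κs) K) (hKL : K ≤ L)
    (hL : ∃ g : ℕ → G, (∀ n, g n ∈ L) ∧ ∀ x ∈ L, ∃ n, x - g n ∈ ulm p G κs) :
    ∃ f' : G → A', PH p κs Q L f' ∧ ∀ k ∈ K, f' k = f k := by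
  obtain ⟨g, hgL, hg⟩ := hL
  let St := {P : AddSubgroup G × (G → A') // K ≤ P.1 ∧ P.1 ≤ L ∧ Fo (ulm p G κs) P.1 ∧
    PH p κs Q P.1 P.2}
  have hstep : ∀ (n : ℕ) (P : St), ∃ P' : St, P.1.1 ≤ P'.1.1 ∧ g n ∈ P'.1.1 ∧
      ∀ k ∈ P.1.1, P'.1.2 k = P.1.2 k := by
    rintro n ⟨⟨K1, f1⟩, h1, h2, h3, h4⟩
    obtain ⟨K', f', a1, a2, a3, a4, a5, a6⟩ := ext_one hG hQ h4 h3 (g n)
    have h5 : K' ≤ L := a3.trans (sup_le h2 ((AddSubgroup.zmultiples_le).2 (hgL n)))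
    exact ⟨⟨(K', f'), h1.trans a1, h5, a4, a5⟩, a1, a2, a6⟩
  choose step st1 st2 st3 using hstep
  let sq : ℕ → St := fun n => Nat.rec ⟨(K, f), le_rfl, hKL, hK, hf⟩ (fun n P => step n P) n
  have sq_succ : ∀ n, sq (n + 1) = step n (sq n) := fun n => rfl
  obtain ⟨F, hF, hFL⟩ := chain (p := p) (κs := κs) (Q := Q) (fun n => (sq n).1.1)
    (fun n => (sq n).1.2) (fun n => by
      change (sq n).1.1 ≤ (sq (n + 1)).1.1
      rw [sq_succ]
      exact st1 n _) (fun n => (sq n).2.2.2.2) (fun n x hx => by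
      change (sq (n + 1)).1.2 x = (sq n).1.2 x
      rw [sq_succ]
      exact st3 n _ x hx)
  refine ⟨F, hFL L fun x hx => ?_, fun k hk => hF 0 k hk⟩
  obtain ⟨n, hn⟩ := hg x hx
  refine ⟨n + 1, ?_⟩
  have h1 : g n ∈ (sq (n + 1)).1.1 := by
    rw [sq_succ]
    exact st2 n _
  have h2 : x - g n ∈ (sq (n + 1)).1.1 := (sq (n + 1)).2.2.2.1.1 hn
  have h3 := add_mem h2 h1
  rwa [sub_add_cancel] at h3

end Pool.Agent.Lib_MP_fa2e48_dsc
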