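import Mathlib
import Pool.Agent.Lib_MP_fa2e48_dsc.D0
import Pool.Agent.Lib_MP_fa2e48_dsc.E3

/-!
# Gluing
-/

namespace Pool.Agent.Lib_MP_fa2e48_dsc

open Pool.Agent.Lib_MP_fa2e48_al

universe u v w u₁ u₂ u₃

/-- If the components of `a` are lifted, `a` minus the sum of the lifts is in `ulm p A κs`. -/
private theorem sub_sum_mem {p : ℕ} {A : Type u} [AddCommGroup A] {κs : Ordinal.{0}} {I : Type w}
    [DecidableEq I] {B : I → Type u₁} [∀ i, AddCommGroup (B i)]
    [∀ i (x : B i), Decidable (x ≠ 0)] (q : A →+ Π₀ i, B i)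
    (hker : ∀ x, q x = 0 ↔ x ∈ ulm p A κs) (a : A) (l : I → A)
    (hl : ∀ i, q (l i) = DFinsupp.single i (q a i)) :
    a - ∑ i ∈ (q a).support, l i ∈ ulm p A κs := by
  rw [← hker, map_sub, map_sum, sub_eq_zero]
  conv_lhs => rw [← DFinsupp.sum_single (f := q a)]
  unfold DFinsupp.sum
  exact Finset.sum_congr rfl fun i _ => (hl i).symm

theorem glue {p : ℕ} {A : Type u} [AddCommGroup A] {A' : Type v} [AddCommGroup A']
    {κs : Ordinal.{0}} {Q : Ordinal.{0} → ℕ → AddSubgroup A'} {I : Type w} {B : I → Type u₁}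
    [∀ i, AddCommGroup (B i)] (q : A →+ Π₀ i, B i) (hq : Function.Surjective q)
    (hker : ∀ x, q x = 0 ↔ x ∈ ulm p A κs) (f : I → A → A')
    (hf : ∀ i, PH p κs Q (Ki q i) (f i)) (f₀ : A → A') (hf₀ : PH p κs Q (ulm p A κs) f₀)
    (h₀ : ∀ i, ∀ h ∈ ulm p A κs, f i h = f₀ h) :
    ∃ F : A →+ A', (∀ h ∈ ulm p A κs, F h = f₀ h) ∧
      ∀ κ < κs, ∀ m, ∀ x ∈ pu p A κ m, F x ∈ Q κ m := by
  classical
  let Fi : ∀ i, Ki q i →+ A' := fun i =>
    AddMonoidHom.mk' (fun x => f i x) fun x y => (hf i).add x.1 x.2 y.1 y.2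
  let F0 : ulm p A κs →+ A' :=
    AddMonoidHom.mk' (fun x => f₀ x) fun x y => hf₀.add x.1 x.2 y.1 y.2
  let Sg : (ulm p A κs) × (Π₀ i, Ki q i) →+ A :=
    AddMonoidHom.coprod (ulm p A κs).subtype
      (DFinsupp.liftAddHom (β := fun i => Ki q i) fun i => (Ki q i).subtype)
  let Ph : (ulm p A κs) × (Π₀ i, Ki q i) →+ A' :=
    AddMonoidHom.coprod F0 (DFinsupp.liftAddHom (β := fun i => Ki q i) Fi)
  have Fi_apply : ∀ i (x : Ki q i), Fi i x = f i x := fun i x => rfl
  have F0_apply : ∀ x : ulm p A κs, F0 x = f₀ x := fun x => rfl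
  have Sg_apply : ∀ (h : ulm p A κs) (d : Π₀ i, Ki q i),
      Sg (h, d) = (h : A) + ∑ i ∈ d.support, ((d i : Ki q i) : A) := by
    intro h d
    change (h : A) + DFinsupp.liftAddHom (β := fun i => Ki q i) (fun i => (Ki q i).subtype) d = _
    rw [DFinsupp.liftAddHom_apply, DFinsupp.sumAddHom_apply]
    rfl
  have Ph_apply : ∀ (h : ulm p A κs) (d : Π₀ i, Ki q i),
      Ph (h, d) = f₀ h + ∑ i ∈ d.support, f i ((d i : Ki q i) : A) := by
    intro h d
    change F0 h + DFinsupp.liftAddHom (β := fun i => Ki q i) Fi d = _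
    rw [DFinsupp.liftAddHom_apply, DFinsupp.sumAddHom_apply]
    rfl
  have Sg_sum : ∀ (h : ulm p A κs) (s : Finset I) (l : ∀ i, Ki q i),
      Sg (h, ∑ i ∈ s, DFinsupp.single i (l i)) = (h : A) + ∑ i ∈ s, ((l i : Ki q i) : A) := by
    intro h s l
    change (h : A) + DFinsupp.liftAddHom (β := fun i => Ki q i) (fun i => (Ki q i).subtype)
      (∑ i ∈ s, DFinsupp.single i (l i)) = _
    rw [map_sum]
    simp only [DFinsupp.liftAddHom_apply_single]
    rfl
  have Ph_sum : ∀ (h : ulm p A κs) (s : Finset I) (l : ∀ i, Ki q i),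
      Ph (h, ∑ i ∈ s, DFinsupp.single i (l i)) = f₀ h + ∑ i ∈ s, f i ((l i : Ki q i) : A) := by
    intro h s l
    change F0 h + DFinsupp.liftAddHom (β := fun i => Ki q i) Fi
      (∑ i ∈ s, DFinsupp.single i (l i)) = _
    rw [map_sum]
    simp only [DFinsupp.liftAddHom_apply_single]
    rfl
  -- the kernel of `Sg` is contained in the kernel of `Ph`
  have hkk : ∀ z, Sg z = 0 → Ph z = 0 := by
    rintro ⟨h, d⟩ hz
    rw [Sg_apply] at hz
    have hd : ∀ i, ((d i : Ki q i) : A) ∈ ulm p A κs := by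
      intro i
      rw [← hker]
      ext j
      rw [DFinsupp.zero_apply]
      by_cases hij : j = i
      · subst hij
        have h1 : q ((h : A) + ∑ i ∈ d.support, ((d i : Ki q i) : A)) j = 0 := by
          rw [hz, map_zero, DFinsupp.zero_apply]
        rw [map_add, (hker _).2 h.2, zero_add, map_sum, DFinsupp.finset_sum_apply] at h1
        rw [Finset.sum_eq_single j] at h1
        · exact h1
        · intro k _ hk
          exact (d k).2 j (Ne.symm hk)
        · intro hj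
          rw [DFinsupp.notMem_support_iff] at hj
          rw [hj]
          simp
      · exact (d i).2 j hij
    rw [Ph_apply]
    have h2 : ∑ i ∈ d.support, f i ((d i : Ki q i) : A) =
        ∑ i ∈ d.support, F0 ⟨((d i : Ki q i) : A), hd i⟩ :=
      Finset.sum_congr rfl fun i _ => h₀ i _ (hd i)
    rw [h2, ← F0_apply, ← map_sum, ← map_add]
    have h3 : h + ∑ i ∈ d.support, (⟨((d i : Ki q i) : A), hd i⟩ : ulm p A κs) = 0 := by
      apply Subtype.ext
      rw [AddSubgroup.coe_add, AddSubgroup.val_finsetSum]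
      exact hz
    rw [h3, map_zero]
  have hwd : ∀ z w, Sg z = Sg w → Ph z = Ph w := by
    intro z w hzw
    have h1 := hkk (z - w) (by rw [map_sub, hzw, sub_self])
    rw [map_sub, sub_eq_zero] at h1
    exact h1
  -- decomposition of an element
  have hdec : ∀ (a : A) (l : I → A) (hl : ∀ i, q (l i) = DFinsupp.single i (q a i)),
      ∃ z, Sg z = a ∧ Ph z = f₀ (a - ∑ i ∈ (q a).support, l i) +
        ∑ i ∈ (q a).support, f i (l i) := by
    intro a l hl
    have hlK : ∀ i, l i ∈ Ki q i := by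
      intro i j hj
      rw [hl i, DFinsupp.single_apply, dif_neg (Ne.symm hj)]
    refine ⟨(⟨a - ∑ i ∈ (q a).support, l i, sub_sum_mem q hker a l hl⟩,
      ∑ i ∈ (q a).support, DFinsupp.single i (⟨l i, hlK i⟩ : Ki q i)), ?_, ?_⟩
    · rw [Sg_sum]
      exact sub_add_cancel _ _
    · rw [Ph_sum]
  have hsurj : ∀ a, ∃ z, Sg z = a := by
    intro a
    choose l hl using fun i => hq (DFinsupp.single i (q a i))
    obtain ⟨z, hz, -⟩ := hdec a l hl
    exact ⟨z, hz⟩
  choose g hg using hsurj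
  let F : A →+ A' := AddMonoidHom.mk' (fun a => Ph (g a)) fun a b => by
    rw [← map_add]
    apply hwd
    rw [map_add, hg, hg, hg]
  have hF : ∀ z, F (Sg z) = Ph z := by
    intro z
    change Ph (g (Sg z)) = Ph z
    apply hwd
    rw [hg]
  refine ⟨F, ?_, ?_⟩
  · intro h hh
    have h1 := hF (⟨h, hh⟩, 0)
    rw [Sg_apply, Ph_apply, DFinsupp.support_zero, Finset.sum_empty, Finset.sum_empty,
      add_zero, add_zero] at h1
    exact h1
  · intro κ hκ m x hx
    have hlift : ∀ i, ∃ y ∈ pu p A κ m, q y = DFinsupp.single i (q x i) := by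
      intro i
      refine exists_lift_pu q hq (fun y hy => (hker y).1 hy) hκ ?_
      have h1 : q x i ∈ pu p (B i) κ m := mem_pu_dfinsupp.1 (map_pu q hx) i
      exact map_pu (DFinsupp.singleAddHom B i) h1
    choose l hl1 hl2 using hlift
    obtain ⟨z, hz1, hz2⟩ := hdec x l hl2
    have hlK : ∀ i, l i ∈ Ki q i := by
      intro i j hj
      rw [hl2 i, DFinsupp.single_apply, dif_neg (Ne.symm hj)]
    have h1 := hF z
    rw [hz1, hz2] at h1
    rw [h1]
    have h2 := sub_sum_mem q hker x l hl2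
    refine add_mem (hf₀.hc κ hκ m _ h2 (ulm_le_pu hκ m h2)) (sum_mem fun i _ => ?_)
    exact (hf i).hc κ hκ m _ (hlK i) (hl1 i)

theorem ext_all {p : ℕ} [Fact p.Prime] {A : Type u} [AddCommGroup A]
    (hA : ∀ a : A, ∃ k : ℕ, p ^ k • a = 0) {A' : Type v} [AddCommGroup A']
    {κs : Ordinal.{0}} {Q : Ordinal.{0} → ℕ → AddSubgroup A'} (hQ : TQ p κs Q) {I : Type w}
    {B : I → Type u₁} [∀ i, AddCommGroup (B i)] [∀ i, Countable (B i)] (q : A →+ Π₀ i, B i)
    (hq : Function.Surjective q) (hker : ∀ x, q x = 0 ↔ x ∈ ulm p A κs) (f₀ : A → A')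
    (hf₀ : PH p κs Q (ulm p A κs) f₀) :
    ∃ F : A →+ A', (∀ h ∈ ulm p A κs, F h = f₀ h) ∧
      ∀ κ < κs, ∀ m, ∀ x ∈ pu p A κ m, F x ∈ Q κ m := by
  classical
  have hFo : Fo (ulm p A κs) (ulm p A κs) := by
    refine ⟨le_rfl, {0}, ?_, ?_⟩
    · intro s hs
      rw [Finset.mem_singleton.1 hs]
      exact zero_mem _
    · intro k hk
      exact ⟨0, Finset.mem_singleton_self _, by rw [sub_zero]; exact hk⟩
  have hext : ∀ i, ∃ f' : A → A', PH p κs Q (Ki q i) f' ∧ ∀ k ∈ ulm p A κs, f' k = f₀ k := by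
    intro i
    refine extE hA hQ hf₀ hFo ?_ ?_
    · intro x hx j _
      rw [(hker x).2 hx, DFinsupp.zero_apply]
    · obtain ⟨e, he⟩ := exists_surjective_nat (B i)
      choose g hg using fun n => hq (DFinsupp.single i (e n))
      have hgK : ∀ n, g n ∈ Ki q i := by
        intro n j hj
        rw [hg n, DFinsupp.single_apply, dif_neg (Ne.symm hj)]
      refine ⟨g, hgK, ?_⟩
      intro x hx
      obtain ⟨n, hn⟩ := he (q x i)
      refine ⟨n, ?_⟩
      rw [← hker, map_sub]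
      ext j
      rw [DFinsupp.sub_apply, DFinsupp.zero_apply]
      by_cases hij : j = i
      · subst hij
        rw [hg n, DFinsupp.single_eq_same, hn, sub_self]
      · rw [hx j hij, hgK n j hij, sub_self]
  choose f hf hf' using hext
  exact glue q hq hker f hf f₀ hf₀ hf'

end Pool.Agent.Lib_MP_fa2e48_dsc
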