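import Mathlib
import Pool.Agent.Lib_MP_fa2e48_dsc.Ext

/-!
# Combinatorics of the stages
-/

namespace Pool.Agent.Lib_MP_fa2e48_dsc

open Pool.Agent.Lib_MP_fa2e48_al

universe u v w u₁ u₂ u₃

private theorem exists_enum {I : Type u} (A : Set I) :
    ∃ f : I → Ordinal.{u}, Set.InjOn f A ∧ ∀ i ∈ A, f i < (Cardinal.mk A).ord := by
  classical
  obtain ⟨e⟩ : Nonempty (A ≃ (Cardinal.mk A).ord.ToType) := by
    rw [← Cardinal.eq, Cardinal.mk_ord_toType]
  let g : A → Ordinal.{u} := fun i => ((Ordinal.ToType.mk (o := (Cardinal.mk A).ord)).symm (e i)).1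
  have hg : Function.Injective g := by
    intro x y hxy
    exact e.injective ((Ordinal.ToType.mk (o := (Cardinal.mk A).ord)).symm.injective (Subtype.ext hxy))
  refine ⟨fun i => if h : i ∈ A then g ⟨i, h⟩ else 0, ?_, ?_⟩
  · intro x hx y hy hxy
    simp only [dif_pos hx, dif_pos hy] at hxy
    exact congrArg Subtype.val (hg hxy)
  · intro i hi
    simp only [dif_pos hi]
    exact ((Ordinal.ToType.mk (o := (Cardinal.mk A).ord)).symm (e ⟨i, hi⟩)).2

private theorem infinite_diff {I : Type u} (A Used : Set I) (hA : ¬ A.Countable)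
    (h : Cardinal.mk Used < Cardinal.mk A) : (A \ Used).Infinite := by
  intro hfin
  have h1 : Cardinal.mk A ≤ Cardinal.mk (A \ Used : Set I) + Cardinal.mk Used := by
    refine (Cardinal.mk_le_mk_of_subset (t := (A \ Used) ∪ Used) ?_).trans (Cardinal.mk_union_le _ _)
    intro x hx
    by_cases hu : x ∈ Used
    · exact Or.inr hu
    · exact Or.inl ⟨hx, hu⟩
  have hA0 : Cardinal.aleph0 < Cardinal.mk A := by
    rw [← not_le]
    intro hle
    exact hA (Cardinal.le_aleph0_iff_set_countable.1 hle)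
  have h2 : Cardinal.mk (A \ Used : Set I) < Cardinal.mk A :=
    (Cardinal.lt_aleph0_iff_set_finite.2 hfin).trans hA0
  exact absurd h1 (not_le.2 (Cardinal.add_lt_of_lt hA0.le h2 h))

private theorem exists_ctbl_inf {I : Type u} (A : Set I) (hA : A.Infinite) :
    ∃ B : Set I, B ⊆ A ∧ B.Countable ∧ B.Infinite := by
  have := hA.to_subtype
  let f := Infinite.natEmbedding A
  refine ⟨Set.range fun n => (f n : I), ?_, Set.countable_range _, ?_⟩
  · rintro _ ⟨n, rfl⟩
    exact (f n).2
  · exact Set.infinite_range_of_injective (Subtype.val_injective.comp f.injective)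

theorem exists_key {I : Type u} {α : Type v} [Countable α] (J : α → Set I) :
    ∃ key : I → Ordinal.{u}, (∀ ξ, {i | key i = ξ}.Countable) ∧
      ∀ ξ, ∀ Used : Set I, Cardinal.mk Used ≤ max ξ.card Cardinal.aleph0 → (ξ = 0 → Used = ∅) →
        ∃ ρ : Set I, ρ.Countable ∧ Disjoint ρ Used ∧
          ((∀ a, (J a).Nonempty → (ρ ∩ J a).Nonempty) ∨
            (∀ a, ∀ i ∈ J a, key i = ξ → (ρ ∩ J a).Infinite)) := by
  classical
  let J' : Option α → Set I := fun o => o.elim Set.univ J
  choose f hf1 hf2 using fun o => exists_enum (J' o)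
  let S : Set I := ⋃ o ∈ {o : Option α | (J' o).Countable}, J' o
  have hSc : S.Countable := Set.Countable.biUnion (Set.to_countable _) fun o ho => ho
  have hS : ∀ o, ∀ i ∈ J' o, i ∉ S → ¬ (J' o).Countable := by
    intro o i hi hiS hc
    exact hiS (Set.mem_biUnion (show o ∈ {o : Option α | (J' o).Countable} from hc) hi)
  let K : I → Set Ordinal.{u} := fun i => {ξ | ∃ o, i ∈ J' o ∧ ξ = Order.succ (f o i)}
  have hKne : ∀ i, (K i).Nonempty := fun i => ⟨_, none, Set.mem_univ i, rfl⟩
  let key : I → Ordinal.{u} := fun i => if i ∈ S then 0 else sInf (K i)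
  have hkS : ∀ i, i ∈ S → key i = 0 := fun i hi => if_pos hi
  have hkS' : ∀ i, i ∉ S → key i = sInf (K i) := fun i hi => if_neg hi
  have hk0 : ∀ i, key i = 0 → i ∈ S := by
    intro i hi
    by_contra hiS
    rw [hkS' i hiS] at hi
    obtain ⟨o, -, ho⟩ := csInf_mem (hKne i)
    rw [hi] at ho
    exact absurd ho.symm (Order.succ_ne_bot _)
  have hkne : ∀ i, key i ≠ 0 → i ∉ S := fun i hi hiS => hi (hkS i hiS)
  refine ⟨key, fun ξ => ?_, fun ξ Used hU hU0 => ?_⟩
  · by_cases hξ : ξ = 0
    · refine hSc.mono fun i hi => hk0 i ?_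
      rw [← hξ]
      exact hi
    · refine Set.Countable.mono (s₂ := ⋃ o : Option α, {i | i ∈ J' o ∧ Order.succ (f o i) = ξ}) ?_ ?_
      · intro i hi
        have hiS : i ∉ S := hkne i (by rw [show key i = ξ from hi]; exact hξ)
        have h1 : sInf (K i) = ξ := by rw [← hkS' i hiS]; exact hi
        obtain ⟨o, ho1, ho2⟩ := csInf_mem (hKne i)
        refine Set.mem_iUnion.2 ⟨o, ho1, ?_⟩
        rw [← h1]
        exact ho2.symm
      · refine Set.countable_iUnion fun o => Set.Subsingleton.countable ?_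
        rintro x ⟨hx, hx'⟩ y ⟨hy, hy'⟩
        exact hf1 o hx hy (Order.succ_injective (hx'.trans hy'.symm))
  · by_cases hξ : ξ = 0
    · have hT : ∀ a : α, ∃ B : Set I, B.Countable ∧
          (¬ (J a).Countable → B ⊆ J a ∧ B.Infinite) := by
        intro a
        by_cases ha : (J a).Countable
        · exact ⟨∅, Set.countable_empty, fun h => absurd ha h⟩
        · obtain ⟨B, h1, h2, h3⟩ := exists_ctbl_inf (J a) (fun hfin => ha hfin.countable)
          exact ⟨B, h2, fun _ => ⟨h1, h3⟩⟩
      choose B hB1 hB2 using hT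
      refine ⟨S ∪ ⋃ a, B a, hSc.union (Set.countable_iUnion hB1), ?_, Or.inl fun a ha => ?_⟩
      · rw [hU0 hξ]
        exact Set.disjoint_empty _
      · by_cases hc : (J a).Countable
        · obtain ⟨i, hi⟩ := ha
          refine ⟨i, Or.inl (Set.mem_biUnion (show some a ∈ {o : Option α | (J' o).Countable}
            from hc) ?_), hi⟩
          exact hi
        · obtain ⟨h1, h2⟩ := hB2 a hc
          obtain ⟨i, hi⟩ := h2.nonempty
          exact ⟨i, Or.inr (Set.mem_iUnion.2 ⟨a, hi⟩), h1 hi⟩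
    · have hT : ∀ a : α, ∃ B : Set I, B.Countable ∧ Disjoint B Used ∧
          ((∃ i ∈ J a, key i = ξ) → B ⊆ J a ∧ B.Infinite) := by
        intro a
        by_cases ha : ∃ i ∈ J a, key i = ξ
        · obtain ⟨i, hi, hik⟩ := ha
          have hiS : i ∉ S := hkne i (by rw [hik]; exact hξ)
          have hnc : ¬ (J a).Countable := hS (some a) i hi hiS
          have h1 : ξ ≤ Order.succ (f (some a) i) := by
            rw [← hik, hkS' i hiS]
            exact csInf_le' ⟨some a, hi, rfl⟩
          have hA0 : Cardinal.aleph0 < Cardinal.mk (J a) := by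
            rw [← not_le]
            intro hle
            exact hnc (Cardinal.le_aleph0_iff_set_countable.1 hle)
          have h2 : ξ < (Cardinal.mk (J a)).ord :=
            lt_of_le_of_lt h1 ((Cardinal.isSuccLimit_ord hA0.le).succ_lt (hf2 (some a) i hi))
          have h3 : ξ.card < Cardinal.mk (J a) := Cardinal.lt_ord.1 h2
          have h4 : Cardinal.mk Used < Cardinal.mk (J a) := lt_of_le_of_lt hU (max_lt h3 hA0)
          obtain ⟨B, b1, b2, b3⟩ := exists_ctbl_inf _ (infinite_diff (J a) Used hnc h4)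
          refine ⟨B, b2, ?_, fun _ => ⟨b1.trans Set.sdiff_subset, b3⟩⟩
          exact Set.disjoint_left.2 fun x hx => (b1 hx).2
        · exact ⟨∅, Set.countable_empty, Set.empty_disjoint _, fun h => absurd h ha⟩
      choose B hB1 hB2 hB3 using hT
      refine ⟨⋃ a, B a, Set.countable_iUnion hB1, Set.disjoint_iUnion_left.2 hB2,
        Or.inr fun a i hi hik => ?_⟩
      obtain ⟨h1, h2⟩ := hB3 a ⟨i, hi, hik⟩
      exact h2.mono fun x hx => ⟨Set.mem_iUnion.2 ⟨a, hx⟩, h1 hx⟩

end Pool.Agent.Lib_MP_fa2e48_dsc
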