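import Mathlib
import Pool.Agent.Lib_MP_fa2e48_dsc.E3

/-!
# The back-and-forth construction
-/

namespace Pool.Agent.Lib_MP_fa2e48_dsc

open Pool.Agent.Lib_MP_fa2e48_al

universe u v w u₁ u₂ u₃

section PHlemmas

variable {p : ℕ} {κs : Ordinal.{0}} {G : Type u} [AddCommGroup G] {A' : Type v} [AddCommGroup A']
  {Q : Ordinal.{0} → ℕ → AddSubgroup A'} {K : AddSubgroup G} {f : G → A'}

/-- The homomorphism on `K`. -/
def PH.hom (hf : PH p κs Q K f) : K →+ A' :=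
  AddMonoidHom.mk' (fun k => f k) fun x y => hf.add x x.2 y y.2

theorem PH.map_nsmul' (hf : PH p κs Q K f) {x : G} (hx : x ∈ K) (n : ℕ) :
    f (n • x) = n • f x := by
  have := map_nsmul hf.hom n ⟨x, hx⟩
  exact this

theorem PH.map_zsmul' (hf : PH p κs Q K f) {x : G} (hx : x ∈ K) (n : ℤ) :
    f (n • x) = n • f x := by
  have := map_zsmul hf.hom n ⟨x, hx⟩
  exact this

theorem PH.map_zero' (hf : PH p κs Q K f) : f 0 = 0 := map_zero hf.hom

end PHlemmas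

theorem tq_pu (p : ℕ) (κs : Ordinal.{0}) (A : Type u) [AddCommGroup A] : TQ p κs (pu p A) where
  anti := fun h => pu_anti h
  lt := fun h _ m n => pu_le_pu h m n
  mul := fun h => pu_smul h _
  div := fun h => pu_div h

theorem unit_inv {p : ℕ} (hp : p.Prime) {a : ℤ} (ha : ¬ (p : ℤ) ∣ a) (L : ℕ) :
    ∃ e : ℤ, ((p ^ L : ℕ) : ℤ) ∣ e * a - 1 := by
  have h1 : IsCoprime a (p : ℤ) := by
    have := (Nat.prime_iff_prime_int.1 hp)
    exact ((Prime.coprime_iff_not_dvd this).2 ha).symm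
  have h2 : IsCoprime a ((p : ℤ) ^ L) := h1.pow_right
  obtain ⟨u, v, huv⟩ := h2
  refine ⟨u, -v, ?_⟩
  push_cast
  linear_combination huv

/-- The invariant of the finite subgroups `K` of the source. -/
def WInv (p : ℕ) (κs : Ordinal.{0}) {G : Type u} [AddCommGroup G] (K : AddSubgroup G) : Prop :=
  ∀ κ < κs, ∀ m : ℕ, ∀ g ∈ K, g ∈ pu p G κ m → ∃ k₁ ∈ K, k₁ ∈ ulm p G κ ∧
    ∃ k₂ ∈ K, k₂ ∈ ulm p G (Order.succ κ) ∧ g = p ^ m • k₁ + k₂

theorem winv_sup {p : ℕ} [hp : Fact p.Prime] {κs : Ordinal.{0}} {G : Type u} [AddCommGroup G]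
    (hG : ∀ g : G, ∃ k : ℕ, p ^ k • g = 0) {K : AddSubgroup G} (hK : WInv p κs K) {x : G}
    {κ : Ordinal.{0}} {j : ℕ} (hx : x ∈ ulm p G κ) (hxK : p ^ (j + 1) • x ∈ K)
    (hprop : ∀ k ∈ K, p ^ j • x + k ∉ pu p G κ (j + 1)) :
    WInv p κs (K ⊔ AddSubgroup.zmultiples x) := by
  have hle : K ≤ K ⊔ AddSubgroup.zmultiples x := le_sup_left
  have hxmem : x ∈ K ⊔ AddSubgroup.zmultiples x :=
    (le_sup_right : AddSubgroup.zmultiples x ≤ _) (AddSubgroup.mem_zmultiples x)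
  intro κ' hκ' m g hg hgp
  obtain ⟨k, hk, y, hy, rfl⟩ := AddSubgroup.mem_sup.1 hg
  obtain ⟨a, rfl⟩ := AddSubgroup.mem_zmultiples_iff.1 hy
  by_cases hax : a • x ∈ K
  · obtain ⟨k₁, h1, h2, k₂, h3, h4, h5⟩ := hK κ' hκ' m _ (add_mem hk hax) hgp
    exact ⟨k₁, hle h1, h2, k₂, hle h3, h4, h5⟩
  -- `a = p ^ s * a'`
  have ha0 : a ≠ 0 := by
    rintro rfl
    exact hax (by rw [zero_smul]; exact zero_mem _)
  obtain ⟨s, a', ha', rfl⟩ : ∃ (s : ℕ) (a' : ℤ), ¬ (p : ℤ) ∣ a' ∧ a = (p : ℤ) ^ s * a' := by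
    have hfin : FiniteMultiplicity (p : ℤ) a :=
      Int.finiteMultiplicity_iff.2 ⟨by simpa using hp.out.ne_one, ha0⟩
    obtain ⟨a', h1, h2⟩ := hfin.exists_eq_pow_mul_and_not_dvd
    exact ⟨_, a', h2, h1⟩
  have hs : s ≤ j := by
    by_contra hc
    apply hax
    have : ((p : ℤ) ^ s * a') • x = (((p : ℤ) ^ (s - (j + 1))) * a') • (p ^ (j + 1) • x) := by
      rw [← natCast_zsmul, smul_smul]
      congr 1
      push_cast
      have : (p : ℤ) ^ s = (p : ℤ) ^ (s - (j + 1)) * (p : ℤ) ^ (j + 1) := by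
        rw [← pow_add, Nat.sub_add_cancel (by omega)]
      rw [this]; ring
    rw [this]
    exact K.zsmul_mem hxK _
  obtain ⟨L, hL⟩ := hG x
  obtain ⟨e, he⟩ := unit_inv hp.out ha' L
  have h1 : e • p ^ (j - s) • (k + ((p : ℤ) ^ s * a') • x) =
      p ^ j • x + (e * (p ^ (j - s) : ℕ)) • k := by
    obtain ⟨c, hc⟩ := he
    have h2 : e • p ^ (j - s) • ((p : ℤ) ^ s * a') • x = p ^ j • x := by
      rw [← natCast_zsmul _ (p ^ (j - s)), ← natCast_zsmul x (p ^ j), smul_smul, smul_smul]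
      have h3 : e * ((((p ^ (j - s) : ℕ) : ℤ)) * ((p : ℤ) ^ s * a')) =
          ((p ^ j : ℕ) : ℤ) + ((p ^ j : ℕ) : ℤ) * c * ((p ^ L : ℕ) : ℤ) := by
        have h4 : ((p ^ (j - s) : ℕ) : ℤ) * (p : ℤ) ^ s = ((p ^ j : ℕ) : ℤ) := by
          push_cast
          rw [← pow_add, Nat.sub_add_cancel hs]
        have h5 : e * a' = 1 + ((p ^ L : ℕ) : ℤ) * c := by linarith
        calc e * ((((p ^ (j - s) : ℕ) : ℤ)) * ((p : ℤ) ^ s * a'))
            = (((p ^ (j - s) : ℕ) : ℤ) * (p : ℤ) ^ s) * (e * a') := by ring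
          _ = _ := by rw [h4, h5]; ring
      rw [mul_assoc, h3, add_smul, mul_smul, natCast_zsmul x (p ^ L), hL, smul_zero, add_zero]
    rw [smul_add, smul_add, h2, add_comm, ← natCast_zsmul k (p ^ (j - s)), smul_smul]
  have h2 : p ^ j • x + (e * (p ^ (j - s) : ℕ)) • k ∈ pu p G κ' (m + (j - s)) := by
    rw [← h1]
    exact AddSubgroup.zsmul_mem _ (pu_smul hgp _) _
  have h3 := hprop _ (K.zsmul_mem hk (e * (p ^ (j - s) : ℕ)))
  rcases lt_trichotomy κ' κ with hlt | rfl | hgt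
  · have hx' : x ∈ ulm p G (Order.succ κ') := ulm_anti (Order.succ_le_of_lt hlt) hx
    have hax' : ((p : ℤ) ^ s * a') • x ∈ ulm p G (Order.succ κ') := AddSubgroup.zsmul_mem _ hx' _
    have hkp : k ∈ pu p G κ' m := by
      have := sub_mem hgp (ulm_le_pu (Order.lt_succ κ') m hax')
      rwa [add_sub_cancel_right] at this
    obtain ⟨k₁, g1, g2, k₂, g3, g4, g5⟩ := hK κ' hκ' m k hk hkp
    refine ⟨k₁, hle g1, g2, k₂ + ((p : ℤ) ^ s * a') • x,
      add_mem (hle g3) (AddSubgroup.zsmul_mem _ hxmem _), add_mem g4 hax', ?_⟩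
    rw [g5]; abel
  · have hm : m ≤ s := by
      by_contra hc
      exact h3 (pu_anti (by omega) h2)
    have hax' : ((p : ℤ) ^ s * a') • x = p ^ m • (((p : ℤ) ^ (s - m) * a') • x) := by
      rw [← natCast_zsmul, smul_smul]
      congr 1
      have : (p : ℤ) ^ s = (p : ℤ) ^ m * (p : ℤ) ^ (s - m) := by
        rw [← pow_add, Nat.add_sub_cancel' hm]
      rw [this]; push_cast; ring
    have hax2 : ((p : ℤ) ^ (s - m) * a') • x ∈ ulm p G κ' := AddSubgroup.zsmul_mem _ hx _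
    have hkp : k ∈ pu p G κ' m := by
      have := sub_mem hgp (mem_pu.2 ⟨_, hax2, hax'.symm⟩ : ((p : ℤ) ^ s * a') • x ∈ pu p G κ' m)
      rwa [add_sub_cancel_right] at this
    obtain ⟨k₁, g1, g2, k₂, g3, g4, g5⟩ := hK κ' hκ' m k hk hkp
    refine ⟨k₁ + ((p : ℤ) ^ (s - m) * a') • x, add_mem (hle g1) (AddSubgroup.zsmul_mem _ hxmem _),
      add_mem g2 hax2, k₂, hle g3, g4, ?_⟩
    rw [g5, smul_add, hax']; abel
  · exact absurd (pu_le_pu hgt _ _ h2) h3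

/-- The situation of the back-and-forth construction. -/
structure Sit (p : ℕ) (κs : Ordinal.{0}) (A : Type u) [AddCommGroup A] (D : Type w)
    [AddCommGroup D] (G : Type u₁) [AddCommGroup G] where
  hlim : Order.IsSuccLimit κs
  hD : ∀ d : D, ∃ k : ℕ, p ^ k • d = 0
  hD0 : ulm p D κs = ⊥
  hG : ∀ g : G, ∃ k : ℕ, p ^ k • g = 0
  hG0 : ulm p G κs = ⊥
  π : A →+ D
  U : G →+ A
  hU : ∀ κ < κs, ∀ g ∈ ulm p G κ, U g ∈ ulm p A (Order.succ κ)
  r₀ : A →+ A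
  hker : ∀ a ∈ ulm p A κs, π a = 0
  room : ∀ κ < κs, ∀ j : ℕ, (∃ u : G, p • u = 0 ∧ u ∈ pu p G κ j ∧ u ∉ pu p G κ (j + 1)) →
      ∀ T : AddSubgroup D, (T : Set D).Finite → ∃ b ≥ j, ∃ a₀ ∈ ulm p A κ,
        p ^ (b + 1) • a₀ ∈ ulm p A κs ∧ ∀ t ∈ T, p ^ b • π a₀ + t ∉ pu p D κ (b + 1)

/-- States. -/
structure St {p : ℕ} {κs : Ordinal.{0}} {A : Type u} [AddCommGroup A] {D : Type w}
    [AddCommGroup D] {G : Type u₁} [AddCommGroup G] (S : Sit p κs A D G) where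
  K : AddSubgroup G
  T : AddSubgroup D
  V : G → A
  r : D → A
  foK : Fo (ulm p G κs) K
  foT : Fo (ulm p D κs) T
  phV : PH p κs (pu p A) K V
  phr : PH p κs (pu p A) T r
  mem : ∀ k ∈ K, S.π (V k) ∈ T
  eq : ∀ k ∈ K, S.r₀ (V k) + r (S.π (V k)) = S.U k
  win : WInv p κs K

section Steps

variable {p : ℕ} [hp : Fact p.Prime] {κs : Ordinal.{0}} {A : Type u} [AddCommGroup A]
  {D : Type w} [AddCommGroup D] {G : Type u₁} [AddCommGroup G] {S : Sit p κs A D G}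

/-- `t` extends `s`. -/
def St.le (s t : St S) : Prop :=
  s.K ≤ t.K ∧ s.T ≤ t.T ∧ (∀ k ∈ s.K, t.V k = s.V k) ∧ ∀ d ∈ s.T, t.r d = s.r d

omit hp in
theorem St.le_refl (s : St S) : s.le s := ⟨_root_.le_refl _, _root_.le_refl _, fun _ _ => rfl, fun _ _ => rfl⟩

omit hp in
theorem St.le_trans {s t u : St S} (h : s.le t) (h' : t.le u) : s.le u :=
  ⟨h.1.trans h'.1, h.2.1.trans h'.2.1, fun k hk => (h'.2.2.1 k (h.1 hk)).trans (h.2.2.1 k hk),
    fun d hd => (h'.2.2.2 d (h.2.1 hd)).trans (h.2.2.2 d hd)⟩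

/-- One more element of `D`. -/
theorem St.stepD (s : St S) (d : D) : ∃ t : St S, s.le t ∧ d ∈ t.T := by
  obtain ⟨T', r', h1, h2, -, h4, h5, h6⟩ :=
    ext_one S.hD (tq_pu p κs A) s.phr s.foT d
  exact ⟨⟨s.K, T', s.V, r', s.foK, h4, s.phV, h5, fun k hk => h1 (s.mem k hk),
    fun k hk => by rw [h6 _ (s.mem k hk)]; exact s.eq k hk, s.win⟩,
    ⟨_root_.le_refl _, h1, fun _ _ => rfl, h6⟩, h2⟩

omit hp in
theorem finite_of_fo {X : Type*} [AddCommGroup X] {N K : AddSubgroup X} (hN : N = ⊥)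
    (hK : Fo N K) : (K : Set X).Finite := by
  obtain ⟨-, S, -, hS⟩ := hK
  refine S.finite_toSet.subset fun k hk => ?_
  obtain ⟨s, hs, hks⟩ := hS k hk
  rw [hN, AddSubgroup.mem_bot, sub_eq_zero] at hks
  rw [hks]
  exact hs

/-- The main step. -/
theorem St.stepG (s : St S) {z₀ : G} (hz₀ : z₀ ∉ s.K) (hpz₀ : p • z₀ ∈ s.K) :
    ∃ t : St S, s.le t ∧ z₀ ∈ t.K := by
  obtain ⟨κ, hκ, j, s₀, hs₀, hz1, hz2⟩ := exists_proper s.foK hz₀
  -- the proper element `z`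
  obtain ⟨z, hz⟩ : ∃ z, z = z₀ + s₀ := ⟨_, rfl⟩
  rw [← hz] at hz1
  have hprop : ∀ k ∈ s.K, z + k ∉ pu p G κ (j + 1) := by
    intro k hk
    rw [hz, add_assoc]
    exact hz2 _ (add_mem hs₀ hk)
  have hpz : p • z ∈ s.K := by
    rw [hz, smul_add]
    exact add_mem hpz₀ (s.K.nsmul_mem hs₀ _)
  obtain ⟨x, hx, hxz⟩ := mem_pu.1 hz1
  have hpzpu : p • z ∈ pu p G κ (j + 1) := by
    have := pu_smul hz1 1
    rwa [pow_one] at this
  obtain ⟨k₁, hk1, hk1', k₂, hk2, hk2', hpz12⟩ := s.win κ hκ (j + 1) _ hpz hpzpu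
  have hxM : p ^ (j + 1) • x = p • z := by
    rw [pow_succ', mul_smul, hxz]
  -- the socle element of exact height `(κ, j)`
  have hsocle : ∃ u : G, p • u = 0 ∧ u ∈ pu p G κ j ∧ u ∉ pu p G κ (j + 1) := by
    obtain ⟨y, hy, hyk⟩ := mem_ulm_succ.1 hk2' (j + 2)
    have hy' : p ^ (j + 1) • y ∈ pu p G κ (j + 1) := mem_pu.2 ⟨y, hy, rfl⟩
    refine ⟨z - p ^ j • k₁ - p ^ (j + 1) • y, ?_, ?_, ?_⟩
    · rw [smul_sub, smul_sub, smul_smul, smul_smul, ← pow_succ', ← pow_succ', hpz12, hyk]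
      abel
    · exact sub_mem (sub_mem hz1 (mem_pu.2 ⟨k₁, hk1', rfl⟩)) (pu_anti (Nat.le_succ j) hy')
    · intro hc
      apply hprop (-(p ^ j • k₁)) (neg_mem (s.K.nsmul_mem hk1 _))
      have := add_mem hc hy'
      rwa [sub_add_cancel, sub_eq_add_neg] at this
  obtain ⟨b, hb, a₀, ha₀, ha₀H, hroom⟩ :=
    S.room κ hκ j hsocle s.T (finite_of_fo S.hD0 s.foT)
  -- the elements `v`, `d`, `y₂`
  have hvH : p ^ (j + 1) • p ^ (b - j) • a₀ ∈ ulm p A κs := by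
    rw [smul_smul, ← pow_add, show j + 1 + (b - j) = b + 1 by omega]
    exact ha₀H
  obtain ⟨d₁, hd₁, hd₁v⟩ := mem_pu.1 (ulm_le_pu hκ (b + 1 + (j + 1)) hvH)
  have hVk2 : s.V k₂ ∈ ulm p A (Order.succ κ) := by
    have := s.phV.hc (Order.succ κ) (S.hlim.succ_lt hκ) 0 k₂ hk2 (by rwa [pu_zero])
    rwa [pu_zero] at this
  obtain ⟨y₅, hy₅, hy₅V⟩ := mem_ulm_succ.1 hVk2 (b + 1 + (j + 1))
  have hVk1 : s.V k₁ ∈ ulm p A κ := by
    have := s.phV.hc κ hκ 0 k₁ hk1 (by rwa [pu_zero])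
    rwa [pu_zero] at this
  -- `e = y₂ + (v - d)`
  obtain ⟨e, he⟩ : ∃ e, e = p ^ (b - j) • a₀ + p ^ (b + 1) • (y₅ - d₁) := ⟨_, rfl⟩
  have heM : p ^ (j + 1) • e = s.V k₂ := by
    have h1 : p ^ (j + 1) • p ^ (b + 1) • (y₅ - d₁) = s.V k₂ - p ^ (j + 1) • p ^ (b - j) • a₀ := by
      rw [smul_smul, ← pow_add, show j + 1 + (b + 1) = b + 1 + (j + 1) by omega, smul_sub, hy₅V,
        hd₁v]
    rw [he, smul_add, h1]
    abel
  have hep : e ∈ pu p A κ (b - j) := by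
    rw [he]
    exact add_mem (mem_pu.2 ⟨a₀, ha₀, rfl⟩)
      (pu_anti (by omega) (mem_pu.2 ⟨_, sub_mem hy₅ hd₁, rfl⟩ : _ ∈ pu p A κ (b + 1)))
  -- extension of `r`
  obtain ⟨ρ, hρ⟩ : ∃ ρ, ρ = S.U (x - k₁) - S.r₀ e := ⟨_, rfl⟩
  have hρp : ρ ∈ pu p A κ (b - j) := by
    rw [hρ]
    exact sub_mem (ulm_le_pu (Order.lt_succ κ) _ (S.hU κ hκ _ (sub_mem hx hk1')))
      (map_pu S.r₀ hep)
  have hMe : p ^ (j + 1) • S.π e = S.π (s.V k₂) := by rw [← map_nsmul, heM]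
  have hρM : p ^ (j + 1) • ρ = s.r (p ^ (j + 1) • S.π e) := by
    rw [hρ, smul_sub, ← map_nsmul, ← map_nsmul, heM, hMe, smul_sub, hxM, hpz12,
      add_sub_cancel_left, ← s.eq k₂ hk2]
    abel
  obtain ⟨r', hr1, hr2, hr3⟩ := ext_cyclic S.hD (tq_pu p κs A) s.phr (x := S.π e) (M := j + 1)
    (Nat.le_add_left 1 j) hκ (m₀ := b - j) (map_pu S.π hep)
    (by rw [hMe]; exact s.mem k₂ hk2)
    (by
      intro t ht hc
      rw [show b - j + (j + 1) = b + 1 by omega, Nat.add_sub_cancel] at hc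
      apply hroom t ht
      have h1 : p ^ j • S.π (p ^ (b + 1) • (y₅ - d₁)) ∈ pu p D κ (b + 1) :=
        AddSubgroup.nsmul_mem _ (map_pu S.π (mem_pu.2 ⟨_, sub_mem hy₅ hd₁, rfl⟩)) _
      have h2 := sub_mem hc h1
      have h3 : p ^ j • S.π e + t - p ^ j • S.π (p ^ (b + 1) • (y₅ - d₁)) =
          p ^ b • S.π a₀ + t := by
        rw [he, map_add, smul_add, map_nsmul S.π (p ^ (b - j)) a₀, smul_smul, ← pow_add,
          Nat.add_sub_cancel' hb]
        abel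
      rwa [h3] at h2) hρp hρM
  -- extension of `V`
  obtain ⟨V', hV1, hV2, hV3⟩ := ext_cyclic S.hG (tq_pu p κs A) s.phV (x := x) (M := j + 1)
    (Nat.le_add_left 1 j) hκ (m₀ := 0) (by rwa [pu_zero]) (by rwa [hxM])
    (by
      intro k hk
      rw [Nat.add_sub_cancel, hxz, Nat.zero_add]
      exact hprop k hk) (y := s.V k₁ + e)
    (by
      rw [pu_zero]
      exact add_mem hVk1 (pu_le_ulm hep))
    (by
      rw [hxM, hpz12, s.phV.add _ (s.K.nsmul_mem hk1 _) _ hk2, s.phV.map_nsmul' hk1, smul_add,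
        heM])
  have hxmem : x ∈ s.K ⊔ AddSubgroup.zmultiples x :=
    (le_sup_right : AddSubgroup.zmultiples x ≤ _) (AddSubgroup.mem_zmultiples x)
  have hemem : S.π e ∈ s.T ⊔ AddSubgroup.zmultiples (S.π e) :=
    (le_sup_right : AddSubgroup.zmultiples (S.π e) ≤ _) (AddSubgroup.mem_zmultiples _)
  have hleK : s.K ≤ s.K ⊔ AddSubgroup.zmultiples x := le_sup_left
  have hleT : s.T ≤ s.T ⊔ AddSubgroup.zmultiples (S.π e) := le_sup_left
  have hyT : S.π (s.V k₁ + e) ∈ s.T ⊔ AddSubgroup.zmultiples (S.π e) := by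
    rw [map_add]
    exact add_mem (hleT (s.mem k₁ hk1)) hemem
  have hV' : ∀ k ∈ s.K, ∀ a : ℤ, V' (k + a • x) = s.V k + a • (s.V k₁ + e) := by
    intro k hk a
    rw [hV1.add _ (hleK hk) _ (AddSubgroup.zsmul_mem _ hxmem _), hV2 k hk,
      hV1.map_zsmul' hxmem, hV3]
  refine ⟨⟨s.K ⊔ AddSubgroup.zmultiples x, s.T ⊔ AddSubgroup.zmultiples (S.π e), V', r',
    fo_sup (p := p) (M := j + 1) s.foK (by rwa [hxM]),
    fo_sup (p := p) (M := j + 1) s.foT (by rw [hMe]; exact s.mem k₂ hk2), hV1, hr1, ?_, ?_,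
    winv_sup S.hG s.win hx (by rwa [hxM]) (by rw [hxz]; exact hprop)⟩,
    ⟨hleK, hleT, hV2, hr2⟩, ?_⟩
  · intro g hg
    obtain ⟨k, hk, y, hy, rfl⟩ := AddSubgroup.mem_sup.1 hg
    obtain ⟨a, rfl⟩ := AddSubgroup.mem_zmultiples_iff.1 hy
    rw [hV' k hk, map_add, map_zsmul]
    exact add_mem (hleT (s.mem k hk)) (AddSubgroup.zsmul_mem _ hyT _)
  · intro g hg
    obtain ⟨k, hk, y, hy, rfl⟩ := AddSubgroup.mem_sup.1 hg
    obtain ⟨a, rfl⟩ := AddSubgroup.mem_zmultiples_iff.1 hy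
    have h1 : r' (S.π (s.V k₁ + e)) = s.r (S.π (s.V k₁)) + ρ := by
      rw [map_add, hr1.add _ (hleT (s.mem k₁ hk1)) _ hemem, hr3, hr2 _ (s.mem k₁ hk1)]
    have h2 : r' (S.π (V' (k + a • x))) =
        s.r (S.π (s.V k)) + a • (s.r (S.π (s.V k₁)) + ρ) := by
      rw [hV' k hk, map_add, map_zsmul,
        hr1.add _ (hleT (s.mem k hk)) _ (AddSubgroup.zsmul_mem _ hyT _), hr2 _ (s.mem k hk),
        hr1.map_zsmul' hyT, h1]
    have h3 : S.r₀ (s.V k₁ + e) + (s.r (S.π (s.V k₁)) + ρ) = S.U x := by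
      have h4 := s.eq k₁ hk1
      rw [map_add, hρ, map_sub, ← h4]
      abel
    rw [h2, hV' k hk, map_add, map_zsmul, map_add S.U, map_zsmul S.U, ← h3, ← s.eq k hk]
    simp only [smul_add]
    abel
  · have h1 : z ∈ s.K ⊔ AddSubgroup.zmultiples x := by
      rw [← hxz]
      exact AddSubgroup.nsmul_mem _ hxmem _
    have h2 := sub_mem h1 (hleK hs₀)
    rwa [hz, add_sub_cancel_right] at h2

/-- One more element of `G`. -/
theorem St.stepG' (s : St S) (g : G) : ∃ t : St S, s.le t ∧ g ∈ t.K := by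
  obtain ⟨n, hn⟩ := S.hG g
  have key : ∀ n : ℕ, ∀ s : St S, p ^ n • g ∈ s.K → ∃ t : St S, s.le t ∧ g ∈ t.K := by
    intro n
    induction n with
    | zero =>
      intro s hs
      rw [pow_zero, one_smul] at hs
      exact ⟨s, s.le_refl, hs⟩
    | succ n ih =>
      intro s hs
      by_cases h : p ^ n • g ∈ s.K
      · exact ih s h
      · obtain ⟨t, ht, hgt⟩ := s.stepG h (by rwa [smul_smul, ← pow_succ'])
        obtain ⟨u, hu, hgu⟩ := ih t hgt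
        exact ⟨u, St.le_trans ht hu, hgu⟩
  exact key n s (by rw [hn]; exact zero_mem _)

theorem St.step (s : St S) (g : G) (d : D) : ∃ t : St S, s.le t ∧ g ∈ t.K ∧ d ∈ t.T := by
  obtain ⟨t, ht, hg⟩ := s.stepG' g
  obtain ⟨u, hu, hd⟩ := t.stepD d
  exact ⟨u, St.le_trans ht hu, hu.1 hg, hd⟩

omit hp in
/-- The initial state. -/
theorem St.nonempty (S : Sit p κs A D G) : Nonempty (St S) := by
  refine ⟨⟨⊥, ⊥, 0, 0, ⟨by rw [S.hG0], {0}, ?_, ?_⟩, ⟨by rw [S.hD0], {0}, ?_, ?_⟩,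
    ⟨?_, ?_⟩, ⟨?_, ?_⟩, ?_, ?_, ?_⟩⟩
  · intro s hs
    rw [Finset.mem_singleton.1 hs]; exact zero_mem _
  · intro k hk
    refine ⟨0, Finset.mem_singleton_self _, ?_⟩
    rw [AddSubgroup.mem_bot.1 hk, sub_zero]; exact zero_mem _
  · intro s hs
    rw [Finset.mem_singleton.1 hs]; exact zero_mem _
  · intro k hk
    refine ⟨0, Finset.mem_singleton_self _, ?_⟩
    rw [AddSubgroup.mem_bot.1 hk, sub_zero]; exact zero_mem _
  · intro x _ y _
    exact (add_zero _).symm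
  · intro κ _ m x _ _
    exact zero_mem _
  · intro x _ y _
    exact (add_zero _).symm
  · intro κ _ m x _ _
    exact zero_mem _
  · intro k _
    show S.π 0 ∈ _
    rw [map_zero]; exact zero_mem _
  · intro k hk
    rw [AddSubgroup.mem_bot.1 hk, map_zero]
    show S.r₀ 0 + 0 = 0
    rw [map_zero, add_zero]
  · intro κ _ m g hg _
    exact ⟨0, zero_mem _, zero_mem _, 0, zero_mem _, zero_mem _, by
      rw [AddSubgroup.mem_bot.1 hg, smul_zero, add_zero]⟩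

theorem Sit.exists_factor [Countable G] [Countable D] (S : Sit p κs A D G) :
    ∃ (V : G →+ A) (r' : D →+ A), ∀ g, S.r₀ (V g) + r' (S.π (V g)) = S.U g := by
  obtain ⟨gs, hgs⟩ := exists_surjective_nat G
  obtain ⟨ds, hds⟩ := exists_surjective_nat D
  obtain ⟨s₀⟩ := St.nonempty S
  choose nxt h1 h2 h3 using fun (s : St S) (n : ℕ) => s.step (gs n) (ds n)
  let seq : ℕ → St S := fun n => Nat.rec s₀ (fun n s => nxt s n) n
  have hle : ∀ n, (seq n).le (seq (n + 1)) := fun n => h1 _ _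
  have hgs' : ∀ n, gs n ∈ (seq (n + 1)).K := fun n => h2 _ _
  have hds' : ∀ n, ds n ∈ (seq (n + 1)).T := fun n => h3 _ _
  obtain ⟨V, hV1, hV2⟩ := chain (fun n => (seq n).K) (fun n => (seq n).V) (fun n => (hle n).1)
    (fun n => (seq n).phV) (fun n => (hle n).2.2.1)
  obtain ⟨r, hr1, hr2⟩ := chain (fun n => (seq n).T) (fun n => (seq n).r) (fun n => (hle n).2.1)
    (fun n => (seq n).phr) (fun n => (hle n).2.2.2)
  have hV := hV2 ⊤ (fun x _ => by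
    obtain ⟨n, rfl⟩ := hgs x
    exact ⟨n + 1, hgs' n⟩)
  have hr := hr2 ⊤ (fun x _ => by
    obtain ⟨n, rfl⟩ := hds x
    exact ⟨n + 1, hds' n⟩)
  refine ⟨AddMonoidHom.mk' V fun x y => hV.add x trivial y trivial,
    AddMonoidHom.mk' r fun x y => hr.add x trivial y trivial, fun g => ?_⟩
  obtain ⟨n, rfl⟩ := hgs g
  show S.r₀ (V (gs n)) + r (S.π (V (gs n))) = S.U (gs n)
  rw [hV1 (n + 1) _ (hgs' n), hr1 (n + 1) _ ((seq (n + 1)).mem _ (hgs' n)),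
    (seq (n + 1)).eq _ (hgs' n)]

end Steps

theorem tlem {p : ℕ} [Fact p.Prime] {κs : Ordinal.{0}} (hlim : Order.IsSuccLimit κs)
    {A : Type u} [AddCommGroup A] (hA : ∀ a : A, ∃ k : ℕ, p ^ k • a = 0)
    {C : Type v} [AddCommGroup C] (q : A →+ C) (hq : Function.Surjective q)
    (hker : ∀ x, q x = 0 ↔ x ∈ ulm p A κs)
    {D : Type w} [AddCommGroup D] [Countable D] (ι : D →+ C) (π₀ : C →+ D)
    (hπ : ∀ d, π₀ (ι d) = d)
    {G : Type u₁} [AddCommGroup G] [Countable G] (hG : ∀ g : G, ∃ k : ℕ, p ^ k • g = 0)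
    (hG0 : ulm p G κs = ⊥) (U : G →+ A)
    (hU : ∀ κ < κs, ∀ g ∈ ulm p G κ, U g ∈ ulm p A (Order.succ κ)) (r₀ : A →+ A)
    (room : ∀ κ < κs, ∀ j : ℕ, (∃ u : G, p • u = 0 ∧ u ∈ pu p G κ j ∧ u ∉ pu p G κ (j + 1)) →
      ∀ T : AddSubgroup D, (T : Set D).Finite → ∃ b ≥ j, ∃ w : D, p • w = 0 ∧ w ∈ pu p D κ b ∧
        ∀ t ∈ T, w + t ∉ pu p D κ (b + 1)) :
    ∃ (V : G →+ A) (r' : D →+ A), ∀ g, r₀ (V g) + r' (π₀ (q (V g))) = U g := by
  have hquot := mem_ulm_quot q hq (κ := κs) (fun x hx => (hker x).1 hx)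
  let S : Sit p κs A D G :=
    { hlim := hlim
      hD := by
        intro d
        obtain ⟨a, ha⟩ := hq (ι d)
        obtain ⟨k, hk⟩ := hA a
        refine ⟨k, ?_⟩
        rw [← hπ d, ← ha, ← map_nsmul, ← map_nsmul, hk, map_zero, map_zero]
      hD0 := by
        rw [AddSubgroup.eq_bot_iff_forall]
        intro d hd
        obtain ⟨a, ha⟩ := hq (ι d)
        have h1 : q a ∈ ulm p C κs := by rw [ha]; exact map_ulm ι κs d hd
        rw [hquot κs le_rfl, ← hker] at h1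
        rw [← hπ d, ← ha, h1, map_zero]
      hG := hG
      hG0 := hG0
      π := π₀.comp q
      U := U
      hU := hU
      r₀ := r₀
      hker := by
        intro a ha
        show π₀ (q a) = 0
        rw [(hker a).2 ha, map_zero]
      room := by
        intro κ hκ j hj T hT
        obtain ⟨b, hb, w, hw, hwb, hwT⟩ := room κ hκ j hj T hT
        obtain ⟨d₀, hd₀, hdw⟩ := mem_pu.1 hwb
        obtain ⟨a₀, ha₀⟩ := hq (ι d₀)
        refine ⟨b, hb, a₀, ?_, ?_, ?_⟩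
        · rw [← hquot κ hκ.le, ha₀]
          exact map_ulm ι κ d₀ hd₀
        · rw [← hker, map_nsmul, ha₀, ← map_nsmul, pow_succ', mul_smul, hdw, hw, map_zero]
        · intro t ht
          show p ^ b • π₀ (q a₀) + t ∉ _
          rw [ha₀, hπ, hdw]
          exact hwT t ht }
  exact S.exists_factor

end Pool.Agent.Lib_MP_fa2e48_dsc
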