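import Mathlib
import Pool.Agent.Lib_MP_fa2e48_dsc.TT
import Pool.Agent.Lib_MP_fa2e48_dsc.D0

/-!
# One stage
-/

namespace Pool.Agent.Lib_MP_fa2e48_dsc

open Pool.Agent.Lib_MP_fa2e48_al

universe u v w u₁ u₂ u₃

open Classical in
private theorem st_sub_pos {I : Type v} {B : I → Type w} [∀ i, AddCommGroup (B i)] (ρ : Set I)
    {i : I} (hi : i ∈ ρ) (b : B i) :
    DFinsupp.subtypeDomainAddMonoidHom B (· ∈ ρ) (DFinsupp.single i b) =
      DFinsupp.single (β := fun i : {x // x ∈ ρ} => B i) ⟨i, hi⟩ b := by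
  ext j
  change DFinsupp.single i b (j : I) = _
  by_cases h : j = ⟨i, hi⟩
  · subst h
    rw [DFinsupp.single_eq_same, DFinsupp.single_eq_same]
  · have h1 : (j : I) ≠ i := fun h' => h (Subtype.ext h')
    rw [DFinsupp.single_eq_of_ne h1, DFinsupp.single_eq_of_ne h]

open Classical in
private theorem st_sub_neg {I : Type v} {B : I → Type w} [∀ i, AddCommGroup (B i)] (ρ : Set I)
    {i : I} (hi : i ∉ ρ) (b : B i) :
    DFinsupp.subtypeDomainAddMonoidHom B (· ∈ ρ) (DFinsupp.single i b) = 0 := by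
  ext j
  change DFinsupp.single i b (j : I) = _
  have h1 : (j : I) ≠ i := fun h' => hi (h' ▸ j.2)
  rw [DFinsupp.single_eq_of_ne h1]
  rfl

private theorem st_torsion {p : ℕ} {J : Type v} {E : J → Type w} [∀ i, AddCommGroup (E i)]
    (h : ∀ i, ∀ b : E i, ∃ k : ℕ, p ^ k • b = 0) (g : Π₀ i, E i) : ∃ k : ℕ, p ^ k • g = 0 := by
  classical
  induction g using DFinsupp.induction with
  | h0 => exact ⟨0, by rw [smul_zero]⟩
  | ha i b f _ _ ih =>
    obtain ⟨k, hk⟩ := ih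
    obtain ⟨l, hl⟩ := h i b
    refine ⟨k + l, ?_⟩
    rw [smul_add]
    have h1 : p ^ (k + l) • DFinsupp.single i b = 0 := by
      rw [pow_add, mul_smul, ← DFinsupp.single_smul, hl, DFinsupp.single_zero, smul_zero]
    have h2 : p ^ (k + l) • f = 0 := by
      rw [pow_add, mul_comm, mul_smul, hk, smul_zero]
    rw [h1, h2, add_zero]

/-- the bad levels are finite in number -/
private theorem st_bad {p : ℕ} {D : Type v} [AddCommGroup D] {κ : Ordinal.{0}} (T : AddSubgroup D)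
    (hT : (T : Set D).Finite) :
    {b : ℕ | ∃ t ∈ T, t ∈ pu p D κ b ∧ t ∉ pu p D κ (b + 1)}.Finite := by
  have h1 : {b : ℕ | ∃ t ∈ T, t ∈ pu p D κ b ∧ t ∉ pu p D κ (b + 1)} =
      ⋃ t ∈ (T : Set D), {b : ℕ | t ∈ pu p D κ b ∧ t ∉ pu p D κ (b + 1)} := by
    ext b
    simp only [Set.mem_setOf_eq, Set.mem_iUnion, SetLike.mem_coe, exists_prop]
  rw [h1]
  refine hT.biUnion fun t _ => ?_
  apply Set.Subsingleton.finite
  intro b hb b' hb'
  by_contra hne
  rcases lt_or_gt_of_ne hne with h | h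
  · exact hb.2 (pu_anti (Nat.succ_le_of_lt h) hb'.1)
  · exact hb'.2 (pu_anti (Nat.succ_le_of_lt h) hb.1)

/-- an element of exact height in a summand -/
private theorem st_single {p : ℕ} {J : Type v} {E : J → Type w} [∀ i, AddCommGroup (E i)]
    [DecidableEq J] {κ : Ordinal.{0}} {b : ℕ} (i : J) (u : E i) (hu : p • u = 0)
    (hu1 : u ∈ pu p (E i) κ b) (hu2 : u ∉ pu p (E i) κ (b + 1)) :
    p • (DFinsupp.single i u : Π₀ i, E i) = 0 ∧ DFinsupp.single i u ∈ pu p (Π₀ i, E i) κ b ∧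
      DFinsupp.single i u ∉ pu p (Π₀ i, E i) κ (b + 1) := by
  refine ⟨?_, ?_, ?_⟩
  · rw [← DFinsupp.single_smul, hu, DFinsupp.single_zero]
  · exact map_pu (DFinsupp.singleAddHom E i) hu1
  · intro h
    have h1 := (mem_pu_dfinsupp.1 h) i
    rw [DFinsupp.single_eq_same] at h1
    exact hu2 h1

open Classical in
theorem stage {p : ℕ} [Fact p.Prime] {κs : Ordinal.{0}} (hlim : Order.IsSuccLimit κs)
    {A : Type u} [AddCommGroup A] (hA : ∀ a : A, ∃ k : ℕ, p ^ k • a = 0) {I : Type v}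
    {B : I → Type w} [∀ i, AddCommGroup (B i)] [∀ i, Countable (B i)] (q : A →+ Π₀ i, B i)
    (hq : Function.Surjective q) (hker : ∀ x, q x = 0 ↔ x ∈ ulm p A κs)
    (U : ℕ → (i : I) → (B i →+ A))
    (hU : ∀ k i, ∀ κ < κs, ∀ g ∈ ulm p (B i) κ, U k i g ∈ ulm p A (Order.succ κ))
    (L ρ : Set I) (hL : L.Countable) (hρ : ρ.Countable) (R₀ : (i : I) → (B i →+ A))
    (room : (∀ κ < κs, ∀ n : ℕ, ∃ b ≥ n, (ρ ∩ Js p B κ b).Nonempty) ∨
      (∀ κ < κs, ∀ j, ∀ i ∈ L, i ∈ Js p B κ j → (ρ ∩ Js p B κ j).Infinite)) :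
    ∃ (V : ℕ → (i : I) → (B i →+ A)) (R : (i : I) → (B i →+ A)), (∀ i ∉ ρ, R i = R₀ i) ∧
      ∀ k, ∀ i ∈ L, ∀ b : B i, DFinsupp.liftAddHom R (q (V k i b)) = U k i b := by
  have hkerle : ∀ x, q x = 0 → x ∈ ulm p A κs := fun x hx => (hker x).1 hx
  have htB : ∀ i, ∀ b : B i, ∃ k : ℕ, p ^ k • b = 0 := by
    intro i b
    obtain ⟨a, ha⟩ := hq (DFinsupp.single i b)
    obtain ⟨k, hk⟩ := hA a
    refine ⟨k, ?_⟩
    have h1 : DFinsupp.single i (p ^ k • b) = (0 : Π₀ i, B i) := by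
      rw [DFinsupp.single_smul, ← ha, ← map_nsmul, hk, map_zero]
    have h2 := DFunLike.congr_fun h1 i
    rw [DFinsupp.single_eq_same] at h2
    exact h2
  have hB0 : ∀ i, ∀ b ∈ ulm p (B i) κs, b = 0 := by
    intro i b hb
    have h1 : DFinsupp.single i b ∈ ulm p (Π₀ i, B i) κs :=
      map_ulm (DFinsupp.singleAddHom B i) κs b hb
    obtain ⟨a, ha⟩ := hq (DFinsupp.single i b)
    rw [← ha, mem_ulm_quot q hq hkerle κs le_rfl] at h1
    rw [(hker a).2 h1] at ha
    have h2 := DFunLike.congr_fun ha i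
    rw [DFinsupp.single_eq_same] at h2
    exact h2.symm
  have : Countable ρ := hρ.to_subtype
  have : Countable L := hL.to_subtype
  have hι : ∀ d : Π₀ i : {x // x ∈ ρ}, B i, DFinsupp.subtypeDomainAddMonoidHom B (· ∈ ρ)
      (DFinsupp.liftAddHom (fun i : {x // x ∈ ρ} => DFinsupp.singleAddHom B i) d) = d := by
    intro d
    have h1 : (DFinsupp.subtypeDomainAddMonoidHom B (· ∈ ρ)).comp
        (DFinsupp.liftAddHom (fun i : {x // x ∈ ρ} => DFinsupp.singleAddHom B i)) =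
        AddMonoidHom.id _ := by
      apply DFinsupp.addHom_ext
      rintro ⟨i, hi⟩ b
      rw [AddMonoidHom.comp_apply, DFinsupp.liftAddHom_apply_single]
      exact st_sub_pos ρ hi b
    exact DFunLike.congr_fun h1 d
  obtain ⟨V, r', hV⟩ := tlem (G := Π₀ x : ℕ × L, B x.2) (D := Π₀ i : {x // x ∈ ρ}, B i)
    hlim hA q hq hker
    (DFinsupp.liftAddHom (fun i : {x // x ∈ ρ} => DFinsupp.singleAddHom B i))
    (DFinsupp.subtypeDomainAddMonoidHom B (· ∈ ρ)) hι
    (fun g => st_torsion (fun x b => htB x.2 b) g)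
    (by
      rw [AddSubgroup.eq_bot_iff_forall]
      intro g hg
      ext x
      exact hB0 x.2 _ (mem_ulm_dfinsupp.1 hg x))
    (DFinsupp.liftAddHom (fun x : ℕ × L => U x.1 x.2))
    (by
      intro κ hκ g hg
      exact dfinsuppSumAddHom_mem _ _ _ fun x _ =>
        hU x.1 x.2 κ hκ _ (mem_ulm_dfinsupp.1 hg x))
    ((DFinsupp.liftAddHom (fun i => if i ∈ ρ then 0 else R₀ i)).comp q)
    (by
      rintro κ hκ j ⟨u, hu0, hu1, hu2⟩ T hT
      obtain ⟨⟨k, i, hi⟩, hx⟩ : ∃ x : ℕ × L, u x ∉ pu p (B x.2) κ (j + 1) := by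
        by_contra hcon
        push Not at hcon
        exact hu2 (mem_pu_dfinsupp.2 hcon)
      have hiJ : i ∈ Js p B κ j := by
        refine ⟨u (k, ⟨i, hi⟩), ?_, mem_pu_dfinsupp.1 hu1 (k, ⟨i, hi⟩), hx⟩
        have h1 := DFunLike.congr_fun hu0 (k, (⟨i, hi⟩ : L))
        exact h1
      rcases room with room | room
      · -- infinitely many levels
        have hinf : {b : ℕ | j ≤ b ∧ (ρ ∩ Js p B κ b).Nonempty}.Infinite := by
          apply Set.infinite_of_not_bddAbove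
          rintro ⟨N, hN⟩
          obtain ⟨b, hb, hb'⟩ := room κ hκ (max j (N + 1))
          have h1 := hN ⟨(le_max_left _ _).trans hb, hb'⟩
          have h2 := (le_max_right _ _).trans hb
          omega
        obtain ⟨b, ⟨hjb, i', hi'ρ, u', hu'0, hu'1, hu'2⟩, hbad⟩ :=
          (hinf.diff (st_bad (κ := κ) (p := p) T hT)).nonempty
        obtain ⟨hw0, hw1, hw2⟩ := st_single (E := fun i : {x // x ∈ ρ} => B i) ⟨i', hi'ρ⟩ u' hu'0
          hu'1 hu'2
        refine ⟨b, hjb, _, hw0, hw1, fun t ht hwt => ?_⟩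
        by_cases h1 : t ∈ pu p (Π₀ i : {x // x ∈ ρ}, B i) κ b
        · by_cases h2 : t ∈ pu p (Π₀ i : {x // x ∈ ρ}, B i) κ (b + 1)
          · apply hw2
            have h3 := sub_mem hwt h2
            rwa [add_sub_cancel_right] at h3
          · exact hbad ⟨t, ht, h1, h2⟩
        · apply h1
          have h3 := sub_mem (pu_anti (Nat.le_succ b) hwt) hw1
          rwa [add_sub_cancel_left] at h3
      · -- infinitely many summands
        have hinf := room κ hκ j i hi hiJ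
        have hfin : (⋃ t ∈ (T : Set (Π₀ i : {x // x ∈ ρ}, B i)),
            ((t.support.image Subtype.val : Finset I) : Set I)).Finite :=
          hT.biUnion fun t _ => Finset.finite_toSet _
        obtain ⟨i', ⟨hi'ρ, u', hu'0, hu'1, hu'2⟩, hi'⟩ := (hinf.diff hfin).nonempty
        obtain ⟨hw0, hw1, hw2⟩ := st_single (E := fun i : {x // x ∈ ρ} => B i) ⟨i', hi'ρ⟩ u' hu'0
          hu'1 hu'2
        refine ⟨j, le_rfl, _, hw0, hw1, fun t ht hwt => ?_⟩
        have h0 : t ⟨i', hi'ρ⟩ = 0 := by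
          by_contra hne
          apply hi'
          rw [Set.mem_iUnion₂]
          refine ⟨t, ht, ?_⟩
          rw [Finset.mem_coe, Finset.mem_image]
          exact ⟨⟨i', hi'ρ⟩, DFinsupp.mem_support_iff.2 hne, rfl⟩
        have h1 := mem_pu_dfinsupp.1 hwt ⟨i', hi'ρ⟩
        rw [DFinsupp.add_apply, DFinsupp.single_eq_same, h0, add_zero] at h1
        exact hu'2 h1)
  refine ⟨fun k i => if h : i ∈ L then
      V.comp (DFinsupp.singleAddHom (fun x : ℕ × L => B x.2) (k, ⟨i, h⟩)) else 0,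
    fun i => if h : i ∈ ρ then
      r'.comp (DFinsupp.singleAddHom (fun i : {x // x ∈ ρ} => B i) ⟨i, h⟩) else R₀ i, ?_, ?_⟩
  · intro i hi
    beta_reduce
    rw [dif_neg hi]
  · intro k i hi b
    have hR : DFinsupp.liftAddHom (fun i => if h : i ∈ ρ then
        r'.comp (DFinsupp.singleAddHom (fun i : {x // x ∈ ρ} => B i) ⟨i, h⟩) else R₀ i) =
        DFinsupp.liftAddHom (fun i => if i ∈ ρ then 0 else R₀ i) +
          r'.comp (DFinsupp.subtypeDomainAddMonoidHom B (· ∈ ρ)) := by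
      apply DFinsupp.addHom_ext
      intro i b
      rw [AddMonoidHom.add_apply, DFinsupp.liftAddHom_apply_single,
        DFinsupp.liftAddHom_apply_single, AddMonoidHom.comp_apply]
      by_cases h : i ∈ ρ
      · rw [dif_pos h, if_pos h, st_sub_pos ρ h b, AddMonoidHom.zero_apply, zero_add]
        rfl
      · rw [dif_neg h, if_neg h, st_sub_neg ρ h b, map_zero, add_zero]
    beta_reduce
    rw [dif_pos hi, hR]
    have h1 := hV (DFinsupp.single (k, ⟨i, hi⟩) b)
    rw [DFinsupp.liftAddHom_apply_single] at h1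
    exact h1

end Pool.Agent.Lib_MP_fa2e48_dsc
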