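import Mathlib
import Pool.Agent.Lib_MP_fa2e48_dsc.R
import Pool.Agent.Lib_MP_fa2e48_dsc.S

/-!
# All stages
-/

namespace Pool.Agent.Lib_MP_fa2e48_dsc

open Pool.Agent.Lib_MP_fa2e48_al

universe u v w u₁ u₂ u₃

/-- Transfinite recursion with choices. -/
private theorem exists_rec {D : Type w} [Nonempty D]
    (P : Ordinal.{v} → (Ordinal.{v} → D) → D → Prop)
    (hcongr : ∀ ξ g g' d, (∀ ξ' < ξ, g ξ' = g' ξ') → P ξ g d → P ξ g' d)
    (hex : ∀ ξ g, (∀ ξ' < ξ, P ξ' g (g ξ')) → ∃ d, P ξ g d) :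
    ∃ g : Ordinal.{v} → D, ∀ ξ, P ξ g (g ξ) := by
  classical
  let F : (ξ : Ordinal.{v}) → ((ξ' : Ordinal.{v}) → ξ' < ξ → D) → D := fun ξ prev =>
    if h : ∃ d, P ξ (fun ξ' => if h' : ξ' < ξ then prev ξ' h' else Classical.arbitrary D) d
    then h.choose else Classical.arbitrary D
  let g : Ordinal.{v} → D := WellFounded.fix (wellFounded_lt (α := Ordinal.{v})) F
  have hg : ∀ ξ, g ξ = F ξ (fun ξ' _ => g ξ') := fun ξ => WellFounded.fix_eq _ _ _
  refine ⟨g, fun ξ => ?_⟩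
  induction ξ using WellFoundedLT.induction with
  | ind ξ ih =>
    let gx : Ordinal.{v} → D := fun ξ' => if ξ' < ξ then g ξ' else Classical.arbitrary D
    have h1 : ∀ ξ' < ξ, g ξ' = gx ξ' := fun ξ' h => (if_pos h).symm
    have h2 : ∀ ξ' < ξ, P ξ' gx (gx ξ') := fun ξ' h => by
      rw [← h1 ξ' h]
      exact hcongr ξ' g gx _ (fun ξ'' h'' => h1 ξ'' (h''.trans h)) (ih ξ' h)
    have h3 : ∃ d, P ξ gx d := hex ξ gx h2
    have h4 : g ξ = h3.choose := by
      rw [hg ξ]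
      exact dif_pos h3
    rw [h4]
    exact hcongr ξ gx g _ (fun ξ' h => (h1 ξ' h).symm) h3.choose_spec

open Classical in
private theorem lift_congr {A : Type u} [AddCommGroup A] {I : Type v}
    {B : I → Type w} [∀ i, AddCommGroup (B i)] (R R' : (i : I) → (B i →+ A)) (x : Π₀ i, B i)
    (h : ∀ j, x j ≠ 0 → R j = R' j) :
    DFinsupp.liftAddHom R x = DFinsupp.liftAddHom R' x := by
  rw [DFinsupp.liftAddHom_apply, DFinsupp.liftAddHom_apply, DFinsupp.sumAddHom_apply,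
    DFinsupp.sumAddHom_apply]
  unfold DFinsupp.sum
  refine Finset.sum_congr rfl fun j hj => ?_
  exact DFunLike.congr_fun (h j (DFinsupp.mem_support_iff.1 hj)) (x j)

/-- Data of one stage. -/
private structure SD (A : Type u) [AddCommGroup A] (I : Type v)
    (B : I → Type w) [∀ i, AddCommGroup (B i)] where
  ρ : Set I
  E : Set I
  V : ℕ → (i : I) → (B i →+ A)
  R : (i : I) → (B i →+ A)

/-- The indices used before stage `ξ`. -/
private def SD.used {A : Type u} [AddCommGroup A] {I : Type v}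
    {B : I → Type w} [∀ i, AddCommGroup (B i)] (g : Ordinal.{v} → SD A I B) (ξ : Ordinal.{v}) :
    Set I := ⋃ x : Set.Iio ξ, (g x.1).E

private theorem SD.card_used {A : Type u} [AddCommGroup A] {I : Type v}
    {B : I → Type w} [∀ i, AddCommGroup (B i)] (g : Ordinal.{v} → SD A I B) (ξ : Ordinal.{v})
    (h : ∀ ξ' < ξ, (g ξ').E.Countable) :
    Cardinal.mk (SD.used g ξ) ≤ max ξ.card Cardinal.aleph0 := by
  rw [← Cardinal.lift_le.{v + 1}]
  refine (Cardinal.mk_iUnion_le_lift.{v, v+1} fun x : Set.Iio ξ => (g x.1).E).trans ?_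
  rw [Cardinal.mk_Iio_ordinal]
  have h1 : (⨆ x : Set.Iio ξ, Cardinal.lift.{v + 1} (Cardinal.mk (g x.1).E)) ≤
      Cardinal.aleph0 := by
    refine ciSup_le' fun x => ?_
    rw [Cardinal.lift_le_aleph0]
    exact (h x.1 x.2).le_aleph0
  refine (mul_le_mul_right h1 _).trans ?_
  refine (Cardinal.mul_le_max_of_aleph0_le_right le_rfl).trans ?_
  simp

/-- The requirements for stage `ξ`. -/
private structure SD.Good {A : Type u} [AddCommGroup A] {I : Type v}
    {B : I → Type w} [∀ i, AddCommGroup (B i)] [DecidableEq I] (q : A →+ Π₀ i, B i)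
    (U : ℕ → (i : I) → (B i →+ A)) (key : I → Ordinal.{v})
    (ξ : Ordinal.{v}) (g : Ordinal.{v} → SD A I B) (d : SD A I B) : Prop where
  cE : d.E.Countable
  sub : d.ρ ⊆ d.E
  dis : ∀ ξ' < ξ, ∀ i ∈ d.ρ, i ∉ (g ξ').E
  old : ∀ ξ' < ξ, ∀ i ∈ (g ξ').ρ, d.R i = (g ξ').R i
  new : ∀ i ∉ d.ρ, (∀ ξ' < ξ, i ∉ (g ξ').ρ) → d.R i = 0
  eq : ∀ k i, key i = ξ → ∀ b : B i, DFinsupp.liftAddHom d.R (q (d.V k i b)) = U k i b
  supp : ∀ k i, key i = ξ → ∀ b : B i, ∀ j, q (d.V k i b) j ≠ 0 → j ∈ d.E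

theorem factor {p : ℕ} [Fact p.Prime] {κs : Ordinal.{0}} (hlim : Order.IsSuccLimit κs)
    (hκs : κs.card ≤ Cardinal.aleph0)
    {A : Type u} [AddCommGroup A] (hA : ∀ a : A, ∃ k : ℕ, p ^ k • a = 0) {I : Type v}
    {B : I → Type w} [∀ i, AddCommGroup (B i)] [∀ i, Countable (B i)] (q : A →+ Π₀ i, B i)
    (hq : Function.Surjective q) (hker : ∀ x, q x = 0 ↔ x ∈ ulm p A κs)
    (hwin : ∀ κ < κs, ∀ n : ℕ, ∃ b ≥ n, (Js p B κ b).Nonempty) (X : ℕ → AddMonoid.End A)
    (hX0 : ∀ k, ∀ h ∈ ulm p A κs, X k h = 0)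
    (hX : ∀ k, ∀ κ < κs, ∀ g ∈ ulm p A κ, X k g ∈ ulm p A (Order.succ κ)) :
    ∃ (r : AddMonoid.End A) (V : ℕ → AddMonoid.End A), (∀ h ∈ ulm p A κs, r h = 0) ∧
      ∀ k, X k = r * V k := by
  classical
  -- the factorizations through `q`
  have hX' : ∀ k, ∃ X' : (Π₀ i, B i) →+ A, ∀ a, X' (q a) = X k a := by
    intro k
    refine ⟨AddMonoidHom.liftOfSurjective q hq ⟨X k, fun a ha => ?_⟩, fun a => ?_⟩
    · exact hX0 k a ((hker a).1 ha)
    · exact AddMonoidHom.liftOfRightInverse_comp_apply q _ _ _ a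
  choose X' hX' using hX'
  let U : ℕ → (i : I) → (B i →+ A) := fun k i => (X' k).comp (DFinsupp.singleAddHom B i)
  have hU : ∀ k i, ∀ κ < κs, ∀ g ∈ ulm p (B i) κ, U k i g ∈ ulm p A (Order.succ κ) := by
    intro k i κ hκ g hg
    obtain ⟨a, ha⟩ := hq (DFinsupp.singleAddHom B i g)
    have h1 : a ∈ ulm p A κ := by
      refine (mem_ulm_quot q hq (fun x hx => (hker x).1 hx) κ hκ.le a).1 ?_
      rw [ha]
      exact map_ulm _ κ g hg
    have h2 : U k i g = X k a := by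
      rw [← hX', ha]
      rfl
    rw [h2]
    exact hX k κ hκ a h1
  -- the keys
  have : Countable (Set.Iio κs) := by
    rw [← Cardinal.mk_le_aleph0_iff, Cardinal.mk_Iio_ordinal, Cardinal.lift_le_aleph0]
    exact hκs
  obtain ⟨key, hkey, hex⟩ := exists_key (I := I) (α := Set.Iio κs × ℕ)
    (fun a => Js p B a.1.1 a.2)
  -- the recursion
  have : Nonempty (SD A I B) := ⟨⟨∅, ∅, fun _ _ => 0, fun _ => 0⟩⟩
  obtain ⟨g, hg⟩ := exists_rec (D := SD A I B) (fun ξ g d => SD.Good q U key ξ g d)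
    (by
      intro ξ g g' d hgg h
      refine ⟨h.cE, h.sub, ?_, ?_, ?_, h.eq, h.supp⟩
      · intro ξ' hξ'
        rw [← hgg ξ' hξ']
        exact h.dis ξ' hξ'
      · intro ξ' hξ'
        rw [← hgg ξ' hξ']
        exact h.old ξ' hξ'
      · intro i hi hi'
        refine h.new i hi fun ξ' hξ' => ?_
        rw [hgg ξ' hξ']
        exact hi' ξ' hξ')
    (by
      intro ξ g ih
      obtain ⟨ρ, hρ, hdis, hroom⟩ := hex ξ (SD.used g ξ)
        (SD.card_used g ξ fun ξ' hξ' => (ih ξ' hξ').cE)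
        (by
          rintro rfl
          refine Set.iUnion_eq_empty.2 fun x => absurd x.2 (not_lt_bot (a := x.1)))
      let R₀ : (i : I) → (B i →+ A) := fun i =>
        if h : ∃ ξ' < ξ, i ∈ (g ξ').ρ then (g h.choose).R i else 0
      obtain ⟨V, R, hR, hV⟩ := stage hlim hA q hq hker U hU {i | key i = ξ} ρ (hkey ξ) hρ R₀
        (by
          rcases hroom with h | h
          · left
            intro κ hκ n
            obtain ⟨b, hb, hb'⟩ := hwin κ hκ n
            exact ⟨b, hb, h (⟨κ, hκ⟩, b) hb'⟩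
          · right
            intro κ hκ j i hi hij
            exact h (⟨κ, hκ⟩, j) i hij hi)
      have hdis' : ∀ ξ' < ξ, ∀ i ∈ ρ, i ∉ (g ξ').E := fun ξ' hξ' i hi hi' =>
        Set.disjoint_left.1 hdis hi (Set.mem_iUnion.2 ⟨⟨ξ', hξ'⟩, hi'⟩)
      refine ⟨⟨ρ, ρ ∪ ⋃ (k : ℕ), ⋃ i ∈ {i | key i = ξ}, ⋃ b : B i,
        ((q (V k i b)).support : Set I), V, R⟩, ?_, Set.subset_union_left, hdis', ?_, ?_, ?_, ?_⟩
      · refine hρ.union (Set.countable_iUnion fun k => ?_)
        refine (hkey ξ).biUnion fun i _ => Set.countable_iUnion fun b => ?_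
        exact Finset.countable_toSet _
      · intro ξ' hξ' i hi
        have h1 : i ∉ ρ := fun h => hdis' ξ' hξ' i h ((ih ξ' hξ').sub hi)
        have h2 : ∃ ξ' < ξ, i ∈ (g ξ').ρ := ⟨ξ', hξ', hi⟩
        have h3 : R₀ i = (g h2.choose).R i := dif_pos h2
        have h4 : h2.choose = ξ' := by
          obtain ⟨h5, h6⟩ := h2.choose_spec
          rcases lt_trichotomy h2.choose ξ' with h | h | h
          · exact absurd ((ih _ h5).sub h6) ((ih ξ' hξ').dis _ h i hi)
          · exact h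
          · exact absurd ((ih _ hξ').sub hi) ((ih _ h5).dis _ h i h6)
        show R i = _
        rw [hR i h1, h3, h4]
      · intro i hi hi'
        show R i = 0
        rw [hR i hi]
        exact dif_neg (by
          rintro ⟨ξ', hξ', h⟩
          exact hi' ξ' hξ' h)
      · intro k i hi b
        exact hV k i hi b
      · intro k i hi b j hj
        refine Or.inr ?_
        simp only [Set.mem_iUnion]
        exact ⟨k, i, hi, b, Finset.mem_coe.2 (DFinsupp.mem_support_iff.2 hj)⟩)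
  -- the total maps
  let Rt : (i : I) → (B i →+ A) := fun i =>
    if h : ∃ ξ, i ∈ (g ξ).ρ then (g h.choose).R i else 0
  have hRt : ∀ ξ, ∀ j ∈ (g ξ).E, Rt j = (g ξ).R j := by
    intro ξ j hj
    by_cases h : ∃ ξ, j ∈ (g ξ).ρ
    · have h1 : Rt j = (g h.choose).R j := dif_pos h
      have h2 := h.choose_spec
      rw [h1]
      rcases lt_trichotomy h.choose ξ with h3 | h3 | h3
      · exact ((hg ξ).old _ h3 j h2).symm
      · rw [h3]
      · exact absurd hj ((hg _).dis ξ h3 j h2)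
    · have h1 : Rt j = 0 := dif_neg h
      rw [h1, (hg ξ).new j (fun h' => h ⟨ξ, h'⟩) (fun ξ' _ h' => h ⟨ξ', h'⟩)]
  let T : ℕ → (Π₀ i, B i) →+ A := fun k => DFinsupp.liftAddHom fun i => (g (key i)).V k i
  have hT : ∀ k, ((DFinsupp.liftAddHom Rt).comp (q.comp (T k)) : (Π₀ i, B i) →+ A) = X' k := by
    intro k
    refine DFinsupp.addHom_ext fun i b => ?_
    have h1 : T k (DFinsupp.single i b) = (g (key i)).V k i b := by
      simp only [T, DFinsupp.liftAddHom_apply_single]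
    rw [AddMonoidHom.comp_apply, AddMonoidHom.comp_apply, h1]
    rw [lift_congr Rt (g (key i)).R _ (fun j hj => hRt _ j ((hg (key i)).supp k i rfl b j hj)),
      (hg (key i)).eq k i rfl b]
    rfl
  refine ⟨((DFinsupp.liftAddHom Rt).comp q : A →+ A), fun k => ((T k).comp q : A →+ A), ?_, ?_⟩
  · intro h hh
    show DFinsupp.liftAddHom Rt (q h) = 0
    rw [(hker h).2 hh, map_zero]
  · intro k
    refine AddMonoidHom.ext fun a => ?_
    have h := hX' k a
    rw [← hT k] at h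
    exact h.symm

end Pool.Agent.Lib_MP_fa2e48_dsc
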