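import Mathlib
import Pool.Agent.Lib_MP_fa2e48_al.Divisible
import Pool.Agent.Lib_MP_fa2e48_dsc.D0

/-!
# All windows of a reduced group are unbounded
-/

namespace Pool.Agent.Lib_MP_fa2e48_dsc

open Pool.Agent.Lib_MP_fa2e48_al

universe u v w u₁ u₂ u₃

theorem exists_window {p : ℕ} [Fact p.Prime] {κs : Ordinal.{0}}
    {A : Type u} [AddCommGroup A] (hA : ∀ a : A, ∃ k : ℕ, p ^ k • a = 0) {I : Type v}
    {B : I → Type w} [∀ i, AddCommGroup (B i)] (q : A →+ Π₀ i, B i)
    (hq : Function.Surjective q) (hker : ∀ x, q x = 0 ↔ x ∈ ulm p A κs)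
    (hD : divPart p A = ⊥) (hne : ulm p A κs ≠ ⊥) :
    ∀ κ < κs, ∀ n : ℕ, ∃ b ≥ n, (Js p B κ b).Nonempty := by
  intro κ hκ n
  by_contra hcon
  push Not at hcon
  have h0 : ∀ b ≥ n, ∀ i, ∀ u : B i, p • u = 0 → u ∈ pu p (B i) κ b →
      u ∈ pu p (B i) κ (b + 1) := by
    intro b hb i u hu1 hu2
    by_contra hu3
    have h1 := hcon b hb
    have h2 : i ∈ Js p B κ b := ⟨u, hu1, hu2, hu3⟩
    rw [h1] at h2
    exact h2
  -- (1)
  have h1 : ∀ x : A, p • q x = 0 → x ∈ pu p A κ n → ∀ m, q x ∈ pu p (Π₀ i, B i) κ m := by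
    intro x hx hxn m
    have h : ∀ j, q x ∈ pu p (Π₀ i, B i) κ (n + j) := by
      intro j
      induction j with
      | zero => exact map_pu q hxn
      | succ j ih =>
        rw [mem_pu_dfinsupp] at ih ⊢
        intro i
        refine h0 (n + j) (Nat.le_add_right _ _) i _ ?_ (ih i)
        rw [← DFinsupp.smul_apply, hx, DFinsupp.zero_apply]
    exact pu_anti (Nat.le_add_left m n) (h m)
  -- (2)
  have h2 : ∀ k, ∀ x : A, p ^ k • x = 0 → x ∈ pu p A κ n → x ∈ ulm p A (Order.succ κ) := by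
    intro k
    induction k with
    | zero =>
      intro x hx _
      rw [pow_zero, one_smul] at hx
      rw [hx]
      exact zero_mem _
    | succ k ih =>
      intro x hx hxn
      have hpx : p • x ∈ ulm p A (Order.succ κ) := by
        refine ih (p • x) ?_ (AddSubgroup.nsmul_mem _ hxn p)
        rw [smul_smul, ← pow_succ, hx]
      have h3 : ∀ m, n ≤ m → x ∈ pu p A κ m := by
        intro m hm
        obtain ⟨y, hy, hyx⟩ := mem_ulm_succ.1 hpx (m + 1)
        have hz1 : p ^ m • y ∈ pu p A κ m := mem_pu.2 ⟨y, hy, rfl⟩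
        have hz2 : x - p ^ m • y ∈ pu p A κ n := sub_mem hxn (pu_anti hm hz1)
        have hz3 : p • (x - p ^ m • y) = 0 := by
          rw [smul_sub, smul_smul, ← pow_succ', hyx, sub_self]
        have hz4 : p • q (x - p ^ m • y) = 0 := by
          rw [← map_nsmul, hz3, map_zero]
        have hz5 := h1 _ hz4 hz2 m
        have hz6 : x - p ^ m • y ∈ pu p A κ m :=
          (mem_pu_quot q hq (fun x hx => (hker x).1 hx) hκ).1 hz5
        have hz7 := add_mem hz6 hz1
        rwa [sub_add_cancel] at hz7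
      rw [mem_ulm_succ]
      intro m
      exact mem_pu.1 (pu_anti (Nat.le_add_left m n) (h3 (n + m) (Nat.le_add_right _ _)))
  -- (3)
  have h4 : ∀ x : pu p A κ n, ∃ y : pu p A κ n, p • (y : A) = x := by
    intro x
    obtain ⟨k, hk⟩ := hA x
    obtain ⟨y, hy, hyx⟩ := mem_ulm_succ.1 (h2 k x hk x.2) (n + 1)
    refine ⟨⟨p ^ n • y, mem_pu.2 ⟨y, hy, rfl⟩⟩, ?_⟩
    show p • (p ^ n • y) = (x : A)
    rw [smul_smul, ← pow_succ', hyx]
  choose g hg using h4
  apply hne
  rw [eq_bot_iff]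
  intro x hx
  have hx' : x ∈ pu p A κ n := ulm_le_pu hκ n hx
  have h5 : x ∈ divPart p A := by
    refine ⟨fun i => ((g^[i] ⟨x, hx'⟩ : pu p A κ n) : A), rfl, fun i => ?_⟩
    show p • ((g^[i + 1] ⟨x, hx'⟩ : pu p A κ n) : A) = _
    rw [Function.iterate_succ_apply', hg]
  rw [hD] at h5
  exact h5

end Pool.Agent.Lib_MP_fa2e48_dsc
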