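import Mathlib
import Pool.Agent.Lib_MP_fa2e48_dsc.F
import Pool.Agent.Lib_MP_fa2e48_dsc.W
import Pool.Agent.Lib_MP_fa2e48_dsc.D1

/-!
# Linear maps kill the sequences which vanish on `ulm p A κs`
-/

namespace Pool.Agent.Lib_MP_fa2e48_dsc

open Pool.Agent.Lib_MP_fa2e48_al

universe u v w u₁ u₂ u₃

theorem kills {p : ℕ} [Fact p.Prime] {κs : Ordinal.{0}} (hlim : Order.IsSuccLimit κs)
    (hκs : κs.card ≤ Cardinal.aleph0)
    {A : Type u} [AddCommGroup A] (hA : ∀ a : A, ∃ k : ℕ, p ^ k • a = 0) {I : Type v}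
    {B : I → Type w} [∀ i, AddCommGroup (B i)] [∀ i, Countable (B i)] (q : A →+ Π₀ i, B i)
    (hq : Function.Surjective q) (hker : ∀ x, q x = 0 ↔ x ∈ ulm p A κs)
    (hD : divPart p A = ⊥) (hne : ulm p A κs ≠ ⊥)
    (f : (ℕ → AddMonoid.End A) →ₗ[AddMonoid.End A] ulmS p A κs) (X : ℕ → AddMonoid.End A)
    (hX : ∀ k, ∀ h ∈ ulm p A κs, X k h = 0) : f X = 0 := by
  have hwin := exists_window hA q hq hker hD hne
  have hQ : TQ p κs (fun κ m => pu p A (Order.succ κ) m) :=
    { anti := fun h => pu_anti h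
      lt := fun h _ m n => pu_le_pu (Order.succ_lt_succ h) m n
      mul := fun h => pu_smul h _
      div := fun h => pu_div h }
  have hf₀ : PH p κs (fun κ m => pu p A (Order.succ κ) m) (ulm p A κs) (id : A → A) :=
    { add := fun x _ y _ => rfl
      hc := fun κ hκ m x hx _ => ulm_le_pu (hlim.succ_lt hκ) m hx }
  obtain ⟨s, hs1, hs2⟩ := ext_all hA hQ q hq hker id hf₀
  let s' : AddMonoid.End A := s
  obtain ⟨r, V, hr, hV⟩ := factor hlim hκs hA q hq hker hwin (fun k => s' * X k)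
    (fun k h hh => by
      show s (X k h) = 0
      rw [hX k h hh, map_zero])
    (fun k κ hκ g hg => by
      show s (X k g) ∈ _
      have h1 : X k g ∈ ulm p A κ := map_ulm (X k : A →+ A) κ g hg
      rw [← pu_zero] at h1
      have h2 := hs2 κ hκ 0 _ h1
      rw [← pu_zero]
      exact h2)
  have e1 : (fun k => s' * X k) = s' • X := rfl
  have e2 : (fun k => s' * X k) = r • V := funext hV
  have h1 : f (fun k => s' * X k) = s' • f X := by rw [e1, map_smul]
  have h2 : f (fun k => s' * X k) = r • f V := by rw [e2, map_smul]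
  apply Subtype.ext
  have h3 : ((s' • f X : ulmS p A κs) : A) = (f X : A) := hs1 _ (f X).2
  have h4 : ((r • f V : ulmS p A κs) : A) = 0 := hr _ (f V).2
  rw [← h3, ← h1, h2, h4]
  rfl

end Pool.Agent.Lib_MP_fa2e48_dsc
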