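import Mathlib
import Pool.Agent.Lib_MP_fa2e48_al.Defs

/-!
# Countable separable p-groups are direct sums of cyclic groups
-/

namespace Pool.Agent.Lib_MP_fa2e48_dsc

open Pool.Agent.Lib_MP_fa2e48_al

universe u v w u₁ u₂ u₃

namespace Pru

variable {p : ℕ} {B : Type u} [AddCommGroup B]

/-- A good element of the coset of `v` modulo `W`. -/
def Good (p : ℕ) (W : AddSubgroup B) (v s : B) : Prop :=
  v ∉ W ∧ s - v ∈ W ∧ p • s = 0 ∧
    ∀ w ∈ W, ∀ m : ℕ, (∃ c : B, p ^ m • c = s + w) → ∃ c : B, p ^ m • c = s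

open Classical in
/-- The next element. -/
noncomputable def step (p : ℕ) (W : AddSubgroup B) (v : B) : B :=
  if h : ∃ s, Good p W v s then h.choose else 0

/-- The chain of finite subgroups of the socle. -/
noncomputable def chain (p : ℕ) (v : ℕ → B) : ℕ → AddSubgroup B
  | 0 => ⊥
  | n + 1 => chain p v n ⊔ AddSubgroup.zmultiples (step p (chain p v n) (v n))

/-- The basis of the socle. -/
noncomputable def sq (p : ℕ) (v : ℕ → B) (n : ℕ) : B := step p (chain p v n) (v n)

lemma step_spec (W : AddSubgroup B) (v : B) :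
    step p W v = 0 ∨ Good p W v (step p W v) := by
  classical
  unfold step
  by_cases h : ∃ s, Good p W v s
  · right
    rw [dif_pos h]
    exact h.choose_spec
  · left
    rw [dif_neg h]

lemma p_step (W : AddSubgroup B) (v : B) : p • step p W v = 0 := by
  rcases step_spec (p := p) W v with h | h
  · rw [h, smul_zero]
  · exact h.2.2.1

/-- Heights are finite. -/
lemma exists_ht (h0 : infHeight p B = ⊥) (b : B) (hb : b ≠ 0) :
    ∃ m : ℕ, (∃ c : B, p ^ m • c = b) ∧ ∀ k : ℕ, (∃ c : B, p ^ k • c = b) → k ≤ m := by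
  classical
  have h1 : ∃ n : ℕ, ¬∃ c : B, p ^ n • c = b := by
    by_contra h1
    push Not at h1
    have h2 : b ∈ infHeight p B := h1
    rw [h0] at h2
    exact hb ((Submodule.mem_bot _).1 h2)
  obtain ⟨m, hm⟩ : ∃ m, Nat.find h1 = m + 1 := by
    refine Nat.exists_eq_succ_of_ne_zero ?_
    intro h2
    have h3 := Nat.find_spec h1
    rw [h2] at h3
    exact h3 ⟨b, by simp⟩
  refine ⟨m, ?_, ?_⟩
  · have := Nat.find_min h1 (m := m) (by omega)
    push Not at this
    exact this
  · intro k hk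
    by_contra h2
    have h3 : ¬∃ c : B, p ^ (m + 1) • c = b := hm ▸ Nat.find_spec h1
    apply h3
    obtain ⟨c, hc⟩ := hk
    refine ⟨p ^ (k - (m + 1)) • c, ?_⟩
    rw [← mul_smul, ← pow_add, Nat.add_sub_cancel' (by omega), hc]

lemma exists_good (h0 : infHeight p B = ⊥) (W : AddSubgroup B) (hW : Finite W)
    (hWp : ∀ w ∈ W, p • w = 0) (v : B) (hv : p • v = 0) (hvW : v ∉ W) :
    ∃ s, Good p W v s := by
  have h1 : ∀ w : W, v + w ≠ 0 := by
    intro w h
    apply hvW
    have : v = -(w : B) := eq_neg_of_add_eq_zero_left h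
    rw [this]
    exact W.neg_mem w.2
  choose H hH1 hH2 using fun w : W => exists_ht h0 (v + w) (h1 w)
  obtain ⟨w0, hw0⟩ := Finite.exists_max H
  refine ⟨v + w0, hvW, by simp, by rw [smul_add, hv, hWp _ w0.2, add_zero], ?_⟩
  intro w hw m hm
  have h2 : m ≤ H (w0 + ⟨w, hw⟩) := by
    apply hH2
    obtain ⟨c, hc⟩ := hm
    refine ⟨c, ?_⟩
    rw [hc]
    push_cast
    rw [add_assoc]
  have h3 := h2.trans (hw0 _)
  obtain ⟨c, hc⟩ := hH1 w0
  refine ⟨p ^ (H w0 - m) • c, ?_⟩
  rw [← mul_smul, ← pow_add, Nat.add_sub_cancel' h3, hc]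

lemma chain_p (v : ℕ → B) (n : ℕ) : ∀ w ∈ chain p v n, p • w = 0 := by
  induction n with
  | zero =>
    intro w hw
    rw [chain, AddSubgroup.mem_bot] at hw
    rw [hw, smul_zero]
  | succ n ih =>
    intro w hw
    rw [chain, AddSubgroup.mem_sup] at hw
    obtain ⟨x, hx, y, hy, rfl⟩ := hw
    obtain ⟨c, rfl⟩ := AddSubgroup.mem_zmultiples_iff.1 hy
    rw [smul_add, ih x hx, zero_add, smul_comm, p_step, smul_zero]

lemma chain_mono (v : ℕ → B) : Monotone (chain p v) :=
  monotone_nat_of_le_succ fun n => by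
    rw [chain]
    exact le_sup_left

lemma sq_mem (v : ℕ → B) (n : ℕ) : sq p v n ∈ chain p v (n + 1) := by
  rw [chain]
  exact AddSubgroup.mem_sup_right (AddSubgroup.mem_zmultiples _)

lemma chain_finite (hp : 0 < p) (v : ℕ → B) (n : ℕ) : Finite (chain p v n) := by
  induction n with
  | zero =>
    rw [chain]
    infer_instance
  | succ n ih =>
    have h1 : ((chain p v (n + 1) : AddSubgroup B) : Set B) ⊆
        Set.image2 (fun w (c : ℤ) => w + c • sq p v n) (chain p v n)
          (Set.range fun i : Fin p => ((i : ℕ) : ℤ)) := by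
      intro b hb
      rw [chain, SetLike.mem_coe, AddSubgroup.mem_sup] at hb
      obtain ⟨x, hx, y, hy, rfl⟩ := hb
      obtain ⟨c, rfl⟩ := AddSubgroup.mem_zmultiples_iff.1 hy
      have hp' : (0 : ℤ) < p := by exact_mod_cast hp
      have h2 := Int.emod_nonneg c hp'.ne'
      have h3 := Int.emod_lt_of_pos c hp'
      refine ⟨x, hx, c % p, ⟨⟨(c % p).toNat, by omega⟩, by simp [Int.toNat_of_nonneg h2]⟩, ?_⟩
      simp only
      congr 1
      have h4 : c = c % p + p * (c / p) := (Int.emod_add_mul_ediv c p).symm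
      conv_rhs => rw [h4]
      rw [add_smul, mul_comm, mul_smul]
      have h5 : (p : ℤ) • step p (chain p v n) (v n) = 0 := by
        rw [natCast_zsmul, p_step]
      rw [h5, smul_zero, add_zero]
      rfl
    have h2 : ((chain p v (n + 1) : AddSubgroup B) : Set B).Finite :=
      (Set.Finite.image2 _ (Set.toFinite _) (Set.finite_range _)).subset h1
    exact h2

/-- Every element of the socle is in the chain. -/
lemma mem_chain (hp : 0 < p) (h0 : infHeight p B = ⊥) (v : ℕ → B) (n : ℕ)
    (hv : p • v n = 0) : v n ∈ chain p v (n + 1) := by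
  by_cases h : v n ∈ chain p v n
  · exact chain_mono v (Nat.le_succ n) h
  · have h1 : Finite (chain p v n) := chain_finite hp v n
    obtain ⟨s, hs⟩ := exists_good h0 _ h1 (chain_p v n) (v n) hv h
    have h2 : Good p (chain p v n) (v n) (sq p v n) := by
      classical
      unfold sq step
      rw [dif_pos ⟨s, hs⟩]
      exact Exists.choose_spec _
    have h3 : v n = sq p v n - (sq p v n - v n) := by abel
    rw [h3]
    exact sub_mem (sq_mem v n) (chain_mono v (Nat.le_succ n) h2.2.1)

/-- Adaptedness to the height filtration. -/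
lemma adapted [hp : Fact p.Prime] (v : ℕ → B) (m : ℕ) (n : ℕ) : ∀ b ∈ chain p v n,
    (∃ c : B, p ^ m • c = b) →
      b ∈ AddSubgroup.closure {s | ∃ i, s = sq p v i ∧ ∃ c : B, p ^ m • c = sq p v i} := by
  induction n with
  | zero =>
    intro b hb _
    rw [chain, AddSubgroup.mem_bot] at hb
    rw [hb]
    exact zero_mem _
  | succ n ih =>
    intro b hb hbm
    rw [chain, AddSubgroup.mem_sup] at hb
    obtain ⟨x, hx, y, hy, rfl⟩ := hb
    obtain ⟨c, rfl⟩ := AddSubgroup.mem_zmultiples_iff.1 hy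
    change ∃ d : B, p ^ m • d = x + c • sq p v n at hbm
    change x + c • sq p v n ∈ _
    rcases step_spec (p := p) (chain p v n) (v n) with hs | hs
    · have hs' : sq p v n = 0 := hs
      rw [hs', smul_zero, add_zero] at hbm ⊢
      exact ih x hx hbm
    · have hs' : Good p (chain p v n) (v n) (sq p v n) := hs
      have hps : (p : ℤ) • sq p v n = 0 := by
        rw [natCast_zsmul]
        exact hs'.2.2.1
      by_cases hc : (p : ℤ) ∣ c
      · obtain ⟨e, rfl⟩ := hc
        have h1 : ((p : ℤ) * e) • sq p v n = 0 := by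
          rw [mul_comm, mul_smul, hps, smul_zero]
        rw [h1, add_zero] at hbm ⊢
        exact ih x hx hbm
      · have hcop : IsCoprime (p : ℤ) c :=
          (Prime.coprime_iff_not_dvd (Nat.prime_iff_prime_int.1 hp.out)).2 hc
        obtain ⟨a, d, had⟩ := hcop
        have h1 : ∃ e : B, p ^ m • e = sq p v n + d • x := by
          obtain ⟨e, he⟩ := hbm
          refine ⟨d • e, ?_⟩
          rw [smul_comm, he, smul_add, ← mul_smul]
          have h2 : (d * c) • sq p v n = sq p v n := by
            have h3 : d * c = 1 - a * p := by linear_combination had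
            rw [h3, sub_smul, one_smul, mul_smul, hps, smul_zero, sub_zero]
          rw [h2, add_comm]
        have h2 : ∃ e : B, p ^ m • e = sq p v n :=
          hs'.2.2.2 (d • x) (AddSubgroup.zsmul_mem _ hx d) m h1
        have h3 : ∃ e : B, p ^ m • e = x := by
          obtain ⟨e1, he1⟩ := hbm
          obtain ⟨e2, he2⟩ := h2
          refine ⟨e1 - c • e2, ?_⟩
          rw [smul_sub, he1, smul_comm, he2]
          abel
        refine add_mem (ih x hx h3) (AddSubgroup.zsmul_mem _ (AddSubgroup.subset_closure ?_) c)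
        exact ⟨n, rfl, h2⟩

end Pru

open Pru in
/-- Pruefer's theorem. -/
theorem sumOfCyclics_of_countable {p : ℕ} [Fact p.Prime] {B : Type u} [AddCommGroup B]
    [Countable B] (hB : ∀ b : B, ∃ k : ℕ, p ^ k • b = 0) (h0 : infHeight p B = ⊥) :
    ∃ (ι : Type) (n : ι → ℕ), Nonempty (B ≃+ Π₀ i, ZMod (p ^ n i)) := by
  classical
  have hp : p.Prime := Fact.out
  obtain ⟨v, hv⟩ := exists_surjective_nat B
  -- the elements `x i` and the exponents
  have hx : ∀ i, ∃ (x : B) (n : ℕ), (sq p v i = 0 → n = 0 ∧ x = 0) ∧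
      (sq p v i ≠ 0 → ∃ h, n = h + 1 ∧ p ^ h • x = sq p v i ∧
        ∀ k : ℕ, (∃ c : B, p ^ k • c = sq p v i) → k ≤ h) := by
    intro i
    by_cases hs : sq p v i = 0
    · exact ⟨0, 0, fun _ => ⟨rfl, rfl⟩, fun h => absurd hs h⟩
    · obtain ⟨h, ⟨x, hx⟩, hm⟩ := exists_ht h0 _ hs
      exact ⟨x, h + 1, fun h => absurd h hs, fun _ => ⟨h, rfl, hx, hm⟩⟩
  choose x n hx0 hx1 using hx
  have hps : ∀ i, p • sq p v i = 0 := fun i => p_step _ _
  have hord : ∀ i, p ^ n i • x i = 0 := by
    intro i
    by_cases hs : sq p v i = 0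
    · obtain ⟨h1, h2⟩ := hx0 i hs
      rw [h2, smul_zero]
    · obtain ⟨h, h1, h2, -⟩ := hx1 i hs
      rw [h1, pow_succ, mul_comm, mul_smul, h2, hps]
  let f : ∀ i, ZMod (p ^ n i) →+ B := fun i =>
    ZMod.lift (p ^ n i) ⟨zmultiplesHom B (x i), by
      show ((p ^ n i : ℕ) : ℤ) • x i = 0
      rw [natCast_zsmul, hord]⟩
  have hf : ∀ i (c : ℤ), f i (c : ZMod (p ^ n i)) = c • x i := by
    intro i c
    simp only [f]
    rw [ZMod.lift_coe]
    rfl
  let F : (Π₀ i, ZMod (p ^ n i)) →+ B := DFinsupp.liftAddHom f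
  have hFs : ∀ i a, F (DFinsupp.single i a) = f i a := fun i a => by
    simp only [F, DFinsupp.liftAddHom_apply_single]
  -- socle elements of a factor
  have hsoc : ∀ i (a : ZMod (p ^ n i)), p • a = 0 → ∃ c : ℤ, f i a = c • sq p v i ∧
      (a ≠ 0 → sq p v i ≠ 0 ∧ ¬ (p : ℤ) ∣ c) := by
    intro i a ha
    by_cases hs : sq p v i = 0
    · obtain ⟨h1, h2⟩ := hx0 i hs
      refine ⟨0, ?_, ?_⟩
      · obtain ⟨c, rfl⟩ := ZMod.intCast_surjective a
        rw [hf, h2, smul_zero, zero_smul]
      · intro ha0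
        exfalso
        apply ha0
        have : Subsingleton (ZMod (p ^ n i)) := by
          rw [h1, pow_zero]
          infer_instance
        exact Subsingleton.elim _ _
    · obtain ⟨h, h1, h2, -⟩ := hx1 i hs
      obtain ⟨c, rfl⟩ := ZMod.intCast_surjective a
      have h3 : ((p ^ n i : ℕ) : ℤ) ∣ p * c := by
        rw [← ZMod.intCast_zmod_eq_zero_iff_dvd]
        rw [← ha]
        push_cast
        rw [nsmul_eq_mul]
      rw [h1] at h3
      push_cast at h3
      rw [pow_succ, mul_comm] at h3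
      have hp0 : (p : ℤ) ≠ 0 := by exact_mod_cast hp.ne_zero
      obtain ⟨d, rfl⟩ := Int.dvd_of_mul_dvd_mul_left hp0 h3
      refine ⟨d, ?_, ?_⟩
      · rw [hf, mul_comm, mul_smul, ← h2]
        congr 1
        have : ((p : ℤ) ^ h) = ((p ^ h : ℕ) : ℤ) := by push_cast; rfl
        rw [this, natCast_zsmul]
      · intro ha0
        refine ⟨hs, fun h4 => ha0 ?_⟩
        obtain ⟨e, rfl⟩ := h4
        rw [ZMod.intCast_zmod_eq_zero_iff_dvd, h1]
        push_cast
        exact ⟨e, by ring⟩
  -- injectivity on the socle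
  have hinj1 : ∀ a : Π₀ i, ZMod (p ^ n i), p • a = 0 → F a = 0 → a = 0 := by
    intro a hpa hFa
    by_contra ha
    have hsup : a.support.Nonempty := by
      rw [Finset.nonempty_iff_ne_empty]
      intro h1
      exact ha (DFinsupp.support_eq_empty.1 h1)
    set i := a.support.max' hsup with hi
    have hpi : ∀ j, p • a j = 0 := by
      intro j
      have := congrArg (fun b : Π₀ i, ZMod (p ^ n i) => b j) hpa
      simpa using this
    choose c hc1 hc2 using fun j => hsoc j (a j) (hpi j)
    have hai : a i ≠ 0 := DFinsupp.mem_support_iff.1 (Finset.max'_mem _ _)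
    obtain ⟨hsi, hci⟩ := hc2 i hai
    have h1 : F a = ∑ j ∈ a.support, f j (a j) := by
      simp only [F]
      rw [DFinsupp.liftAddHom_apply, DFinsupp.sumAddHom_apply]
      rfl
    rw [hFa, ← Finset.add_sum_erase _ _ (Finset.max'_mem _ hsup), ← hi] at h1
    have h2 : ∑ j ∈ a.support.erase i, f j (a j) ∈ chain p v i := by
      refine sum_mem fun j hj => ?_
      rw [hc1]
      apply AddSubgroup.zsmul_mem
      have h3 : j < i := lt_of_le_of_ne (Finset.le_max' _ _ (Finset.mem_of_mem_erase hj))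
        (Finset.ne_of_mem_erase hj)
      exact chain_mono v h3 (sq_mem v j)
    have h3 : c i • sq p v i ∈ chain p v i := by
      have h4 : c i • sq p v i = -∑ j ∈ a.support.erase i, f j (a j) := by
        rw [← hc1]
        exact eq_neg_of_add_eq_zero_left h1.symm
      rw [h4]
      exact neg_mem h2
    have hcop : IsCoprime (p : ℤ) (c i) :=
      (Prime.coprime_iff_not_dvd (Nat.prime_iff_prime_int.1 hp)).2 hci
    obtain ⟨e, d, hed⟩ := hcop
    have h4 : sq p v i ∈ chain p v i := by
      have h5 : sq p v i = d • c i • sq p v i := by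
        rw [← mul_smul]
        have h6 : d * c i = 1 - e * p := by linear_combination hed
        rw [h6, sub_smul, one_smul, mul_smul, natCast_zsmul, hps, smul_zero, sub_zero]
      rw [h5]
      exact AddSubgroup.zsmul_mem _ h3 d
    rcases step_spec (p := p) (chain p v i) (v i) with h5 | h5
    · exact hsi h5
    · have h6 : Good p (chain p v i) (v i) (sq p v i) := h5
      apply h6.1
      have h7 : v i = sq p v i - (sq p v i - v i) := by abel
      rw [h7]
      exact sub_mem h4 h6.2.1
  have htor : ∀ a : Π₀ i, ZMod (p ^ n i), ∃ k : ℕ, p ^ k • a = 0 := by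
    intro a
    refine ⟨∑ i ∈ a.support, n i, ?_⟩
    ext i
    rw [DFinsupp.smul_apply, DFinsupp.zero_apply]
    by_cases hi : i ∈ a.support
    · have h1 : n i ≤ ∑ i ∈ a.support, n i := Finset.single_le_sum (f := n) (fun _ _ => Nat.zero_le _) hi
      obtain ⟨m, hm⟩ := Nat.exists_eq_add_of_le h1
      rw [hm, pow_add, mul_comm, mul_smul, nsmul_eq_mul (p ^ n i), ZMod.natCast_self, zero_mul,
        smul_zero]
    · rw [DFinsupp.notMem_support_iff.1 hi, smul_zero]
  have hinj : Function.Injective F := by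
    rw [injective_iff_map_eq_zero]
    intro a hFa
    obtain ⟨k, hk⟩ := htor a
    induction k with
    | zero => simpa using hk
    | succ k ih =>
      apply ih
      apply hinj1
      · rw [← mul_smul, ← pow_succ', hk]
      · rw [map_nsmul, hFa, smul_zero]
  -- surjectivity
  have hsq : ∀ m i, (∃ c : B, p ^ m • c = sq p v i) → ∃ a, p ^ m • F a = sq p v i := by
    intro m i hm
    by_cases hs : sq p v i = 0
    · exact ⟨0, by rw [map_zero, smul_zero, hs]⟩
    · obtain ⟨h, h1, h2, h3⟩ := hx1 i hs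
      have h4 := h3 m hm
      refine ⟨DFinsupp.single i (((p ^ (h - m) : ℕ) : ℤ) : ZMod (p ^ n i)), ?_⟩
      rw [hFs, hf, natCast_zsmul, ← mul_smul, ← pow_add, Nat.add_sub_cancel' h4, h2]
  have hsurj : ∀ k : ℕ, ∀ b : B, p ^ k • b = 0 → ∃ a, F a = b := by
    intro k
    induction k with
    | zero =>
      intro b hb
      exact ⟨0, by rw [map_zero]; simpa using hb.symm⟩
    | succ k ih =>
      intro b hb
      obtain ⟨i, hi⟩ := hv (p ^ k • b)
      have h1 : p • v i = 0 := by rw [hi, ← mul_smul, ← pow_succ', hb]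
      have h2 := mem_chain hp.pos h0 v i h1
      have h3 := adapted v k (i + 1) (v i) h2 ⟨b, hi.symm⟩
      have h4 : AddSubgroup.closure {s | ∃ i, s = sq p v i ∧ ∃ c : B, p ^ k • c = sq p v i} ≤
          AddMonoidHom.range ((nsmulAddMonoidHom (α := B) (p ^ k)).comp F) := by
        rw [AddSubgroup.closure_le]
        rintro s ⟨j, rfl, hj⟩
        obtain ⟨a, ha⟩ := hsq k j hj
        exact ⟨a, ha⟩
      obtain ⟨a, ha⟩ := h4 h3
      change p ^ k • F a = v i at ha
      obtain ⟨a', ha'⟩ := ih (b - F a) (by rw [smul_sub, ha, hi, sub_self])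
      exact ⟨a' + a, by rw [map_add, ha', sub_add_cancel]⟩
  refine ⟨ℕ, n, ⟨(AddEquiv.ofBijective F ⟨hinj, fun b => ?_⟩).symm⟩⟩
  obtain ⟨k, hk⟩ := hB b
  exact hsurj k b hk

end Pool.Agent.Lib_MP_fa2e48_dsc
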