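import Mathlib
import Pool.Agent.Lib_MP_fa2e48_dsc.D0
import Pool.Agent.Lib_MP_fa2e48_dsc.P
import Pool.Agent.Lib_MP_fa2e48_ulm.Chain

/-!
# Subgroups, quotients and the first step
-/

namespace Pool.Agent.Lib_MP_fa2e48_dsc

open Pool.Agent.Lib_MP_fa2e48_al

universe u v w u₁ u₂ u₃

theorem DSC_left {p : ℕ} {A : Type u} [AddCommGroup A] {μ κ : Ordinal.{0}} (hμ : μ ≤ κ)
    (h : DSC p A κ) : DSC p A μ := by
  classical
  obtain ⟨I, B, hB, hcount, q, hq, hker⟩ := h
  refine ⟨I, fun i => B i ⧸ ulm p (B i) μ, fun i => inferInstance, fun i => ?_,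
    (DFinsupp.mapRange.addMonoidHom fun i => QuotientAddGroup.mk' (ulm p (B i) μ)).comp q,
    ?_, ?_⟩
  · exact Function.Surjective.countable (QuotientAddGroup.mk_surjective (s := ulm p (B i) μ))
  · intro c
    have hs : Function.Surjective (DFinsupp.mapRange.addMonoidHom
        fun i => QuotientAddGroup.mk' (ulm p (B i) μ)) := by
      intro c
      refine ⟨DFinsupp.mapRange (fun i (b : B i ⧸ ulm p (B i) μ) =>
        if b = 0 then (0 : B i) else Quotient.out b) (fun i => if_pos rfl) c, ?_⟩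
      ext i
      rw [DFinsupp.mapRange.addMonoidHom_apply, DFinsupp.mapRange_apply, DFinsupp.mapRange_apply]
      by_cases h0 : c i = 0
      · rw [if_pos h0, map_zero, h0]
      · rw [if_neg h0]
        exact Quotient.out_eq (c i)
    obtain ⟨d, rfl⟩ := hs c
    obtain ⟨a, rfl⟩ := hq d
    exact ⟨a, rfl⟩
  · intro x
    rw [← mem_ulm_quot q hq (κ := κ) (fun y hy => (hker y).1 hy) μ hμ x, mem_ulm_dfinsupp,
      DFinsupp.ext_iff]
    refine forall_congr' fun i => ?_
    exact QuotientAddGroup.eq_zero_iff (q x i)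

theorem DSC_right {p : ℕ} {A : Type u} [AddCommGroup A] {μ ν : Ordinal.{0}}
    (h : DSC p A (μ + ν)) : DSC p (ulm p A μ) ν := by
  classical
  obtain ⟨I, B, hB, hcount, q, hq, hker⟩ := h
  have hle : μ ≤ μ + ν := le_self_add
  let J : (Π₀ i, ulm p (B i) μ) →+ Π₀ i, B i :=
    DFinsupp.mapRange.addMonoidHom fun i => (ulm p (B i) μ).subtype
  have hJapp : ∀ c i, J c i = (c i : B i) := fun c i => rfl
  have hJ : Function.Injective J := by
    intro c d hcd
    ext i
    rw [← hJapp, hcd, hJapp]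
  have hrange : ∀ c : Π₀ i, B i, (∀ i, c i ∈ ulm p (B i) μ) → c ∈ J.range := by
    intro c hc
    refine ⟨DFinsupp.mapRange (fun i b => if h : b ∈ ulm p (B i) μ then ⟨b, h⟩ else 0)
      (fun i => by
        rw [dif_pos (zero_mem _)]
        rfl) c, ?_⟩
    ext i
    rw [hJapp, DFinsupp.mapRange_apply, dif_pos (hc i)]
  have hmem : ∀ x : A, q x ∈ ulm p (Π₀ i, B i) μ ↔ x ∈ ulm p A μ :=
    mem_ulm_quot q hq (κ := μ + ν) (fun y hy => (hker y).1 hy) μ hle
  let e : (Π₀ i, ulm p (B i) μ) ≃+ J.range := AddMonoidHom.ofInjective hJ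
  have he : ∀ c, (e c : Π₀ i, B i) = J c := fun c => rfl
  let q1 : ulm p A μ →+ J.range := (q.comp (ulm p A μ).subtype).codRestrict J.range
    fun x => hrange _ (mem_ulm_dfinsupp.1 ((hmem x).2 x.2))
  let q' : ulm p A μ →+ Π₀ i, ulm p (B i) μ := e.symm.toAddMonoidHom.comp q1
  have hJq : ∀ x, J (q' x) = q x := by
    intro x
    rw [← he]
    show ((e (e.symm (q1 x)) : J.range) : Π₀ i, B i) = q x
    rw [AddEquiv.apply_symm_apply]
    rfl
  refine ⟨I, fun i => ulm p (B i) μ, fun i => inferInstance, fun i => inferInstance, q', ?_, ?_⟩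
  · intro c
    obtain ⟨x, hx⟩ := hq (J c)
    have h1 : x ∈ ulm p A μ := by
      rw [← hmem, hx, mem_ulm_dfinsupp]
      intro i
      rw [hJapp]
      exact (c i).2
    exact ⟨⟨x, h1⟩, hJ (by rw [hJq, hx])⟩
  · intro x
    rw [mem_ulm_ulm, ← hker, ← hJq, map_eq_zero_iff J hJ]

theorem step_one {p : ℕ} [Fact p.Prime] {A : Type u} [AddCommGroup A]
    (hA : ∀ a : A, ∃ k : ℕ, p ^ k • a = 0) (h : DSC p A 1) (hne : ulm p A 1 ≠ ⊥) :
    IsSlender (AddMonoid.End A) A ↔ IsSlender (AddMonoid.End (ulm p A 1)) (ulm p A 1) := by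
  classical
  obtain ⟨I, B, hB, hcount, q, hq, hker⟩ := h
  have hBp : ∀ i, ∀ b : B i, ∃ k : ℕ, p ^ k • b = 0 := by
    intro i b
    obtain ⟨a, ha⟩ := hq (DFinsupp.single i b)
    obtain ⟨k, hk⟩ := hA a
    refine ⟨k, ?_⟩
    have h1 : p ^ k • (DFinsupp.single i b : Π₀ i, B i) = 0 := by
      rw [← ha, ← map_nsmul, hk, map_zero]
    have h2 := DFunLike.congr_fun h1 i
    rwa [DFinsupp.smul_apply, DFinsupp.single_eq_same, DFinsupp.zero_apply] at h2
  have hB0 : ∀ i, infHeight p (B i) = ⊥ := by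
    intro i
    rw [Submodule.eq_bot_iff]
    intro b hb
    have h1 : b ∈ ulm p (B i) 1 := mem_ulm_one.2 hb
    obtain ⟨a, ha⟩ := hq (DFinsupp.single i b)
    have h2 : (DFinsupp.single i b : Π₀ i, B i) ∈ ulm p (Π₀ i, B i) 1 := by
      rw [mem_ulm_dfinsupp]
      intro j
      by_cases hj : i = j
      · subst hj
        rw [DFinsupp.single_eq_same]
        exact h1
      · rw [DFinsupp.single_eq_of_ne (Ne.symm hj)]
        exact zero_mem _
    rw [← ha, mem_ulm_quot q hq (κ := 1) (fun y hy => (hker y).1 hy) 1 le_rfl a, ← hker, ha] at h2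
    exact DFinsupp.single_eq_zero.1 h2
  choose ι n hn using fun i => sumOfCyclics_of_countable (hBp i) (hB0 i)
  have hke : q.ker = (infHeight p A).toAddSubgroup := by
    ext x
    rw [AddMonoidHom.mem_ker, hker, mem_ulm_one]
    rfl
  have hC : Pool.Agent.Lib_MP_fa2e48_ulm.IsSumOfCyclics
      (A ⧸ (infHeight p A).toAddSubgroup) := by
    refine ⟨Σ i, ι i, fun s => p ^ n s.1 s.2, ⟨?_⟩⟩
    have e1 : A ⧸ (infHeight p A).toAddSubgroup ≃+ A ⧸ q.ker :=
      QuotientAddGroup.quotientAddEquivOfEq hke.symm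
    have e2 : A ⧸ q.ker ≃+ Π₀ i, B i := QuotientAddGroup.quotientKerEquivOfSurjective q hq
    have e3 : (Π₀ i, B i) ≃+ Π₀ i, Π₀ j : ι i, ZMod (p ^ n i j) :=
      DFinsupp.mapRange.addEquiv fun i => (hn i).some
    have e4 : (DirectSum (Σ i, ι i) fun s => ZMod (p ^ n s.1 s.2)) ≃+
        DirectSum I fun i => DirectSum (ι i) fun j => ZMod (p ^ n i j) :=
      DirectSum.sigmaCurryEquiv (δ := fun i j => ZMod (p ^ n i j))
    exact ((e1.trans e2).trans e3).trans e4.symm
  have hne' : infHeight p A ≠ ⊥ := by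
    intro h0
    apply hne
    rw [AddSubgroup.eq_bot_iff_forall]
    intro x hx
    have h1 := mem_ulm_one.1 hx
    rw [h0] at h1
    exact h1
  have e5 : infHeight p A ≃+ ulm p A 1 :=
    { toFun := fun x => ⟨x, mem_ulm_one.2 x.2⟩
      invFun := fun x => ⟨x, mem_ulm_one.1 x.2⟩
      left_inv := fun x => rfl
      right_inv := fun x => rfl
      map_add' := fun x y => rfl }
  rw [Pool.Agent.Lib_MP_fa2e48_ulm.slender_step' hA hC hne']
  exact Pool.Agent.Lib_MP_fa2e48_ulm.slender_iff_of_equiv e5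

end Pool.Agent.Lib_MP_fa2e48_dsc
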