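import Mathlib
import Pool.Agent.Lib_MP_fa2e48_al.Defs

/-!
# Slenderness over the own endomorphism ring
-/

namespace Pool.Agent.Lib_MP_fa2e48_dsc

open Pool.Agent.Lib_MP_fa2e48_al

universe u v w u₁ u₂ u₃

/-- Restriction of endomorphisms to a fully invariant subgroup. -/
noncomputable def resH {A : Type u} [AddCommGroup A] (H : Submodule (AddMonoid.End A) A) :
    AddMonoid.End A →+* AddMonoid.End H :=
  Module.toAddMonoidEnd (AddMonoid.End A) H

theorem slender_own {A : Type u} [AddCommGroup A] (H : Submodule (AddMonoid.End A) A)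
    (h : IsSlender (AddMonoid.End A) H) : IsSlender (AddMonoid.End H) H := by
  intro g
  let f : (ℕ → AddMonoid.End A) →ₗ[AddMonoid.End A] H :=
    { toFun := fun x => g fun k => resH H (x k)
      map_add' := by
        intro x y
        rw [← map_add]
        congr 1
      map_smul' := by
        intro φ x
        have : (fun k => resH H ((φ • x) k)) = resH H φ • fun k => resH H (x k) := by
          funext k
          simp
        rw [this, map_smul]
        rfl }
  refine (h f).subset ?_
  intro n hn hn'
  apply hn
  have h1 : (fun k => resH H ((Pi.single n (1 : AddMonoid.End A) : ℕ → AddMonoid.End A) k)) =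
      Pi.single n (1 : AddMonoid.End H) := by
    funext k
    by_cases hk : k = n
    · subst hk
      rw [Pi.single_eq_same, Pi.single_eq_same, map_one]
    · rw [Pi.single_eq_of_ne hk, Pi.single_eq_of_ne hk, map_zero]
  rw [← h1]
  exact hn'

theorem slender_of_own {A : Type u} [AddCommGroup A] (H : Submodule (AddMonoid.End A) A)
    (hsurj : ∀ Φ : AddMonoid.End H, ∃ φ : AddMonoid.End A, ∀ h : H, φ h = Φ h)
    (kills : ∀ (f : (ℕ → AddMonoid.End A) →ₗ[AddMonoid.End A] H) (X : ℕ → AddMonoid.End A),
      (∀ k, ∀ h ∈ H, X k h = 0) → f X = 0)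
    (h : IsSlender (AddMonoid.End H) H) : IsSlender (AddMonoid.End A) H := by
  intro f
  have hsurj' : Function.Surjective (resH H) := by
    intro Φ
    obtain ⟨φ, hφ⟩ := hsurj Φ
    exact ⟨φ, AddMonoidHom.ext fun x => Subtype.ext (hφ x)⟩
  let s : AddMonoid.End H → AddMonoid.End A := Function.surjInv hsurj'
  have hs : ∀ Φ, resH H (s Φ) = Φ := Function.surjInv_eq hsurj'
  have hker : ∀ X Y : ℕ → AddMonoid.End A, (∀ k, resH H (X k) = resH H (Y k)) → f X = f Y := by
    intro X Y hXY
    rw [← sub_eq_zero, ← map_sub]
    refine kills f _ fun k y hy => ?_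
    show X k y - Y k y = 0
    have := congrArg (fun Φ : AddMonoid.End H => ((Φ ⟨y, hy⟩ : H) : A)) (hXY k)
    rw [sub_eq_zero]
    exact this
  let g : (ℕ → AddMonoid.End H) →ₗ[AddMonoid.End H] H :=
    { toFun := fun x => f fun k => s (x k)
      map_add' := by
        intro x y
        rw [← map_add]
        apply hker
        intro k
        rw [hs, Pi.add_apply, Pi.add_apply, map_add, hs, hs]
      map_smul' := by
        intro Φ x
        have h1 : f (fun k => s ((Φ • x) k)) = f (s Φ • fun k => s (x k)) := by
          apply hker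
          intro k
          rw [hs, Pi.smul_apply, Pi.smul_apply, smul_eq_mul, smul_eq_mul, map_mul, hs, hs]
        rw [h1, map_smul]
        have h2 : s Φ • f (fun k => s (x k)) = resH H (s Φ) (f fun k => s (x k)) := rfl
        rw [h2, hs]
        rfl }
  refine (h g).subset ?_
  intro n hn hn'
  apply hn
  rw [← hn']
  show f (Pi.single n 1) = f fun k => s _
  apply hker
  intro k
  rw [hs]
  by_cases hk : k = n
  · subst hk
    rw [Pi.single_eq_same, Pi.single_eq_same, map_one]
  · rw [Pi.single_eq_of_ne hk, Pi.single_eq_of_ne hk, map_zero]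

end Pool.Agent.Lib_MP_fa2e48_dsc
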