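import Mathlib
import Pool.Agent.Lib_MP_fa2e48_dsc.D1

/-!
# From `A` to `ulm p A κs`
-/

namespace Pool.Agent.Lib_MP_fa2e48_dsc

open Pool.Agent.Lib_MP_fa2e48_al

universe u v w u₁ u₂ u₃

/-- Separation of an element outside `ulm p B μ`. -/
theorem sep {p : ℕ} [Fact p.Prime] {B : Type u} [AddCommGroup B] [Countable B]
    (hB : ∀ b : B, ∃ k : ℕ, p ^ k • b = 0) {A' : Type v} [AddCommGroup A'] {μ : Ordinal.{0}}
    {Q : Ordinal.{0} → ℕ → AddSubgroup A'} (hQ : TQ p μ Q) {c : B} (hc : c ∉ ulm p B μ) {s₀ : A'}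
    (hs : p • s₀ = 0) (hsQ : ∀ κ < μ, ∀ m, s₀ ∈ Q κ m) :
    ∃ g : B →+ A', (∀ b ∈ ulm p B μ, g b = 0) ∧ (∃ j : ℕ, g (p ^ j • c) = s₀) ∧
      ∀ κ < μ, ∀ m, ∀ b ∈ pu p B κ m, g b ∈ Q κ m := by
  classical
  have hp : p.Prime := Fact.out
  -- the element `c'`
  obtain ⟨j, hj1, hj2⟩ : ∃ j : ℕ, p ^ j • c ∉ ulm p B μ ∧ p ^ (j + 1) • c ∈ ulm p B μ := by
    have hex : ∃ k : ℕ, p ^ k • c ∈ ulm p B μ := by
      obtain ⟨k, hk⟩ := hB c
      exact ⟨k, by rw [hk]; exact zero_mem _⟩
    have h0 : Nat.find hex ≠ 0 := by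
      intro h0
      have := Nat.find_spec hex
      rw [h0, pow_zero, one_smul] at this
      exact hc this
    refine ⟨Nat.find hex - 1, Nat.find_min hex (by omega), ?_⟩
    rw [Nat.sub_add_cancel (by omega)]
    exact Nat.find_spec hex
  obtain ⟨c', hc'⟩ : ∃ c' : B, c' = p ^ j • c := ⟨_, rfl⟩
  have hc1 : c' ∉ ulm p B μ := by rw [hc']; exact hj1
  have hc2 : p • c' ∈ ulm p B μ := by
    rw [hc', smul_smul, ← pow_succ']; exact hj2
  -- multiples of `c'` in `ulm`
  have hdiv : ∀ a : ℤ, a • c' ∈ ulm p B μ → a • s₀ = 0 := by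
    intro a ha
    have hpa : (p : ℤ) ∣ a := by
      by_contra hna
      have hcop : IsCoprime (p : ℤ) a := by
        rw [Int.isCoprime_iff_gcd_eq_one]
        have := (Nat.Prime.coprime_iff_not_dvd hp (n := a.natAbs)).2 (by
          intro h
          exact hna (Int.natCast_dvd.2 h))
        rw [Int.gcd]
        simpa using this
      obtain ⟨x, y, hxy⟩ := hcop
      apply hc1
      have h1 : c' = x • (p • c') + y • (a • c') := by
        rw [← natCast_zsmul c' p, smul_smul, smul_smul, ← add_smul, hxy, one_smul]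
      rw [h1]
      exact add_mem ((ulm p B μ).zsmul_mem hc2 _) ((ulm p B μ).zsmul_mem ha _)
    obtain ⟨b, rfl⟩ := hpa
    rw [mul_comm, mul_smul, natCast_zsmul, hs, smul_zero]
  let f : B → A' := fun x => if hx : ∃ a : ℤ, x - a • c' ∈ ulm p B μ then hx.choose • s₀ else 0
  have hf : ∀ x : B, ∀ a : ℤ, x - a • c' ∈ ulm p B μ → f x = a • s₀ := by
    intro x a ha
    have hx : ∃ a : ℤ, x - a • c' ∈ ulm p B μ := ⟨a, ha⟩
    have h1 : f x = hx.choose • s₀ := dif_pos hx
    have h2 := hx.choose_spec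
    have h3 : (hx.choose - a) • c' ∈ ulm p B μ := by
      have := sub_mem ha h2
      have h4 : x - a • c' - (x - hx.choose • c') = (hx.choose - a) • c' := by
        rw [sub_smul]; abel
      rwa [h4] at this
    have h5 := hdiv _ h3
    rw [sub_smul, sub_eq_zero] at h5
    rw [h1, h5]
  obtain ⟨K, hK⟩ : ∃ K : AddSubgroup B, K = ulm p B μ ⊔ AddSubgroup.zmultiples c' := ⟨_, rfl⟩
  have hKmem : ∀ x ∈ K, ∃ a : ℤ, x - a • c' ∈ ulm p B μ := by
    intro x hx
    rw [hK, AddSubgroup.mem_sup] at hx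
    obtain ⟨y, hy, z, hz, rfl⟩ := hx
    obtain ⟨a, rfl⟩ := AddSubgroup.mem_zmultiples_iff.1 hz
    exact ⟨a, by rwa [add_sub_cancel_right]⟩
  have hPH : PH p μ Q K f := by
    refine ⟨?_, ?_⟩
    · intro x hx y hy
      obtain ⟨a, ha⟩ := hKmem x hx
      obtain ⟨b, hb⟩ := hKmem y hy
      rw [hf x a ha, hf y b hb, hf (x + y) (a + b) (by
        have := add_mem ha hb
        have h4 : x - a • c' + (y - b • c') = x + y - (a + b) • c' := by
          rw [add_smul]; abel
        rwa [h4] at this), add_smul]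
    · intro κ hκ m x hx _
      obtain ⟨a, ha⟩ := hKmem x hx
      rw [hf x a ha]
      exact (Q κ m).zsmul_mem (hsQ κ hκ m) _
  have hFo : Fo (ulm p B μ) K := by
    rw [hK]
    have h0 : Fo (ulm p B μ) (ulm p B μ) := ⟨le_rfl, {0}, by simp, by
      intro k hk
      exact ⟨0, by simp, by rwa [sub_zero]⟩⟩
    exact fo_sup (p := p) (M := 1) h0 (by rwa [pow_one])
  obtain ⟨e, he⟩ := exists_surjective_nat B
  obtain ⟨g', hg', hg'K⟩ := extE hB hQ hPH hFo (L := ⊤) le_top ⟨e, fun _ => trivial, by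
    intro x _
    obtain ⟨n, rfl⟩ := he x
    exact ⟨n, by rw [sub_self]; exact zero_mem _⟩⟩
  have hc'K : c' ∈ K := by
    rw [hK]
    exact (le_sup_right : AddSubgroup.zmultiples c' ≤ _) (AddSubgroup.mem_zmultiples _)
  have huK : ∀ b ∈ ulm p B μ, b ∈ K := by
    intro b hb
    rw [hK]
    exact (le_sup_left : ulm p B μ ≤ _) hb
  refine ⟨AddMonoidHom.mk' g' (fun x y => hg'.add x trivial y trivial), ?_, ⟨j, ?_⟩, ?_⟩
  · intro b hb
    show g' b = 0
    rw [hg'K b (huK b hb), hf b 0 (by rwa [zero_smul, sub_zero]), zero_smul]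
  · show g' (p ^ j • c) = s₀
    rw [← hc', hg'K c' hc'K, hf c' 1 (by rw [one_smul, sub_self]; exact zero_mem _), one_smul]
  · intro κ hκ m b hb
    exact hg'.hc κ hκ m b trivial hb

private theorem tq_pu {p : ℕ} {A : Type u} [AddCommGroup A] (κs σ : Ordinal.{0}) :
    TQ p κs (fun κ m => pu p A (σ + κ) m) where
  anti := fun h => pu_anti h
  lt := fun h _ m n => pu_le_pu (by gcongr) m n
  mul := fun hx => pu_smul hx _
  div := fun hx => pu_div hx

private theorem tq_pu' {p : ℕ} {A : Type u} [AddCommGroup A] (κs : Ordinal.{0}) :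
    TQ p κs (fun κ m => pu p A κ m) where
  anti := fun h => pu_anti h
  lt := fun h _ m n => pu_le_pu h m n
  mul := fun hx => pu_smul hx _
  div := fun hx => pu_div hx

theorem slender_of_ulmS {p : ℕ} [Fact p.Prime] {κs : Ordinal.{0}} (hlim : Order.IsSuccLimit κs)
    (hκs : κs.card ≤ Cardinal.aleph0) (hprin : ∀ μ < κs, ∀ ν < κs, μ + ν < κs)
    {A : Type u} [AddCommGroup A] (hA : ∀ a : A, ∃ k : ℕ, p ^ k • a = 0) {I : Type v}
    {B : I → Type w} [∀ i, AddCommGroup (B i)] [∀ i, Countable (B i)] (q : A →+ Π₀ i, B i)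
    (hq : Function.Surjective q) (hker : ∀ x, q x = 0 ↔ x ∈ ulm p A κs)
    (hne : ulm p A κs ≠ ⊥)
    (h : IsSlender (AddMonoid.End A) (ulmS p A κs)) : IsSlender (AddMonoid.End A) A := by
  classical
  have hκpos : (0 : Ordinal.{0}) < κs := hlim.bot_lt
  -- the components are `p`-groups
  have hBi : ∀ i, ∀ b : B i, ∃ k : ℕ, p ^ k • b = 0 := by
    intro i b
    obtain ⟨a, ha⟩ := hq (DFinsupp.single i b)
    obtain ⟨k, hk⟩ := hA a
    refine ⟨k, ?_⟩
    have h1 : q (p ^ k • a) = 0 := by rw [hk, map_zero]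
    rw [map_nsmul, ha] at h1
    have h2 := DFunLike.congr_fun h1 i
    simpa using h2
  -- the element `s₀`
  obtain ⟨s₀, hs₀u, hs₀ne, hs₀p⟩ : ∃ s₀ : A, s₀ ∈ ulm p A κs ∧ s₀ ≠ 0 ∧ p • s₀ = 0 := by
    obtain ⟨⟨a, ha⟩, ha0'⟩ := AddSubgroup.ne_bot_iff_exists_ne_zero.1 hne
    have ha0 : a ≠ 0 := fun h0 => ha0' (Subtype.ext h0)
    have hex : ∃ k : ℕ, p ^ k • a = 0 := hA a
    have h0 : Nat.find hex ≠ 0 := by
      intro h0
      have := Nat.find_spec hex
      rw [h0, pow_zero, one_smul] at this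
      exact ha0 this
    refine ⟨p ^ (Nat.find hex - 1) • a, (ulm p A κs).nsmul_mem ha _,
      Nat.find_min hex (by omega), ?_⟩
    rw [smul_smul, ← pow_succ', Nat.sub_add_cancel (by omega)]
    exact Nat.find_spec hex
  -- a cofinal sequence
  obtain ⟨κn, hκn, hκcof⟩ : ∃ κn : ℕ → Ordinal.{0}, (∀ n, κn n < κs) ∧
      ∀ μ < κs, ∃ N, ∀ n, N ≤ n → μ ≤ κn n := by
    have hcount : Countable (Set.Iio κs) := by
      have h1 : Cardinal.mk (Set.Iio κs) ≤ Cardinal.aleph0 := by
        rw [Cardinal.mk_Iio_ordinal]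
        exact (Cardinal.lift_le.2 hκs).trans (by rw [Cardinal.lift_aleph0])
      exact Cardinal.mk_le_aleph0_iff.1 h1
    have hnonempty : Nonempty (Set.Iio κs) := ⟨⟨0, hκpos⟩⟩
    obtain ⟨e, he⟩ := exists_surjective_nat (Set.Iio κs)
    refine ⟨fun n => (partialSups e n : Set.Iio κs), fun n => (partialSups e n).2, ?_⟩
    intro μ hμ
    obtain ⟨N, hN⟩ := he ⟨μ, hμ⟩
    refine ⟨N, fun n hn => ?_⟩
    have := le_partialSups_of_le e hn
    rw [hN] at this
    exact this
  -- the map to the component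
  let comp : ∀ i : I, A →+ B i := fun i =>
    { toFun := fun x => q x i
      map_zero' := by rw [map_zero]; rfl
      map_add' := fun x y => by rw [map_add]; rfl }
  have hcomp : ∀ i x, comp i x = q x i := fun _ _ => rfl
  -- multipliers
  have hφ : ∀ (n : ℕ) (z : A), z ≠ 0 → ∃ φ : AddMonoid.End A, (∀ x, φ x ∈ ulm p A (κn n)) ∧
      φ z ∈ ulm p A κs ∧ φ z ≠ 0 := by
    intro n z hz
    by_cases hzu : z ∈ ulm p A κs
    · obtain ⟨F, hF1, hF2⟩ := ext_all hA (tq_pu κs (κn n)) q hq hker (fun x => x)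
        ⟨fun _ _ _ _ => rfl, fun κ hκ m x hx _ =>
          ulm_le_pu (hprin _ (hκn n) _ hκ) m hx⟩
      refine ⟨F, ?_, ?_, ?_⟩
      · intro x
        have := hF2 0 hκpos 0 x (by rw [pu_zero, ulm_zero]; trivial)
        change F x ∈ pu p A (κn n + 0) 0 at this
        rwa [pu_zero, add_zero] at this
      · have := hF1 z hzu
        change F z ∈ _
        rwa [this]
      · have := hF1 z hzu
        change F z ≠ 0
        rwa [this]
    · have h1 : q z ∉ ulm p (Π₀ i, B i) κs := fun h2 =>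
        hzu ((mem_ulm_quot q hq (fun x hx => (hker x).1 hx) κs le_rfl z).1 h2)
      rw [mem_ulm_dfinsupp] at h1
      push Not at h1
      obtain ⟨i, hi⟩ := h1
      obtain ⟨g, hg1, ⟨j, hj⟩, hg2⟩ := sep (hBi i) (tq_pu (A := A) κs (κn n)) hi hs₀p
        (fun κ hκ m => ulm_le_pu (hprin _ (hκn n) _ hκ) m hs₀u)
      refine ⟨((p ^ j) • (g.comp (comp i)) : A →+ A), ?_, ?_, ?_⟩
      · intro x
        show p ^ j • g (q x i) ∈ _
        refine (ulm p A (κn n)).nsmul_mem ?_ _
        have := hg2 0 hκpos 0 (q x i) (by rw [pu_zero, ulm_zero]; trivial)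
        change g (q x i) ∈ pu p A (κn n + 0) 0 at this
        rwa [pu_zero, add_zero] at this
      · show p ^ j • g (q z i) ∈ _
        rw [← map_nsmul, hj]
        exact hs₀u
      · show p ^ j • g (q z i) ≠ 0
        rw [← map_nsmul, hj]
        exact hs₀ne
  intro f
  -- star
  have hstar : ∀ (μ : Ordinal.{0}), μ < κs → ∀ Φ : ℕ → AddMonoid.End A,
      (∀ k, ∀ x, Φ k x ∈ ulm p A μ) → f Φ ∈ ulm p A μ := by
    intro μ hμ Φ hΦ
    by_contra hcon
    have h1 : q (f Φ) ∉ ulm p (Π₀ i, B i) μ := fun h2 =>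
      hcon ((mem_ulm_quot q hq (fun x hx => (hker x).1 hx) μ hμ.le _).1 h2)
    rw [mem_ulm_dfinsupp] at h1
    push Not at h1
    obtain ⟨i, hi⟩ := h1
    obtain ⟨g, hg1, ⟨j, hj⟩, hg2⟩ := sep (hBi i) (tq_pu' (A := A) μ) hi hs₀p
      (fun κ hκ m => ulm_le_pu (hκ.trans hμ) m hs₀u)
    let ε : AddMonoid.End A := g.comp (comp i)
    have hε : ∀ x, ε x = g (q x i) := fun _ => rfl
    have h2 : ε • Φ = 0 := by
      funext k
      ext x
      show ε (Φ k x) = 0
      rw [hε]
      exact hg1 _ (map_ulm (comp i) μ _ (hΦ k x))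
    have h3 : f (ε • Φ) = ε (f Φ) := by rw [map_smul]; rfl
    rw [h2, map_zero, hε] at h3
    rw [map_nsmul, ← h3, smul_zero] at hj
    exact hs₀ne hj.symm
  by_contra hinf
  choose! φ' hφ'1 hφ'2 hφ'3 using hφ
  let φ : ℕ → AddMonoid.End A := fun n =>
    if f (Pi.single n 1) = 0 then 0 else φ' n (f (Pi.single n 1))
  have hφ1 : ∀ n x, φ n x ∈ ulm p A (κn n) := by
    intro n x
    by_cases h0 : f (Pi.single n 1) = 0
    · have : φ n = 0 := if_pos h0
      rw [this]
      exact zero_mem _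
    · have : φ n = φ' n (f (Pi.single n 1)) := if_neg h0
      rw [this]
      exact hφ'1 n _ h0 x
  have hφ2 : ∀ n, φ n (f (Pi.single n 1)) ∈ ulm p A κs := by
    intro n
    by_cases h0 : f (Pi.single n 1) = 0
    · rw [h0, map_zero]
      exact zero_mem _
    · have : φ n = φ' n (f (Pi.single n 1)) := if_neg h0
      rw [this]
      exact hφ'2 n _ h0
  have hφ3 : ∀ n, f (Pi.single n 1) ≠ 0 → φ n (f (Pi.single n 1)) ≠ 0 := by
    intro n h0
    have : φ n = φ' n (f (Pi.single n 1)) := if_neg h0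
    rw [this]
    exact hφ'3 n _ h0
  have hsingle : ∀ (n : ℕ) (a : AddMonoid.End A), f (Pi.single n a) = a (f (Pi.single n 1)) := by
    intro n a
    have h1 : (Pi.single n a : ℕ → AddMonoid.End A) = a • Pi.single n 1 := by
      funext m
      by_cases hm : m = n
      · subst hm
        simp
      · simp [Pi.single_eq_of_ne hm]
    rw [h1, map_smul]
    rfl
  let g : (ℕ → AddMonoid.End A) →ₗ[AddMonoid.End A] A :=
    { toFun := fun x => f (fun n => x n * φ n)
      map_add' := fun x y => by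
        rw [← map_add]
        congr 1
      map_smul' := fun a x => by
        show f (fun n => (a • x n) * φ n) = a • f (fun n => x n * φ n)
        rw [← map_smul]
        congr 1 }
  have hg : ∀ x, g x = f (fun n => x n * φ n) := fun _ => rfl
  have hgmem : ∀ x, g x ∈ ulmS p A κs := by
    intro x
    rw [mem_ulmS, mem_ulm_limit hlim]
    intro μ hμ
    obtain ⟨N, hN⟩ := hκcof μ hμ
    have hdec : (fun n => x n * φ n) = (∑ n ∈ Finset.range N, Pi.single n (x n * φ n))
        + (fun n => if n < N then 0 else x n * φ n) := by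
      funext m
      rw [Pi.add_apply, Finset.sum_apply]
      by_cases hm : m < N
      · rw [Finset.sum_eq_single m, Pi.single_eq_same, if_pos hm, add_zero]
        · intro b _ hb
          exact Pi.single_eq_of_ne (Ne.symm hb) _
        · intro h0
          exact absurd (Finset.mem_range.2 hm) h0
      · rw [if_neg hm, Finset.sum_eq_zero, zero_add]
        intro b hb
        have : b ≠ m := by
          intro h0
          rw [h0] at hb
          exact hm (Finset.mem_range.1 hb)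
        exact Pi.single_eq_of_ne (Ne.symm this) _
    rw [hg, hdec, map_add, map_sum]
    refine add_mem (sum_mem ?_) (hstar μ hμ _ ?_)
    · intro n _
      rw [hsingle]
      have h1 : (x n * φ n) (f (Pi.single n 1)) = x n (φ n (f (Pi.single n 1))) := rfl
      rw [h1]
      exact ulm_anti hμ.le (map_ulm (x n : A →+ A) κs _ (hφ2 n))
    · intro k y
      by_cases hk : k < N
      · rw [if_pos hk]
        exact zero_mem _
      · rw [if_neg hk]
        have h1 : (x k * φ k) y = x k (φ k y) := rfl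
        rw [h1]
        exact map_ulm (x k : A →+ A) μ _ (ulm_anti (hN k (by omega)) (hφ1 k y))
  apply hinf
  refine (h (g.codRestrict (ulmS p A κs) hgmem)).subset ?_
  intro n hn
  have hn' : f (Pi.single n 1) ≠ 0 := hn
  show g.codRestrict (ulmS p A κs) hgmem (Pi.single n 1) ≠ 0
  intro h0
  have h1 : g (Pi.single n 1) = 0 := congrArg Subtype.val h0
  have h2 : (fun m => (Pi.single n 1 : ℕ → AddMonoid.End A) m * φ m) = Pi.single n (φ n) := by
    funext m
    by_cases hm : m = n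
    · subst hm
      simp
    · simp [Pi.single_eq_of_ne hm]
  rw [hg, h2, hsingle] at h1
  exact hφ3 n hn' h1

end Pool.Agent.Lib_MP_fa2e48_dsc
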