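import Mathlib
import Pool.Agent.Lib_MP_fa2e48_dsc.KK
import Pool.Agent.Lib_MP_fa2e48_dsc.Two
import Pool.Agent.Lib_MP_fa2e48_dsc.O
import Pool.Agent.Lib_MP_fa2e48_dsc.M1

/-!
# The reduction theorem
-/

namespace Pool.Agent.Lib_MP_fa2e48_dsc

open Pool.Agent.Lib_MP_fa2e48_al

universe u v w u₁ u₂ u₃

theorem mem_divPart_ulm {p : ℕ} {A : Type u} [AddCommGroup A] (κ : Ordinal.{0}) :
    ∀ d ∈ divPart p A, d ∈ ulm p A κ := by
  induction κ using WellFoundedLT.induction with
  | ind κ ih =>
    rintro d ⟨s, rfl, hs⟩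
    rw [mem_ulm]
    intro μ hμ m
    refine ⟨s m, ih μ hμ _ ⟨fun i => s (m + i), rfl, fun i => hs (m + i)⟩, ?_⟩
    induction m with
    | zero => simp
    | succ n ihn => rw [pow_succ, mul_smul, hs, ihn]

theorem divPart_ulm {p : ℕ} {A : Type u} [AddCommGroup A] (κ : Ordinal.{0}) (h : ulm p A κ) :
    h ∈ divPart p (ulm p A κ) ↔ (h : A) ∈ divPart p A := by
  constructor
  · rintro ⟨s, rfl, hs⟩
    exact ⟨fun i => s i, rfl, fun i => congrArg Subtype.val (hs i)⟩
  · rintro ⟨s, h0, hs⟩
    have hmem : ∀ i, s i ∈ ulm p A κ := fun i =>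
      mem_divPart_ulm κ _ ⟨fun j => s (i + j), rfl, fun j => hs (i + j)⟩
    exact ⟨fun i => ⟨s i, hmem i⟩, Subtype.ext h0, fun i => Subtype.ext (hs i)⟩

theorem ulm_torsion {p : ℕ} {A : Type u} [AddCommGroup A]
    (hA : ∀ a : A, ∃ k : ℕ, p ^ k • a = 0) (κ : Ordinal.{0}) :
    ∀ a : ulm p A κ, ∃ k : ℕ, p ^ k • a = 0 := by
  intro a
  obtain ⟨k, hk⟩ := hA a
  exact ⟨k, Subtype.ext hk⟩

theorem step_prin {p : ℕ} [Fact p.Prime] {A : Type u} [AddCommGroup A]
    (hA : ∀ a : A, ∃ k : ℕ, p ^ k • a = 0) {κ : Ordinal.{0}} (hlim : Order.IsSuccLimit κ)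
    (hκ : κ.card ≤ Cardinal.aleph0) (hprin : ∀ μ < κ, ∀ ν < κ, μ + ν < κ) (h : DSC p A κ)
    (hne : ulm p A κ ≠ ⊥) :
    IsSlender (AddMonoid.End A) A ↔ IsSlender (AddMonoid.End (ulm p A κ)) (ulm p A κ) := by
  by_cases hD : divPart p A = ⊥
  · obtain ⟨I, B, _, _, q, hq, hker⟩ := h
    have h1 : IsSlender (AddMonoid.End A) A ↔ IsSlender (AddMonoid.End A) (ulmS p A κ) := by
      constructor
      · intro h f
        refine (h ((ulmS p A κ).subtype.comp f)).subset ?_
        intro n hn hn'
        exact hn (Subtype.ext hn')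
      · exact slender_of_ulmS hlim hκ hprin hA q hq hker hne
    have h2 : IsSlender (AddMonoid.End A) (ulmS p A κ) ↔
        IsSlender (AddMonoid.End (ulmS p A κ)) (ulmS p A κ) := by
      constructor
      · exact slender_own _
      · refine slender_of_own _ ?_ ?_
        · intro Φ
          have hf₀ : PH p κ (pu p A) (ulm p A κ)
              (fun x => open Classical in if hx : x ∈ ulm p A κ then
                ((Φ ⟨x, hx⟩ : ulmS p A κ) : A) else 0) := by
            constructor
            · intro x hx y hy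
              simp only [dif_pos hx, dif_pos hy, dif_pos (add_mem hx hy)]
              have : (⟨x + y, add_mem hx hy⟩ : ulmS p A κ) = ⟨x, hx⟩ + ⟨y, hy⟩ := rfl
              rw [this, map_add]
              rfl
            · intro μ hμ m x hx _
              simp only [dif_pos hx]
              exact ulm_le_pu hμ m (Φ ⟨x, hx⟩).2
          obtain ⟨F, hF, -⟩ := ext_all hA (tq_pu p κ A) q hq hker _ hf₀
          refine ⟨F, fun h => ?_⟩
          have h3 := hF h h.2
          rw [dif_pos (show (h : A) ∈ ulm p A κ from h.2)] at h3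
          exact h3
        · intro f X hX
          exact kills hlim hκ hA q hq hker hD hne f X hX
    exact h1.trans h2
  · have hD' : divPart p (ulm p A κ) ≠ ⊥ := by
      obtain ⟨d, hd, hd0⟩ := (Submodule.ne_bot_iff _).1 hD
      exact (Submodule.ne_bot_iff _).2 ⟨⟨d, mem_divPart_ulm κ d hd⟩,
        (divPart_ulm κ _).2 hd, fun h => hd0 (congrArg Subtype.val h)⟩
    rw [Lib_MP_fa2e48_ulm.slender_iff_of_nonreduced hA hD,
      Lib_MP_fa2e48_ulm.slender_iff_of_nonreduced (ulm_torsion hA κ) hD']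
    have himg : {d : A | d ∈ divPart p A ∧ p • d = 0} =
        Subtype.val '' {d : ulm p A κ | d ∈ divPart p (ulm p A κ) ∧ p • d = 0} := by
      ext d
      constructor
      · rintro ⟨h1, h2⟩
        exact ⟨⟨d, mem_divPart_ulm κ d h1⟩, ⟨(divPart_ulm κ _).2 h1, Subtype.ext h2⟩, rfl⟩
      · rintro ⟨d, ⟨h1, h2⟩, rfl⟩
        exact ⟨(divPart_ulm κ _).1 h1, congrArg Subtype.val h2⟩
    rw [himg, Set.infinite_image_iff Subtype.val_injective.injOn]

theorem slender_iff {p : ℕ} [Fact p.Prime] (κ : Ordinal.{0}) (hκ : κ.card ≤ Cardinal.aleph0) :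
    ∀ (A : Type u) [AddCommGroup A] (hA : ∀ a : A, ∃ k : ℕ, p ^ k • a = 0) (h : DSC p A κ)
    (hne : ulm p A κ ≠ ⊥),
    IsSlender (AddMonoid.End A) A ↔ IsSlender (AddMonoid.End (ulm p A κ)) (ulm p A κ) := by
  induction κ using WellFoundedLT.induction with
  | ind κ ih =>
    intro A _ hA h hne
    by_cases hsum : ∃ μ < κ, ∃ ν < κ, μ + ν = κ
    · obtain ⟨μ, hμ, ν, hν, rfl⟩ := hsum
      have hμne : ulm p A μ ≠ ⊥ := by
        intro h0
        apply hne
        rw [eq_bot_iff, ← h0]
        exact ulm_anti hμ.le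
      have hνne : ulm p (ulm p A μ) ν ≠ ⊥ := by
        intro h0
        apply hne
        rw [AddSubgroup.eq_bot_iff_forall]
        intro x hx
        have h1 : (⟨x, ulm_anti hμ.le hx⟩ : ulm p A μ) ∈ ulm p (ulm p A μ) ν :=
          (mem_ulm_ulm μ ν _).2 hx
        rw [h0, AddSubgroup.mem_bot] at h1
        exact congrArg Subtype.val h1
      rw [ih μ hμ ((Ordinal.card_le_card hμ.le).trans hκ) A hA (DSC_left hμ.le h) hμne,
        ih ν hν ((Ordinal.card_le_card hν.le).trans hκ) (ulm p A μ) (ulm_torsion hA μ)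
          (DSC_right h) hνne]
      let e : ulm p (ulm p A μ) ν ≃+ ulm p A (μ + ν) :=
        { toFun := fun x => ⟨x.1.1, (mem_ulm_ulm μ ν x.1).1 x.2⟩
          invFun := fun x => ⟨⟨x.1, ulm_anti le_self_add x.2⟩, (mem_ulm_ulm μ ν _).2 x.2⟩
          left_inv := fun x => rfl
          right_inv := fun x => rfl
          map_add' := fun x y => rfl }
      exact Lib_MP_fa2e48_ulm.slender_iff_of_equiv e
    · by_cases h0 : κ = 0
      · subst h0
        let e : A ≃+ ulm p A 0 :=
          { toFun := fun x => ⟨x, by rw [ulm_zero]; trivial⟩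
            invFun := fun x => x.1
            left_inv := fun x => rfl
            right_inv := fun x => rfl
            map_add' := fun x y => rfl }
        exact Lib_MP_fa2e48_ulm.slender_iff_of_equiv e
      · by_cases h1 : κ = 1
        · subst h1
          exact step_one hA h hne
        · have hpos : 0 < κ := pos_iff_ne_zero.2 h0
          have hone : 1 < κ := lt_of_le_of_ne (Order.one_le_iff_pos.2 hpos) (Ne.symm h1)
          have hprin : ∀ μ < κ, ∀ ν < κ, μ + ν < κ := by
            intro μ hμ ν hν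
            by_contra hc
            rw [not_lt] at hc
            apply hsum
            refine ⟨μ, hμ, κ - μ, ?_, Ordinal.add_sub_cancel_of_le hμ.le⟩
            exact (Ordinal.sub_le.2 hc).trans_lt hν
          have hlim : Order.IsSuccLimit κ := by
            refine ⟨fun hmin => h0 (by simpa using hmin), ?_⟩
            intro μ hμ
            have h2 := hprin μ hμ.lt 1 hone
            exact hμ.2 (lt_add_one μ) h2
          exact step_prin hA hlim hκ hprin h hne

end Pool.Agent.Lib_MP_fa2e48_dsc
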