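import Mathlib
import Pool.Agent.Lib_MP_fa2e48_al.Defs
import Pool.Agent.Lib_MP_fa2e48_al.DSC
import Pool.Agent.Lib_MP_fa2e48_dsc.Defs
import Pool.Agent.Lib_MP_fa2e48_dsc.M2

/-!
# Mader's question: reduction along quotients that are direct sums of countable groups

The definitions used in the statement are `IsSlender`, `IsTorsionComplete`
(`Pool/Agent/Lib_MP_fa2e48_al/Defs.lean`), `ulm` and `IsSumOfCountable`
(`Pool/Agent/Lib_MP_fa2e48_dsc/Defs.lean`).
-/

namespace Pool.Agent.Lib_MP_fa2e48_dsc.UlmDscReductionOld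

open Pool.Agent.Lib_MP_fa2e48_al Pool.Agent.Lib_MP_fa2e48_dsc

/-- Let `A` be a `p`-group and `κ` a countable ordinal such that `U = p ^ (ω κ) A` is nonzero and
`A / U` is a direct sum of countable groups.  Then `A` is slender over its endomorphism ring iff `U`
is slender over its own endomorphism ring.  If moreover `p ^ ω U = 0`, this holds iff either
`p ^ (k + 1) U = 0` and `p ^ k U` is infinite for some `k`, or `U` is unbounded and not
torsion-complete.  If `U` is a direct sum of countable groups, this holds iff `0` is the only finite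
fully invariant subgroup of `U`. -/
theorem result (p : ℕ) [Fact p.Prime] (A : Type*) [AddCommGroup A]
    (hA : ∀ a : A, ∃ k : ℕ, p ^ k • a = 0) (κ : Ordinal.{0}) (hκ : κ.card ≤ Cardinal.aleph0)
    (hC : IsSumOfCountable (A ⧸ ulm p A κ)) (hne : ulm p A κ ≠ ⊥) :
    (IsSlender (AddMonoid.End A) A ↔ IsSlender (AddMonoid.End (ulm p A κ)) (ulm p A κ)) ∧
    (ulm p A (κ + 1) = ⊥ → (IsSlender (AddMonoid.End A) A ↔
      (∃ k : ℕ, (∀ a ∈ ulm p A κ, p ^ (k + 1) • a = 0) ∧
        ((fun a : A => p ^ k • a) '' (ulm p A κ : Set A)).Infinite) ∨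
      ((∀ k : ℕ, ∃ a ∈ ulm p A κ, p ^ k • a ≠ 0) ∧ ¬ IsTorsionComplete p (ulm p A κ)))) ∧
    (IsSumOfCountable (ulm p A κ) → (IsSlender (AddMonoid.End A) A ↔
      ∀ N : AddSubgroup (ulm p A κ), (∀ φ : AddMonoid.End (ulm p A κ), ∀ x ∈ N, φ x ∈ N) →
        (N : Set (ulm p A κ)).Finite → N = ⊥)) := by
  have hdsc : DSC p A κ := by
    obtain ⟨ι, B, _, hB, ⟨e⟩⟩ := hC
    refine ⟨ι, B, _, hB, e.toAddMonoidHom.comp (QuotientAddGroup.mk' (ulm p A κ)), ?_, ?_⟩
    · exact e.surjective.comp (QuotientAddGroup.mk'_surjective _)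
    · intro x
      show e (QuotientAddGroup.mk' (ulm p A κ) x) = 0 ↔ _
      rw [map_eq_zero_iff e e.injective, ← QuotientAddGroup.eq_zero_iff]
      rfl
  have h1 := slender_iff κ hκ A hA hdsc hne
  refine ⟨h1, fun hsep => ?_, fun hU => ?_⟩
  · have hinf : infHeight p (ulm p A κ) = ⊥ := by
      rw [Submodule.eq_bot_iff]
      intro x hx
      have h2 : x ∈ ulm p (ulm p A κ) 1 := mem_ulm_one.2 hx
      rw [mem_ulm_ulm, hsep, AddSubgroup.mem_bot] at h2
      exact Subtype.ext h2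
    obtain ⟨x, hx⟩ := AddSubgroup.ne_bot_iff_exists_ne_zero.1 hne
    rw [h1, Lib_MP_fa2e48_ulm.slender_iff_of_separable (ulm_torsion hA κ) hinf ⟨x, hx⟩]
    have himg : ∀ k : ℕ, ((fun a : A => p ^ k • a) '' (ulm p A κ : Set A)) =
        Subtype.val '' (Set.range fun a : ulm p A κ => p ^ k • a) := by
      intro k
      ext y
      constructor
      · rintro ⟨a, ha, rfl⟩
        exact ⟨p ^ k • ⟨a, ha⟩, ⟨⟨a, ha⟩, rfl⟩, rfl⟩
      · rintro ⟨_, ⟨a, rfl⟩, rfl⟩
        exact ⟨a, a.2, rfl⟩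
    refine or_congr (exists_congr fun k => and_congr ?_ ?_) (and_congr (forall_congr' fun k => ?_)
      Iff.rfl)
    · exact ⟨fun h a ha => congrArg Subtype.val (h ⟨a, ha⟩), fun h a => Subtype.ext (h a a.2)⟩
    · rw [himg, Set.infinite_image_iff Subtype.val_injective.injOn]
    · constructor
      · rintro ⟨a, ha⟩
        exact ⟨a, a.2, fun h => ha (Subtype.ext h)⟩
      · rintro ⟨a, ha, h⟩
        exact ⟨⟨a, ha⟩, fun h' => h (congrArg Subtype.val h')⟩
  · rw [h1]
    constructor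
    · intro h N hN hfin
      by_contra hne
      exact not_slender_of_finite_fi N hN hfin hne h
    · intro h
      obtain ⟨ι, B, _, hB, ⟨e⟩⟩ := hU
      exact slender_of_dsc (ulm_torsion hA κ) e h

end Pool.Agent.Lib_MP_fa2e48_dsc.UlmDscReductionOld
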